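import Pool.Agent.H37.Pan.Defs

/-!
Automorphisms of the pancake graph `P_n`, `n ≥ 5`, are left translations.
-/

namespace Pool.Agent.H37.Pan

/-! ### Basic facts on `r` -/

theorem aut_r_val {n k : ℕ} (i : Fin n) :
    ((r n k) i).val = if i.val < k ∧ k ≤ n then k - 1 - i.val else i.val := by
  simp only [r, Function.Involutive.coe_toPerm, revFun]
  split_ifs with h
  · rfl
  · rfl

theorem aut_r_lt {n k : ℕ} (hk : k ≤ n) (i : Fin n) (hi : i.val < k) :
    ((r n k) i).val = k - 1 - i.val := by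
  rw [aut_r_val, if_pos ⟨hi, hk⟩]

theorem aut_r_ge {n k : ℕ} (i : Fin n) (hi : k ≤ i.val) : (r n k) i = i := by
  apply Fin.ext
  rw [aut_r_val, if_neg (by omega)]

theorem aut_r_mul_self (n k : ℕ) : r n k * r n k = 1 := by
  ext i
  simp [r, Equiv.Perm.mul_apply, (revFun_invol n k) i]

theorem aut_r_r {n k : ℕ} (i : Fin n) : (r n k) ((r n k) i) = i := by
  have := congrArg (fun τ : Equiv.Perm (Fin n) => τ i) (aut_r_mul_self n k)
  simpa using this

theorem aut_r_inj {n j k : ℕ} (hj2 : 2 ≤ j) (hj : j ≤ n) (hk2 : 2 ≤ k) (hk : k ≤ n)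
    (h : r n j = r n k) : j = k := by
  have h1 : ((r n j) ⟨0, by omega⟩).val = ((r n k) ⟨0, by omega⟩).val := by rw [h]
  rw [aut_r_lt hj _ (by simp; omega), aut_r_lt hk _ (by simp; omega)] at h1
  simp only at h1
  omega

/-! ### Closed non-backtracking walks of length six -/

/-- The prefix reversal on the natural numbers. -/
def rv (k i : ℕ) : ℕ := if i < k then k - 1 - i else i

theorem rv_lt {k i : ℕ} (h : i < k) : rv k i = k - 1 - i := by simp [rv, h]
theorem rv_ge {k i : ℕ} (h : k ≤ i) : rv k i = i := by simp [rv, Nat.not_lt.mpr h]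

theorem rv_spec (k i : ℕ) : (i < k ∧ rv k i = k - 1 - i) ∨ (k ≤ i ∧ rv k i = i) := by
  by_cases h : i < k
  · exact Or.inl ⟨h, rv_lt h⟩
  · exact Or.inr ⟨by omega, rv_ge (by omega)⟩

theorem aut_r_rv {n k : ℕ} (hk : k ≤ n) (i : Fin n) : ((r n k) i).val = rv k i.val := by
  rw [aut_r_val, rv]
  by_cases h : i.val < k
  · rw [if_pos ⟨h, hk⟩, if_pos h]
  · rw [if_neg (by omega), if_neg h]

theorem six_max {a b c d e g : ℕ} (ha : 2 ≤ a) (hb : 2 ≤ b) (hc : 2 ≤ c) (hd : 2 ≤ d)
    (he : 2 ≤ e) (hg : 2 ≤ g) (hab : a ≠ b) (hbc : b ≠ c) (hcd : c ≠ d) (hde : d ≠ e)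
    (heg : e ≠ g) (hga : g ≠ a) (mb : b ≤ a) (mc : c ≤ a) (md : d ≤ a) (me : e ≤ a)
    (mg : g ≤ a)
    (H : ∀ i, i < a → rv a (rv b (rv c (rv d (rv e (rv g i))))) = i) : a ≤ 3 := by
  have H1 := H (a - 1) (by omega)
  rw [rv_ge (show g ≤ a - 1 by omega)] at H1
  by_cases hc' : c = a
  · subst hc'
    by_cases he' : e = c
    · subst he'
      have H1' : b + d = e + 1 := by
        rw [rv_lt (show e - 1 < e by omega)] at H1
        rw [show e - 1 - (e - 1) = 0 by omega] at H1
        rw [rv_lt (show 0 < d by omega)] at H1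
        rw [rv_lt (show d - 1 - 0 < e by omega)] at H1
        rcases rv_spec b (e - 1 - (d - 1 - 0)) with ⟨h1, h2⟩ | ⟨h1, h2⟩
        · rw [h2] at H1
          rcases rv_spec e (b - 1 - (e - 1 - (d - 1 - 0))) with ⟨h3, h4⟩ | ⟨h3, h4⟩
          · rw [h4] at H1; omega
          · rw [h4] at H1; omega
        · rw [h2] at H1
          rcases rv_spec e (e - 1 - (d - 1 - 0)) with ⟨h3, h4⟩ | ⟨h3, h4⟩
          · rw [h4] at H1; omega
          · rw [h4] at H1; omega
      have H2' : b + g = e + 1 := by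
        have H2 := H (g - 1) (by omega)
        rw [rv_lt (show g - 1 < g by omega), show g - 1 - (g - 1) = 0 by omega,
          rv_lt (show 0 < e by omega), rv_ge (show d ≤ e - 1 - 0 by omega),
          rv_lt (show e - 1 - 0 < e by omega), show e - 1 - (e - 1 - 0) = 0 by omega,
          rv_lt (show 0 < b by omega), rv_lt (show b - 1 - 0 < e by omega)] at H2
        omega
      have H3' : d + g = e + 1 := by
        have H3 := H 0 (by omega)
        rw [rv_lt (show 0 < g by omega), rv_lt (show g - 1 - 0 < e by omega)] at H3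
        rcases rv_spec d (e - 1 - (g - 1 - 0)) with ⟨h1, h2⟩ | ⟨h1, h2⟩
        · rw [h2, rv_lt (show (d - 1 - (e - 1 - (g - 1 - 0))) < e by omega)] at H3
          rcases rv_spec b (e - 1 - (d - 1 - (e - 1 - (g - 1 - 0)))) with ⟨h3, h4⟩ | ⟨h3, h4⟩
          · rw [h4, rv_lt (by omega)] at H3; omega
          · rw [h4, rv_lt (by omega)] at H3; omega
        · rw [h2, rv_lt (show (e - 1 - (g - 1 - 0)) < e by omega)] at H3
          rcases rv_spec b (e - 1 - (e - 1 - (g - 1 - 0))) with ⟨h3, h4⟩ | ⟨h3, h4⟩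
          · rw [h4, rv_lt (by omega)] at H3; omega
          · rw [h4, rv_lt (by omega)] at H3; omega
      obtain rfl : b = d := by omega
      obtain rfl : b = g := by omega
      have H4 := H 1 (by omega)
      rw [rv_lt (show 1 < b by omega), rv_lt (show b - 1 - 1 < e by omega),
        rv_ge (show b ≤ e - 1 - (b - 1 - 1) by omega),
        rv_lt (show e - 1 - (b - 1 - 1) < e by omega),
        rv_lt (show e - 1 - (e - 1 - (b - 1 - 1)) < b by omega), rv_lt (by omega)] at H4
      omega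
    · rw [rv_ge (show e ≤ c - 1 by omega), rv_ge (show d ≤ c - 1 by omega),
        rv_lt (show c - 1 < c by omega), show c - 1 - (c - 1) = 0 by omega,
        rv_lt (show 0 < b by omega), rv_lt (show b - 1 - 0 < c by omega)] at H1
      omega
  · by_cases hd' : d = a
    · subst hd'
      rw [rv_ge (show e ≤ d - 1 by omega), rv_lt (show d - 1 < d by omega),
        show d - 1 - (d - 1) = 0 by omega, rv_lt (show 0 < c by omega)] at H1
      rcases rv_spec b (c - 1 - 0) with ⟨h1, h2⟩ | ⟨h1, h2⟩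
      · rw [h2, rv_lt (by omega)] at H1; omega
      · rw [h2, rv_lt (by omega)] at H1; omega
    · by_cases he' : e = a
      · subst he'
        have H0 := H 0 (by omega)
        rw [rv_lt (show 0 < g by omega), rv_lt (show g - 1 - 0 < e by omega)] at H0
        rcases rv_spec d (e - 1 - (g - 1 - 0)) with ⟨h1, h2⟩ | ⟨h1, h2⟩
        · rw [h2] at H0
          rcases rv_spec c (d - 1 - (e - 1 - (g - 1 - 0))) with ⟨h3, h4⟩ | ⟨h3, h4⟩
          · rw [h4] at H0
            rcases rv_spec b (c - 1 - (d - 1 - (e - 1 - (g - 1 - 0)))) with ⟨h5, h6⟩ | ⟨h5, h6⟩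
            · rw [h6, rv_lt (by omega)] at H0; omega
            · rw [h6, rv_lt (by omega)] at H0; omega
          · rw [h4] at H0
            rcases rv_spec b (d - 1 - (e - 1 - (g - 1 - 0))) with ⟨h5, h6⟩ | ⟨h5, h6⟩
            · rw [h6, rv_lt (by omega)] at H0; omega
            · rw [h6, rv_lt (by omega)] at H0; omega
        · rw [h2] at H0
          rcases rv_spec c (e - 1 - (g - 1 - 0)) with ⟨h3, h4⟩ | ⟨h3, h4⟩
          · rw [h4] at H0
            rcases rv_spec b (c - 1 - (e - 1 - (g - 1 - 0))) with ⟨h5, h6⟩ | ⟨h5, h6⟩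
            · rw [h6, rv_lt (by omega)] at H0; omega
            · rw [h6, rv_lt (by omega)] at H0; omega
          · rw [h4] at H0
            rcases rv_spec b (e - 1 - (g - 1 - 0)) with ⟨h5, h6⟩ | ⟨h5, h6⟩
            · rw [h6, rv_lt (by omega)] at H0; omega
            · rw [h6, rv_lt (by omega)] at H0; omega
      · rw [rv_ge (show e ≤ a - 1 by omega), rv_ge (show d ≤ a - 1 by omega),
          rv_ge (show c ≤ a - 1 by omega), rv_ge (show b ≤ a - 1 by omega),
          rv_lt (show a - 1 < a by omega)] at H1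
        omega

theorem six_max' {n a b c d e g : ℕ} (ha : 2 ≤ a) (hb : 2 ≤ b) (hc : 2 ≤ c) (hd : 2 ≤ d)
    (he : 2 ≤ e) (hg : 2 ≤ g) (hab : a ≠ b) (hbc : b ≠ c) (hcd : c ≠ d) (hde : d ≠ e)
    (heg : e ≠ g) (hga : g ≠ a) (mb : b ≤ a) (mc : c ≤ a) (md : d ≤ a) (me : e ≤ a)
    (mg : g ≤ a) (hn : a ≤ n)
    (H : r n a * r n b * r n c * r n d * r n e * r n g = 1) : a ≤ 3 := by
  refine six_max ha hb hc hd he hg hab hbc hcd hde heg hga mb mc md me mg ?_
  intro i hi
  have h1 := congrArg (fun τ : Equiv.Perm (Fin n) => (τ ⟨i, by omega⟩).val) H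
  simp only [Equiv.Perm.mul_apply, Equiv.Perm.one_apply] at h1
  rw [aut_r_rv (by omega), aut_r_rv (by omega), aut_r_rv (by omega), aut_r_rv (by omega),
    aut_r_rv (by omega), aut_r_rv (by omega)] at h1
  exact h1

/-- All labels of a closed non-backtracking walk of length six are at most three. -/
theorem six_all {n a b c d e g : ℕ} (ha : 2 ≤ a) (hb : 2 ≤ b) (hc : 2 ≤ c) (hd : 2 ≤ d)
    (he : 2 ≤ e) (hg : 2 ≤ g) (hab : a ≠ b) (hbc : b ≠ c) (hcd : c ≠ d) (hde : d ≠ e)
    (heg : e ≠ g) (hga : g ≠ a) (na : a ≤ n) (nb : b ≤ n) (nc : c ≤ n) (nd : d ≤ n)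
    (ne : e ≤ n) (ng : g ≤ n)
    (H : r n a * r n b * r n c * r n d * r n e * r n g = 1) : a ≤ 3 := by
  have rot : ∀ (x : Equiv.Perm (Fin n)) (k : ℕ), r n k * x = 1 → x * r n k = 1 := by
    intro x k h
    have : x = r n k := by
      have h2 := congrArg (fun y => r n k * y) h
      simp only [← mul_assoc, aut_r_mul_self, one_mul, mul_one] at h2
      exact h2
    rw [this, aut_r_mul_self]
  have H1 : r n b * r n c * r n d * r n e * r n g * r n a = 1 := by
    apply rot
    simpa [mul_assoc] using H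
  have H2 : r n c * r n d * r n e * r n g * r n a * r n b = 1 := by
    apply rot
    simpa [mul_assoc] using H1
  have H3 : r n d * r n e * r n g * r n a * r n b * r n c = 1 := by
    apply rot
    simpa [mul_assoc] using H2
  have H4 : r n e * r n g * r n a * r n b * r n c * r n d = 1 := by
    apply rot
    simpa [mul_assoc] using H3
  have H5 : r n g * r n a * r n b * r n c * r n d * r n e = 1 := by
    apply rot
    simpa [mul_assoc] using H4
  have hmax : (b ≤ a ∧ c ≤ a ∧ d ≤ a ∧ e ≤ a ∧ g ≤ a) ∨ (c ≤ b ∧ d ≤ b ∧ e ≤ b ∧ g ≤ b ∧ a ≤ b)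
    ∨ (d ≤ c ∧ e ≤ c ∧ g ≤ c ∧ a ≤ c ∧ b ≤ c) ∨ (e ≤ d ∧ g ≤ d ∧ a ≤ d ∧ b ≤ d ∧ c ≤ d)
    ∨ (g ≤ e ∧ a ≤ e ∧ b ≤ e ∧ c ≤ e ∧ d ≤ e) ∨ (a ≤ g ∧ b ≤ g ∧ c ≤ g ∧ d ≤ g ∧ e ≤ g) := by
    omega
  rcases hmax with ⟨h1, h2, h3, h4, h5⟩ | ⟨h1, h2, h3, h4, h5⟩ | ⟨h1, h2, h3, h4, h5⟩ |
    ⟨h1, h2, h3, h4, h5⟩ | ⟨h1, h2, h3, h4, h5⟩ | ⟨h1, h2, h3, h4, h5⟩
  · exact six_max' ha hb hc hd he hg hab hbc hcd hde heg hga h1 h2 h3 h4 h5 na H
  · have := six_max' hb hc hd he hg ha hbc hcd hde heg hga hab h1 h2 h3 h4 h5 nb H1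
    omega
  · have := six_max' hc hd he hg ha hb hcd hde heg hga hab hbc h1 h2 h3 h4 h5 nc H2
    omega
  · have := six_max' hd he hg ha hb hc hde heg hga hab hbc hcd h1 h2 h3 h4 h5 nd H3
    omega
  · have := six_max' he hg ha hb hc hd heg hga hab hbc hcd hde h1 h2 h3 h4 h5 ne H4
    omega
  · have := six_max' hg ha hb hc hd he hga hab hbc hcd hde heg h1 h2 h3 h4 h5 ng H5
    omega

/-- `y` is a neighbour of `x` along an edge of label at most `k`. -/
def EdgeLe (n k : ℕ) (x y : Equiv.Perm (Fin n)) : Prop := ∃ j, 2 ≤ j ∧ j ≤ k ∧ y = x * r n j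

theorem r23_six {n : ℕ} (hn : 3 ≤ n) : r n 2 * r n 3 * r n 2 * r n 3 * r n 2 * r n 3 = 1 := by
  ext i
  simp only [Equiv.Perm.mul_apply, Equiv.Perm.one_apply]
  rw [aut_r_rv (by omega), aut_r_rv (by omega), aut_r_rv (by omega), aut_r_rv (by omega),
    aut_r_rv (by omega), aut_r_rv (by omega)]
  by_cases h : 3 ≤ i.val
  · simp only [rv_ge h, rv_ge (show 2 ≤ i.val by omega)]
  · have : i.val = 0 ∨ i.val = 1 ∨ i.val = 2 := by omega
    rcases this with h | h | h <;> rw [h] <;> simp [rv]

theorem r32_six {n : ℕ} (hn : 3 ≤ n) : r n 3 * r n 2 * r n 3 * r n 2 * r n 3 * r n 2 = 1 := by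
  have h := r23_six hn
  have h2 := congrArg (fun y => r n 2 * y * r n 2) h
  simp only [← mul_assoc, aut_r_mul_self, one_mul, mul_one] at h2
  exact h2

/-- Closed non-backtracking walk of length six through the edge `x y`. -/
def Six (n : ℕ) (x y : Equiv.Perm (Fin n)) : Prop :=
  ∃ v2 v3 v4 v5, (pancake n).Adj x y ∧ (pancake n).Adj y v2 ∧ (pancake n).Adj v2 v3 ∧
    (pancake n).Adj v3 v4 ∧ (pancake n).Adj v4 v5 ∧ (pancake n).Adj v5 x ∧
    x ≠ v2 ∧ y ≠ v3 ∧ v2 ≠ v4 ∧ v3 ≠ v5 ∧ v4 ≠ x ∧ v5 ≠ y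

theorem six_map {n : ℕ} (f : pancake n ≃g pancake n) {x y : Equiv.Perm (Fin n)}
    (h : Six n x y) : Six n (f x) (f y) := by
  obtain ⟨v2, v3, v4, v5, h1, h2, h3, h4, h5, h6, g1, g2, g3, g4, g5, g6⟩ := h
  have hi := f.injective
  exact ⟨f v2, f v3, f v4, f v5, f.map_adj_iff.mpr h1, f.map_adj_iff.mpr h2,
    f.map_adj_iff.mpr h3, f.map_adj_iff.mpr h4, f.map_adj_iff.mpr h5, f.map_adj_iff.mpr h6,
    hi.ne g1, hi.ne g2, hi.ne g3, hi.ne g4, hi.ne g5, hi.ne g6⟩

theorem six_le {n : ℕ} {x y : Equiv.Perm (Fin n)} (h : Six n x y) : EdgeLe n 3 x y := by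
  obtain ⟨v2, v3, v4, v5, ⟨a, a2, an, rfl⟩, ⟨b, b2, bn, rfl⟩, ⟨c, c2, cn, rfl⟩, ⟨d, d2, dn, rfl⟩,
    ⟨e, e2, en, rfl⟩, ⟨g, g2', gn, h6⟩, g1, g2, g3, g4, g5, g6⟩ := h
  refine ⟨a, a2, ?_, rfl⟩
  have H : r n a * r n b * r n c * r n d * r n e * r n g = 1 := by
    have := congrArg (fun y => x⁻¹ * y) h6
    simp only [← mul_assoc, inv_mul_cancel, one_mul] at this
    exact this.symm
  have back : ∀ (z : Equiv.Perm (Fin n)) (j k : ℕ), z ≠ z * r n j * r n k → j ≠ k := by
    rintro z j k h rfl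
    rw [mul_assoc, aut_r_mul_self, mul_one] at h
    exact h rfl
  refine six_all (n := n) (b := b) (c := c) (d := d) (e := e) (g := g) a2 b2 c2 d2 e2 g2'
    (back _ _ _ g1) (back _ _ _ g2) (back _ _ _ g3) (back _ _ _ g4) ?_ ?_ an bn cn dn en gn H
  · apply back _ _ _ (z := x * r n a * r n b * r n c * r n d)
    rw [← h6]; exact g5
  · rintro rfl
    apply g6
    have := congrArg (fun y => y * r n g) h6
    simp only [mul_assoc, aut_r_mul_self, mul_one] at this
    refine Eq.trans ?_ this.symm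
    simp only [mul_assoc]

theorem six_of_le {n : ℕ} (hn : 3 ≤ n) {x y : Equiv.Perm (Fin n)} (h : EdgeLe n 3 x y) :
    Six n x y := by
  obtain ⟨j, j2, j3, rfl⟩ := h
  have ne : ∀ (z : Equiv.Perm (Fin n)), z ≠ z * r n 2 * r n 3 := by
    intro z h
    have h2 : r n 2 = r n 3 := by
      have := congrArg (fun y => z⁻¹ * y * r n 3) h
      simp only [mul_assoc, aut_r_mul_self, mul_one, inv_mul_cancel_left, inv_mul_cancel,
        ] at this
      exact this.symm
    have := aut_r_inj (by omega) (by omega) (by omega) (by omega) h2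
    omega
  have ne' : ∀ (z : Equiv.Perm (Fin n)), z ≠ z * r n 3 * r n 2 := by
    intro z h
    have h2 : r n 3 = r n 2 := by
      have := congrArg (fun y => z⁻¹ * y * r n 2) h
      simp only [mul_assoc, aut_r_mul_self, mul_one, inv_mul_cancel_left, inv_mul_cancel,
        ] at this
      exact this.symm
    have := aut_r_inj (by omega) (by omega) (by omega) (by omega) h2
    omega
  have hj : j = 2 ∨ j = 3 := by omega
  rcases hj with rfl | rfl
  · have e6 : x * r n 2 * r n 3 * r n 2 * r n 3 * r n 2 * r n 3 = x := by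
      have := congrArg (fun y => x * y) (r23_six hn)
      simpa only [← mul_assoc, mul_one] using this
    have e7 : x * r n 2 * r n 3 * r n 2 * r n 3 * r n 2 * r n 3 * r n 2 = x * r n 2 := by
      rw [e6]
    refine ⟨x * r n 2 * r n 3, x * r n 2 * r n 3 * r n 2, x * r n 2 * r n 3 * r n 2 * r n 3,
      x * r n 2 * r n 3 * r n 2 * r n 3 * r n 2, ⟨2, by omega, by omega, rfl⟩,
      ⟨3, by omega, by omega, rfl⟩, ⟨2, by omega, by omega, rfl⟩, ⟨3, by omega, by omega, rfl⟩,
      ⟨2, by omega, by omega, rfl⟩, ⟨3, by omega, by omega, e6.symm⟩, ne _, ne' _, ne _, ne' _,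
      ?_, ?_⟩
    · have := ne (x * r n 2 * r n 3 * r n 2 * r n 3)
      rwa [e6] at this
    · have := ne' (x * r n 2 * r n 3 * r n 2 * r n 3 * r n 2)
      rwa [e7] at this
  · have e6 : x * r n 3 * r n 2 * r n 3 * r n 2 * r n 3 * r n 2 = x := by
      have := congrArg (fun y => x * y) (r32_six hn)
      simpa only [← mul_assoc, mul_one] using this
    have e7 : x * r n 3 * r n 2 * r n 3 * r n 2 * r n 3 * r n 2 * r n 3 = x * r n 3 := by
      rw [e6]
    refine ⟨x * r n 3 * r n 2, x * r n 3 * r n 2 * r n 3, x * r n 3 * r n 2 * r n 3 * r n 2,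
      x * r n 3 * r n 2 * r n 3 * r n 2 * r n 3, ⟨3, by omega, by omega, rfl⟩,
      ⟨2, by omega, by omega, rfl⟩, ⟨3, by omega, by omega, rfl⟩, ⟨2, by omega, by omega, rfl⟩,
      ⟨3, by omega, by omega, rfl⟩, ⟨2, by omega, by omega, e6.symm⟩, ne' _, ne _, ne' _, ne _,
      ?_, ?_⟩
    · have := ne' (x * r n 3 * r n 2 * r n 3 * r n 2)
      rwa [e6] at this
    · have := ne (x * r n 3 * r n 2 * r n 3 * r n 2 * r n 3)
      rwa [e7] at this

/-! ### Classes of permutations agreeing on the positions `≥ k` -/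

/-- `x` and `y` agree on the positions `≥ k` (0-indexed). -/
def Agree (n k : ℕ) (x y : Equiv.Perm (Fin n)) : Prop := ∀ p : Fin n, k ≤ p.val → x p = y p

theorem agree_refl {n k : ℕ} (x : Equiv.Perm (Fin n)) : Agree n k x x := fun _ _ => rfl

theorem agree_symm {n k : ℕ} {x y : Equiv.Perm (Fin n)} (h : Agree n k x y) : Agree n k y x :=
  fun p hp => (h p hp).symm

theorem agree_trans {n k : ℕ} {x y z : Equiv.Perm (Fin n)} (h : Agree n k x y)
    (h' : Agree n k y z) : Agree n k x z :=
  fun p hp => (h p hp).trans (h' p hp)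

theorem agree_of_edge {n k : ℕ} {x y : Equiv.Perm (Fin n)} (h : EdgeLe n k x y) :
    Agree n k x y := by
  obtain ⟨j, j2, jk, rfl⟩ := h
  intro p hp
  rw [Equiv.Perm.mul_apply, aut_r_ge p (by omega)]

theorem edge_mono {n k l : ℕ} (h : k ≤ l) {x y : Equiv.Perm (Fin n)} (hx : EdgeLe n k x y) :
    EdgeLe n l x y := by
  obtain ⟨j, j2, jk, rfl⟩ := hx
  exact ⟨j, j2, by omega, rfl⟩

theorem rtg_of_agree {n : ℕ} (k : ℕ) (hk : k ≤ n) :
    ∀ x y : Equiv.Perm (Fin n), Agree n k x y → Relation.ReflTransGen (EdgeLe n k) x y := by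
  induction k with
  | zero =>
    intro x y h
    have : x = y := Equiv.ext (fun p => h p (Nat.zero_le _))
    rw [this]
  | succ k ih =>
    intro x y h
    have mono : ∀ a b, Relation.ReflTransGen (EdgeLe n k) a b →
        Relation.ReflTransGen (EdgeLe n (k + 1)) a b := by
      intro a b hab
      exact Relation.ReflTransGen.mono (fun u v huv => edge_mono (Nat.le_succ k) huv) a b hab
    let q : Fin n := ⟨k, by omega⟩
    by_cases hq : x q = y q
    · apply mono
      apply ih (by omega)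
      intro p hp
      by_cases hpk : p.val = k
      · have : p = q := Fin.ext hpk
        rw [this]; exact hq
      · exact h p (by omega)
    · let p : Fin n := x⁻¹ (y q)
      have hxp : x p = y q := by simp [p]
      have hp : p.val < k := by
        by_contra hcon
        have hpk : p.val ≠ k := by
          intro hpk
          have : p = q := Fin.ext hpk
          rw [this] at hxp
          exact hq hxp
        have h2 := h p (by omega)
        rw [hxp] at h2
        have h3 := y.injective h2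
        exact hpk (by rw [← h3])
      have hk1 : 1 ≤ k := by omega
      -- go through `x * r (p+1) * r (k+1)`
      have step1 : Relation.ReflTransGen (EdgeLe n (k + 1)) x (x * r n (p.val + 1)) := by
        by_cases h0 : p.val = 0
        · have : r n (p.val + 1) = 1 := by
            ext i
            rw [aut_r_val, h0]
            simp only [Equiv.Perm.one_apply]
            split_ifs with hh
            · omega
            · rfl
          rw [this, mul_one]
        · exact Relation.ReflTransGen.single ⟨p.val + 1, by omega, by omega, rfl⟩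
      have step2 : Relation.ReflTransGen (EdgeLe n (k + 1)) (x * r n (p.val + 1))
          (x * r n (p.val + 1) * r n (k + 1)) :=
        Relation.ReflTransGen.single ⟨k + 1, by omega, le_refl _, rfl⟩
      have hz : Agree n k (x * r n (p.val + 1) * r n (k + 1)) y := by
        intro t ht
        rw [Equiv.Perm.mul_apply, Equiv.Perm.mul_apply]
        by_cases htk : t.val = k
        · have e1 : (r n (p.val + 1)) ((r n (k + 1)) t) = p := by
            apply Fin.ext
            rw [aut_r_rv (by omega), aut_r_rv (by omega), htk, rv_lt (show k < k + 1 by omega),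
              rv_lt (by omega)]
            omega
          have : t = q := Fin.ext htk
          rw [e1, hxp, this]
        · rw [aut_r_ge t (by omega), aut_r_ge t (by omega)]
          exact h t (by omega)
      exact step1.trans (step2.trans (mono _ _ (ih (by omega) _ _ hz)))

/-- `f` and its inverse preserve the edges of label at most `k`. -/
def Pres (n k : ℕ) : Prop :=
  ∀ (f : pancake n ≃g pancake n) (x y : Equiv.Perm (Fin n)), EdgeLe n k x y →
    EdgeLe n k (f x) (f y)

theorem pres_three {n : ℕ} (hn : 3 ≤ n) : Pres n 3 := by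
  intro f x y h
  exact six_le (six_map f (six_of_le hn h))

theorem pres_agree {n k : ℕ} (hk : k ≤ n) (h : Pres n k) (f : pancake n ≃g pancake n)
    {x y : Equiv.Perm (Fin n)} (hxy : Agree n k x y) : Agree n k (f x) (f y) := by
  have h1 := rtg_of_agree k hk x y hxy
  have h2 : Relation.ReflTransGen (EdgeLe n k) (f x) (f y) :=
    Relation.ReflTransGen.lift f (fun a b hab => h f a b hab) x y h1
  clear h1 hxy
  generalize f x = a at h2 ⊢
  generalize f y = b at h2 ⊢
  induction h2 with
  | refl => exact agree_refl _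
  | tail _ h3 ih => exact agree_trans ih (agree_of_edge h3)

theorem pres_agree_iff {n k : ℕ} (hk : k ≤ n) (h : Pres n k) (f : pancake n ≃g pancake n)
    {x y : Equiv.Perm (Fin n)} : Agree n k x y ↔ Agree n k (f x) (f y) := by
  constructor
  · exact pres_agree hk h f
  · intro h2
    have := pres_agree hk h f.symm h2
    simpa using this

/-- Members of the class of `x` having a neighbour in the class of `y`. -/
def XS (n k : ℕ) (x y : Equiv.Perm (Fin n)) : Set (Equiv.Perm (Fin n)) :=
  {x' | Agree n k x x' ∧ ∃ z, Agree n k y z ∧ (pancake n).Adj x' z}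

/-- Members of the class of `x` with the same first entry. -/
def TS (n k : ℕ) (x : Equiv.Perm (Fin n)) : Set (Equiv.Perm (Fin n)) :=
  {x' | Agree n k x x' ∧ ∀ p : Fin n, p.val = 0 → x' p = x p}

theorem xs_image {n k : ℕ} (hk : k ≤ n) (h : Pres n k) (f : pancake n ≃g pancake n)
    (x y : Equiv.Perm (Fin n)) : f '' XS n k x y = XS n k (f x) (f y) := by
  ext u
  constructor
  · rintro ⟨v, ⟨h1, z, h2, h3⟩, rfl⟩
    exact ⟨pres_agree hk h f h1, f z, pres_agree hk h f h2, f.map_adj_iff.mpr h3⟩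
  · rintro ⟨h1, z, h2, h3⟩
    refine ⟨f.symm u, ⟨?_, f.symm z, ?_, ?_⟩, by simp⟩
    · rw [pres_agree_iff hk h f]; simpa using h1
    · rw [pres_agree_iff hk h f]; simpa using h2
    · exact f.symm.map_adj_iff.mpr h3

theorem ts_card {n k : ℕ} (x y : Equiv.Perm (Fin n)) : (TS n k x).ncard = (TS n k y).ncard := by
  have h : TS n k y = (fun z => y * x⁻¹ * z) '' TS n k x := by
    ext u
    constructor
    · rintro ⟨h1, h2⟩
      refine ⟨x * y⁻¹ * u, ⟨?_, ?_⟩, ?_⟩
      · intro p hp
        simp only [Equiv.Perm.mul_apply, ← h1 p hp]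
        simp
      · intro p hp
        simp only [Equiv.Perm.mul_apply, h2 p hp]
        simp
      · simp [mul_assoc]
    · rintro ⟨v, ⟨h1, h2⟩, rfl⟩
      refine ⟨?_, ?_⟩
      · intro p hp
        simp only [Equiv.Perm.mul_apply, ← h1 p hp]
        simp
      · intro p hp
        simp only [Equiv.Perm.mul_apply, h2 p hp]
        simp
  rw [h]
  exact (Set.ncard_image_of_injective _ (mul_right_injective _)).symm

theorem ts_sub_xs {n k : ℕ} (hk : k + 1 ≤ n) (hk1 : 1 ≤ k) (x : Equiv.Perm (Fin n)) :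
    TS n k x ⊆ XS n k x (x * r n (k + 1)) := by
  rintro u ⟨h1, h2⟩
  refine ⟨h1, u * r n (k + 1), ?_, ⟨k + 1, by omega, hk, rfl⟩⟩
  intro p hp
  rw [Equiv.Perm.mul_apply, Equiv.Perm.mul_apply]
  by_cases hpk : p.val = k
  · rw [h2]
    rw [aut_r_rv hk, hpk, rv_lt (by omega)]
    omega
  · rw [aut_r_ge p (by omega)]
    exact h1 p hp

theorem xs_sub {n k j : ℕ} (hk3 : 3 ≤ k) (hj : k + 2 ≤ j) (hjn : j ≤ n)
    (y : Equiv.Perm (Fin n)) {u : Equiv.Perm (Fin n)} (hu : u ∈ XS n k y (y * r n j)) :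
    Agree n k y u ∧ (∀ p : Fin n, p.val = 0 → u p = y p) ∧ (∀ p : Fin n, p.val = 1 → u p = y p) := by
  obtain ⟨h1, z, h2, ⟨i, i2, inn, rfl⟩⟩ := hu
  have hik : k < i := by
    by_contra hcon
    have e1 := h2 ⟨k, by omega⟩ (le_refl _)
    rw [Equiv.Perm.mul_apply, Equiv.Perm.mul_apply, aut_r_ge (k := i) ⟨k, by omega⟩ (by simp; omega),
      ← h1 _ (by simp)] at e1
    have e1' := congrArg Fin.val (y.injective e1)
    rw [aut_r_rv hjn, rv_lt (by simp; omega)] at e1'
    have e2 := h2 ⟨k + 1, by omega⟩ (by simp)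
    rw [Equiv.Perm.mul_apply, Equiv.Perm.mul_apply, aut_r_ge (k := i) ⟨k + 1, by omega⟩ (by simp; omega),
      ← h1 _ (by simp)] at e2
    have e2' := congrArg Fin.val (y.injective e2)
    rw [aut_r_rv hjn, rv_lt (by simp; omega)] at e2'
    simp at e1' e2'
    omega
  have hij : i = j := by
    rcases lt_trichotomy i j with hlt | heq | hgt
    · exfalso
      have e1 := h2 ⟨j - 1, by omega⟩ (by simp; omega)
      rw [Equiv.Perm.mul_apply, Equiv.Perm.mul_apply, aut_r_ge (k := i) ⟨j - 1, by omega⟩ (by simp; omega),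
        ← h1 _ (by simp; omega)] at e1
      have e1' := congrArg Fin.val (y.injective e1)
      rw [aut_r_rv hjn, rv_lt (by simp; omega)] at e1'
      simp at e1'
      omega
    · exact heq
    · exfalso
      have e1 := h2 ⟨i - 1, by omega⟩ (by simp; omega)
      rw [Equiv.Perm.mul_apply, Equiv.Perm.mul_apply, aut_r_ge (k := j) ⟨i - 1, by omega⟩ (by simp; omega),
        h1 _ (by simp; omega)] at e1
      have e1' := congrArg Fin.val (u.injective e1)
      rw [aut_r_rv inn, rv_lt (by simp; omega)] at e1'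
      simp at e1'
      omega
  subst hij
  refine ⟨h1, ?_, ?_⟩
  · intro p hp
    have e1 := h2 ⟨i - 1, by omega⟩ (by simp; omega)
    rw [Equiv.Perm.mul_apply, Equiv.Perm.mul_apply] at e1
    have e2 : (r n i) ⟨i - 1, by omega⟩ = p := by
      apply Fin.ext
      rw [aut_r_rv hjn, rv_lt (by simp; omega)]
      simp
      omega
    rw [e2] at e1
    exact e1.symm
  · intro p hp
    have e1 := h2 ⟨i - 2, by omega⟩ (by simp; omega)
    rw [Equiv.Perm.mul_apply, Equiv.Perm.mul_apply] at e1
    have e2 : (r n i) ⟨i - 2, by omega⟩ = p := by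
      apply Fin.ext
      rw [aut_r_rv hjn, rv_lt (by simp; omega)]
      simp
      omega
    rw [e2] at e1
    exact e1.symm

theorem xs_lt_ts {n k j : ℕ} (hk3 : 3 ≤ k) (hj : k + 2 ≤ j) (hjn : j ≤ n)
    (y : Equiv.Perm (Fin n)) : (XS n k y (y * r n j)).ncard < (TS n k y).ncard := by
  apply Set.ncard_lt_ncard _ (Set.toFinite _)
  refine ⟨?_, ?_⟩
  · intro u hu
    obtain ⟨h1, h2, h3⟩ := xs_sub hk3 hj hjn y hu
    exact ⟨h1, h2⟩
  · intro hsub
    let p1 : Fin n := ⟨1, by omega⟩
    let p2 : Fin n := ⟨2, by omega⟩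
    have hmem : y * Equiv.swap p1 p2 ∈ TS n k y := by
      refine ⟨?_, ?_⟩
      · intro p hp
        rw [Equiv.Perm.mul_apply, Equiv.swap_apply_of_ne_of_ne]
        · intro h; rw [h] at hp; simp [p1] at hp; omega
        · intro h; rw [h] at hp; simp [p2] at hp; omega
      · intro p hp
        rw [Equiv.Perm.mul_apply, Equiv.swap_apply_of_ne_of_ne]
        · intro h; rw [h] at hp; simp [p1] at hp
        · intro h; rw [h] at hp; simp [p2] at hp
    obtain ⟨h1, h2, h3⟩ := xs_sub hk3 hj hjn y (hsub hmem)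
    have h4 := h3 p1 rfl
    rw [Equiv.Perm.mul_apply, Equiv.swap_apply_left] at h4
    have h5 := congrArg Fin.val (y.injective h4)
    simp [p1, p2] at h5

/-- Preservation of the edges of label at most `k` gives preservation of the label `k+1`. -/
theorem label_succ {n k : ℕ} (hk3 : 3 ≤ k) (hk : k + 1 ≤ n) (h : Pres n k)
    (f : pancake n ≃g pancake n) (x : Equiv.Perm (Fin n)) :
    f (x * r n (k + 1)) = f x * r n (k + 1) := by
  have hadj : (pancake n).Adj x (x * r n (k + 1)) := ⟨k + 1, by omega, hk, rfl⟩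
  obtain ⟨j, j2, jn, hj⟩ := f.map_adj_iff.mpr hadj
  have hjk : k < j := by
    by_contra hcon
    have h1 : EdgeLe n k (f x) (f (x * r n (k + 1))) := ⟨j, j2, by omega, hj⟩
    have h2 : Agree n k x (x * r n (k + 1)) :=
      (pres_agree_iff (by omega) h f).mpr (agree_of_edge h1)
    have h3 := h2 ⟨k, by omega⟩ (le_refl _)
    rw [Equiv.Perm.mul_apply] at h3
    have h4 := congrArg Fin.val (x.injective h3)
    rw [aut_r_rv hk, rv_lt (by simp)] at h4
    simp at h4
    omega
  by_cases hj1 : j = k + 1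
  · rw [hj, hj1]
  · exfalso
    have e1 : (TS n k x).ncard ≤ (XS n k x (x * r n (k + 1))).ncard :=
      Set.ncard_le_ncard (ts_sub_xs hk (by omega) x) (Set.toFinite _)
    have e2 : (XS n k x (x * r n (k + 1))).ncard = (XS n k (f x) (f x * r n j)).ncard := by
      rw [← hj, ← xs_image (by omega) h f]
      exact (Set.ncard_image_of_injective _ f.injective).symm
    have e3 := xs_lt_ts hk3 (by omega) jn (f x)
    have e4 := ts_card (k := k) x (f x)
    omega

theorem pres_all {n : ℕ} (k : ℕ) (hk3 : 3 ≤ k) (hk : k ≤ n) : Pres n k := by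
  induction k, hk3 using Nat.le_induction with
  | base => exact pres_three hk
  | succ k hk3 ih =>
    have hP := ih (by omega)
    rintro f x y ⟨j, j2, jk, rfl⟩
    by_cases hj : j ≤ k
    · exact edge_mono (Nat.le_succ k) (hP f _ _ ⟨j, j2, hj, rfl⟩)
    · obtain rfl : j = k + 1 := by omega
      exact ⟨k + 1, j2, le_refl _, label_succ hk3 hk hP f x⟩

theorem label_eq {n : ℕ} (j : ℕ) (h4 : 4 ≤ j) (hj : j ≤ n) (f : pancake n ≃g pancake n)
    (x : Equiv.Perm (Fin n)) : f (x * r n j) = f x * r n j := by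
  obtain ⟨k, rfl⟩ : ∃ k, j = k + 1 := ⟨j - 1, by omega⟩
  exact label_succ (by omega) hj (pres_all k (by omega) (by omega)) f x

/-- Every automorphism of the pancake graph `P_n`, `n ≥ 5`, is a left translation. -/
theorem aut_left {n : ℕ} (hn : 5 ≤ n) (f : pancake n ≃g pancake n) :
    ∃ g : Equiv.Perm (Fin n), ∀ π, f π = g * π := by
  let l : Fin n := ⟨n - 1, by omega⟩
  have hag : ∀ x y : Equiv.Perm (Fin n), x l = y l ↔ Agree n (n - 1) x y := by
    intro x y
    constructor
    · intro h p hp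
      have : p = l := Fin.ext (by simp [l]; omega)
      rw [this]; exact h
    · intro h
      exact h l (by simp [l])
  have hlast : ∀ x y : Equiv.Perm (Fin n), x l = y l ↔ (f x) l = (f y) l := by
    intro x y
    rw [hag, hag]
    exact pres_agree_iff (by omega) (pres_all (n - 1) (by omega) (by omega)) f
  let σf : Fin n → Fin n := fun a => (f (Equiv.swap a l)) l
  have hσ : ∀ x : Equiv.Perm (Fin n), (f x) l = σf (x l) := by
    intro x
    have h1 : x l = (Equiv.swap (x l) l) l := by rw [Equiv.swap_apply_right]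
    exact (hlast _ _).mp h1
  have hinj : Function.Injective σf := by
    intro a b hab
    have h1 := (hlast (Equiv.swap a l) (Equiv.swap b l)).mpr hab
    rwa [Equiv.swap_apply_right, Equiv.swap_apply_right] at h1
  let g : Equiv.Perm (Fin n) := Equiv.ofBijective σf (Finite.injective_iff_bijective.mp hinj)
  have hg : ∀ a, g a = σf a := fun a => rfl
  refine ⟨g, ?_⟩
  intro π
  -- last entry
  have hl : ∀ x : Equiv.Perm (Fin n), (f x) l = g (x l) := fun x => by rw [hg]; exact hσ x
  -- first entry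
  have hf : ∀ (x : Equiv.Perm (Fin n)) (p : Fin n), p.val = 0 → (f x) p = g (x p) := by
    intro x p hp
    have h1 := hl (x * r n n)
    rw [label_eq n (by omega) le_rfl f x, Equiv.Perm.mul_apply, Equiv.Perm.mul_apply] at h1
    have h2 : (r n n) l = p := by
      apply Fin.ext
      rw [aut_r_rv le_rfl, rv_lt (by simp [l]; omega)]
      simp [l]; omega
    rwa [h2] at h1
  -- entries at position `≥ 3`
  have hm : ∀ (x : Equiv.Perm (Fin n)) (p : Fin n), 3 ≤ p.val → (f x) p = g (x p) := by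
    intro x p hp
    have h0 : (0 : ℕ) < n := by omega
    have h1 := hf (x * r n (p.val + 1)) ⟨0, h0⟩ rfl
    rw [label_eq (p.val + 1) (by omega) (by omega) f x, Equiv.Perm.mul_apply,
      Equiv.Perm.mul_apply] at h1
    have h2 : (r n (p.val + 1)) ⟨0, h0⟩ = p := by
      apply Fin.ext
      rw [aut_r_rv (by omega), rv_lt (by simp)]
      simp
    rwa [h2] at h1
  -- entry at position 1
  have h1' : ∀ (x : Equiv.Perm (Fin n)) (p : Fin n), p.val = 1 → (f x) p = g (x p) := by
    intro x p hp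
    have h1 := hm (x * r n 5) ⟨3, by omega⟩ (le_refl _)
    rw [label_eq 5 (by omega) hn f x, Equiv.Perm.mul_apply, Equiv.Perm.mul_apply] at h1
    have h2 : (r n 5) ⟨3, by omega⟩ = p := by
      apply Fin.ext
      rw [aut_r_rv (by omega), rv_lt (by simp)]
      simp; omega
    rwa [h2] at h1
  have hne : ∀ p : Fin n, p.val ≠ 2 → (f π) p = (g * π) p := by
    intro p hp
    rw [Equiv.Perm.mul_apply]
    by_cases h0 : p.val = 0
    · exact hf π p h0
    · by_cases h1 : p.val = 1
      · exact h1' π p h1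
      · exact hm π p (by omega)
  apply Equiv.ext
  intro p
  by_cases hp : p.val = 2
  · -- the only remaining position
    obtain ⟨q, hq⟩ := (g * π).surjective ((f π) p)
    by_cases hqp : q.val = 2
    · have : q = p := Fin.ext (by omega)
      rw [this] at hq
      exact hq.symm
    · have h2 := hne q hqp
      rw [hq] at h2
      have h3 := (f π).injective h2
      rw [h3] at hqp
      exact absurd hp hqp
  · exact hne p hp

end Pool.Agent.H37.Pan
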