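import Pool.Agent.H37.Pan.Step

/-!
The two special configurations: one orbit of all but one, or all but two, symbols.
-/

namespace Pool.Agent.H37.Pan
set_option linter.unusedSectionVars false

variable {α : Type} [DecidableEq α]

theorem liftP_mono {H : Subgroup (Equiv.Perm α)} {v : α} {T T' : List α → Prop}
    (h : ∀ s, T s → T' s) : ∀ s, LiftP H v T s → LiftP H v T' s := by
  rintro s ⟨k, hk, t, ht, rfl⟩
  exact ⟨k, hk, t, h t ht, rfl⟩

theorem liftP_PU {H : Subgroup (Equiv.Perm α)} {A : Finset α} (hI : Inv H A) {v : α}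
    (hv : v ∈ A) {K : Subgroup (Equiv.Perm α)} {zs : List α} :
    ∀ s, LiftP H v (PU K (A.erase v) zs) s → PU H A [v] s := fun s hs =>
  (liftP_str hI hv s).mp (liftP_mono (fun _ h => h.1) s hs)

/-- stabilizer of a symbol is trivial when all other symbols are fixed or in its orbit -/
theorem triv_stab {H : Subgroup (Equiv.Perm α)} (hH : Cyc H) {A : Finset α} {v : α}
    (h : ∀ c ∈ A, Fx H c ∨ R H v c) : Triv (stab H v) (A.erase v) := by
  intro k hk a ha
  rcases h a (Finset.mem_of_mem_erase ha) with h1 | h1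
  · exact h1 k hk.1
  · exact stab_fix hH h1 hk

theorem sep_union {H : Subgroup (Equiv.Perm α)} {O1 O2 O3 : List α → Prop}
    (h1 : ∀ s t, O1 s → O3 t → ¬ Eqv H s t) (h2 : ∀ s t, O2 s → O3 t → ¬ Eqv H s t) :
    ∀ s t, (O1 s ∨ O2 s) → O3 t → ¬ Eqv H s t := by
  rintro s t (h | h) ht
  · exact h1 s t h ht
  · exact h2 s t h ht

theorem PU_mono {H : Subgroup (Equiv.Perm α)} {A : Finset α} {vs ws : List α}
    (h : ∀ a ∈ vs, a ∈ ws) : ∀ s, PU H A vs s → PU H A ws s := by
  rintro s ⟨h1, z, hz, h2⟩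
  exact ⟨h1, z, h z hz, h2⟩

section
variable {n : ℕ} (hn : 4 ≤ n) (hI1 : IdP α n) {A : Finset α}
  (hA : A.card = n + 2) {H : Subgroup (Equiv.Perm α)} (hH : Cyc H) (hI : Inv H A)

include hn hI1 hA hH hI

/-- chain inside a copy with trivial stabilizer -/
theorem lift_chain {w : α} (hw : w ∈ A) (hT : Triv (stab H w) (A.erase w)) (zs : List α)
    (z : α) (hnd : (z :: zs).Nodup) (hmem : ∀ a ∈ z :: zs, a ∈ A.erase w)
    (x y : List α) (v : α) (hv : (z :: zs).getLast? = some v) (hx : Str A (x ++ [z] ++ [w]))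
    (hy : Str A (y ++ [v] ++ [w])) (hne : x ++ [z] ≠ y ++ [v]) :
    HP H (LiftP H w (PU (stab H w) (A.erase w) (z :: zs))) (x ++ [z] ++ [w])
      (y ++ [v] ++ [w]) :=
  HP.lift (id_chain (A := A.erase w) hn hI1 (by rw [Finset.card_erase_of_mem hw]; omega)
    hT zs z hnd hmem x y v hv hx.dropLast hy.dropLast hne)

/-- the special configuration with two fixed symbols -/
theorem caseE (hG : GP α (n + 1)) {s t ℓ ξ η : α} {x y : List α}
    (hx : Str A (x ++ [ξ] ++ [s])) (hy : Str A (y ++ [η] ++ [ℓ])) (ht : t ∈ A)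
    (hst : s ≠ t) (hfs : Fx H s) (hft : Fx H t)
    (htr : ∀ a ∈ A, ∀ b ∈ A, a ≠ s → a ≠ t → b ≠ s → b ≠ t → R H a b)
    (hξ : ξ ≠ t) (hℓs : ℓ ≠ s) (hℓt : ℓ ≠ t) :
    HP H (Str A) (x ++ [ξ] ++ [s]) (y ++ [η] ++ [ℓ]) := by
  have hs : s ∈ A := hx.mem_last
  have hℓ : ℓ ∈ A := hy.mem_last
  have hηℓ : η ≠ ℓ := (Finset.mem_erase.mp hy.dropLast.mem_last).1
  have hηA : η ∈ A := (hy.2 η).mp (by simp)
  have hT : Triv (stab H ℓ) (A.erase ℓ) := by
    apply triv_stab hH
    intro c hc
    by_cases h1 : c = s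
    · left; rw [h1]; exact hfs
    by_cases h2 : c = t
    · left; rw [h2]; exact hft
    right
    exact htr ℓ hℓ c hc hℓs hℓt h1 h2
  -- first piece
  obtain ⟨a, haA, ha⟩ := pick (A := A) {s, t, ℓ, η}
    (lt_of_le_of_lt Finset.card_le_four (by omega))
  simp only [Finset.mem_insert, Finset.mem_singleton, not_or] at ha
  obtain ⟨m1, hm1⟩ := exists_mk4 hℓ haA ht hs (Ne.symm ha.2.2.1) hℓt hℓs ha.2.1 ha.1 (Ne.symm hst)
  have hb1 : Str A ((ℓ :: a :: m1) ++ [t] ++ [s]) := by simpa using hm1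
  have ha2 : Str A ((s :: t :: m1.reverse) ++ [a] ++ [ℓ]) := by
    have := hm1.reverse
    simpa using this
  have h1 : HP H (PU H A [s]) (x ++ [ξ] ++ [s]) ((ℓ :: a :: m1) ++ [t] ++ [s]) := by
    refine seg hG (by omega) hH hI hx hb1 ?_
    intro hr
    exact hξ (hft.right (R.mono (stab_le H s) hr))
  -- second piece
  obtain ⟨m2, hm2⟩ := exists_mk4 ht hs haA hℓ (Ne.symm hst) (Ne.symm ha.2.1) (Ne.symm hℓt)
    (Ne.symm ha.1) (Ne.symm hℓs) ha.2.2.1
  have hp : Str A ((t :: s :: m2) ++ [a] ++ [ℓ]) := by simpa using hm2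
  have ha3 : Str A ((ℓ :: a :: m2.reverse) ++ [s] ++ [t]) := by
    have := hm2.reverse
    simpa using this
  have h2 : HP H (LiftP H ℓ (PU (stab H ℓ) (A.erase ℓ) [a])) ((s :: t :: m1.reverse) ++ [a] ++ [ℓ])
      ((t :: s :: m2) ++ [a] ++ [ℓ]) := by
    refine lift_chain hn hI1 hA hH hI hℓ hT [] a (by simp) ?_ _ _ a (by simp) ha2 hp ?_
    · intro b hb
      simp only [List.mem_cons, List.not_mem_nil, or_false] at hb
      subst hb
      exact Finset.mem_erase.mpr ⟨ha.2.2.1, haA⟩
    · intro e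
      simp only [List.cons_append, List.cons.injEq] at e
      exact hst e.1
  -- third piece
  obtain ⟨ζ, hζA, hζ⟩ := pick (A := A) {ℓ, t, a, η}
    (lt_of_le_of_lt Finset.card_le_four (by omega))
  simp only [Finset.mem_insert, Finset.mem_singleton, not_or] at hζ
  obtain ⟨m3, hm3⟩ := exists_mk4 hℓ hζA haA ht (Ne.symm hζ.1) (Ne.symm ha.2.2.1) hℓt hζ.2.2.1
    hζ.2.1 ha.2.1
  have hb3 : Str A ((ℓ :: ζ :: m3) ++ [a] ++ [t]) := by simpa using hm3
  have hq : Str A ((t :: a :: m3.reverse) ++ [ζ] ++ [ℓ]) := by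
    have := hm3.reverse
    simpa using this
  have h3 : HP H (PU H A [t]) ((ℓ :: a :: m2.reverse) ++ [s] ++ [t])
      ((ℓ :: ζ :: m3) ++ [a] ++ [t]) := by
    refine seg hG (by omega) hH hI ha3 hb3 ?_
    intro hr
    exact ha.1 (hfs.left (R.mono (stab_le H t) hr))
  -- fourth piece
  set M := (((A.erase ℓ).erase a).erase ζ).erase η with hM
  have hnd : (ζ :: (M.toList ++ [η])).Nodup := by
    rw [List.nodup_cons, List.nodup_append]
    refine ⟨?_, Finset.nodup_toList _, by simp, ?_⟩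
    · simp only [List.mem_append, Finset.mem_toList, hM, Finset.mem_erase, List.mem_cons,
        List.not_mem_nil, or_false]
      rintro (h | h)
      · exact h.2.1 rfl
      · exact hζ.2.2.2 h
    · intro c hc b hb e
      simp only [List.mem_singleton] at hb
      subst hb; subst e
      simp [hM] at hc
  have hmem : ∀ c ∈ ζ :: (M.toList ++ [η]), c ∈ A.erase ℓ := by
    intro c hc
    simp only [List.mem_cons, List.mem_append, List.not_mem_nil, or_false, hM,
      Finset.mem_toList, Finset.mem_erase] at hc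
    rw [Finset.mem_erase]
    rcases hc with rfl | hc | rfl
    · exact ⟨hζ.1, hζA⟩
    · exact hc.2.2.2
    · exact ⟨hηℓ, hηA⟩
  have h4 : HP H (LiftP H ℓ (PU (stab H ℓ) (A.erase ℓ) (ζ :: (M.toList ++ [η]))))
      ((t :: a :: m3.reverse) ++ [ζ] ++ [ℓ]) (y ++ [η] ++ [ℓ]) := by
    refine lift_chain hn hI1 hA hH hI hℓ hT (M.toList ++ [η]) ζ hnd hmem _ _ η ?_ hq hy ?_
    · rw [List.getLast?_cons, List.getLast?_append]; simp
    · intro e
      have := (List.append_inj' e (by simp)).2
      simp only [List.cons.injEq, and_true] at this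
      exact hζ.2.2.2 this
  -- adjacency
  have j1 : AdjL ((ℓ :: a :: m1) ++ [t] ++ [s]) ((s :: t :: m1.reverse) ++ [a] ++ [ℓ]) := by
    have h5 : (s :: t :: m1.reverse) ++ [a] ++ [ℓ] = ((ℓ :: a :: m1) ++ [t] ++ [s]).reverse := by
      simp
    rw [h5]; exact adjL_reverse (by simp)
  have j2 : AdjL ((t :: s :: m2) ++ [a] ++ [ℓ]) ((ℓ :: a :: m2.reverse) ++ [s] ++ [t]) := by
    have h5 : (ℓ :: a :: m2.reverse) ++ [s] ++ [t] = ((t :: s :: m2) ++ [a] ++ [ℓ]).reverse := by
      simp
    rw [h5]; exact adjL_reverse (by simp)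
  have j3 : AdjL ((ℓ :: ζ :: m3) ++ [a] ++ [t]) ((t :: a :: m3.reverse) ++ [ζ] ++ [ℓ]) := by
    have h5 : (t :: a :: m3.reverse) ++ [ζ] ++ [ℓ] = ((ℓ :: ζ :: m3) ++ [a] ++ [t]).reverse := by
      simp
    rw [h5]; exact adjL_reverse (by simp)
  -- separation
  have nsl : ∀ z, ¬ z = s → ¬ R H s z := fun z hz hr => hz (hfs.left hr)
  have ntl : ∀ z, ¬ z = t → ¬ R H t z := fun z hz hr => hz (hft.left hr)
  have s12 : ∀ p q, PU H A [s] p → LiftP H ℓ (PU (stab H ℓ) (A.erase ℓ) [a]) q →
      ¬ Eqv H p q := by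
    intro p q hp hq
    refine PU.sep (vs := [s]) (ws := [ℓ]) ?_ p q hp (liftP_PU hI hℓ q hq)
    simpa using nsl ℓ hℓs
  have s13 : ∀ p q, PU H A [s] p → PU H A [t] q → ¬ Eqv H p q := by
    apply PU.sep
    simpa using nsl t (Ne.symm hst)
  have s23 : ∀ p q, LiftP H ℓ (PU (stab H ℓ) (A.erase ℓ) [a]) p → PU H A [t] q →
      ¬ Eqv H p q := by
    intro p q hp hq e
    refine PU.sep (vs := [t]) (ws := [ℓ]) ?_ q p hq (liftP_PU hI hℓ p hp) e.symm
    simpa using ntl ℓ hℓt
  have s14 : ∀ p q, PU H A [s] p →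
      LiftP H ℓ (PU (stab H ℓ) (A.erase ℓ) (ζ :: (M.toList ++ [η]))) q → ¬ Eqv H p q := by
    intro p q hp hq
    refine PU.sep (vs := [s]) (ws := [ℓ]) ?_ p q hp (liftP_PU hI hℓ q hq)
    simpa using nsl ℓ hℓs
  have s34 : ∀ p q, PU H A [t] p →
      LiftP H ℓ (PU (stab H ℓ) (A.erase ℓ) (ζ :: (M.toList ++ [η]))) q → ¬ Eqv H p q := by
    intro p q hp hq
    refine PU.sep (vs := [t]) (ws := [ℓ]) ?_ p q hp (liftP_PU hI hℓ q hq)
    simpa using ntl ℓ hℓt
  have s24 : ∀ p q, LiftP H ℓ (PU (stab H ℓ) (A.erase ℓ) [a]) p →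
      LiftP H ℓ (PU (stab H ℓ) (A.erase ℓ) (ζ :: (M.toList ++ [η]))) q → ¬ Eqv H p q := by
    apply LiftP.sep
    apply PU.sep
    intro c hc d hd hr
    simp only [List.mem_cons, List.not_mem_nil, or_false] at hc
    subst hc
    have := hT.rel (Finset.mem_erase.mpr ⟨ha.2.2.1, haA⟩) hr
    subst this
    simp only [List.mem_cons, List.mem_append, List.not_mem_nil, or_false, hM,
      Finset.mem_toList, Finset.mem_erase] at hd
    rcases hd with hd | hd | hd
    · exact hζ.2.2.1 hd.symm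
    · exact hd.2.2.1 rfl
    · exact ha.2.2.2 hd
  have g := ((h1.glue h2 j1 s12).glue h3 j2 (sep_union s13 s23)).glue h4 j3
    (sep_union (sep_union s14 s24) s34)
  refine g.congr ?_
  intro p
  constructor
  · rintro (((h | h) | h) | h)
    · exact h.1
    · exact (liftP_PU hI hℓ p h).1
    · exact h.1
    · exact (liftP_PU hI hℓ p h).1
  · intro hp
    have hpl : p.length = n + 2 := by rw [hp.length, hA]
    obtain ⟨p', w, rfl⟩ : ∃ x' ξ, p = x' ++ [ξ] := by
      refine ⟨p.dropLast, p.getLast (by intro e; subst e; simp at hpl), ?_⟩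
      rw [List.dropLast_append_getLast]
    have hw : w ∈ A := hp.mem_last
    by_cases hws : w = s
    · exact Or.inl (Or.inl (Or.inl ⟨hp, s, by simp, p', w, rfl, by rw [hws]; exact R.refl H s⟩))
    by_cases hwt : w = t
    · exact Or.inl (Or.inr ⟨hp, t, by simp, p', w, rfl, by rw [hwt]; exact R.refl H t⟩)
    have hr : R H ℓ w := htr ℓ hℓ w hw hℓs hℓt hws hwt
    have h6 : PU H A [ℓ] (p' ++ [w]) := ⟨hp, ℓ, by simp, p', w, rfl, hr⟩
    obtain ⟨h, hh, t', ht', he⟩ := (liftP_str hI hℓ _).mpr h6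
    have htl : t'.length = n + 1 := by
      rw [ht'.length, Finset.card_erase_of_mem hℓ, hA]; rfl
    obtain ⟨t'', z, rfl⟩ : ∃ x' ξ, t' = x' ++ [ξ] := by
      refine ⟨t'.dropLast, t'.getLast (by intro e; subst e; simp at htl), ?_⟩
      rw [List.dropLast_append_getLast]
    have hz := ht'.mem_last
    by_cases hza : z = a
    · refine Or.inl (Or.inl (Or.inr ⟨h, hh, t'' ++ [z], ⟨ht', a, by simp, t'', z, rfl, ?_⟩, he⟩))
      rw [hza]; exact R.refl _ a
    · refine Or.inr ⟨h, hh, t'' ++ [z], ⟨ht', z, ?_, t'', z, rfl, R.refl _ z⟩, he⟩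
      simp only [List.mem_cons, List.mem_append, List.not_mem_nil, or_false, hM,
        Finset.mem_toList]
      rw [Finset.mem_erase, Finset.mem_erase, Finset.mem_erase]
      tauto

/-- path inside the copy of a fixed symbol, the group transitive on the rest -/
theorem fixed_piece {s ξ : α} {x z : List α} (hx : Str A (x ++ [ξ] ++ [s]))
    (hz : Str A (z ++ [ξ] ++ [s])) (hfs : Fx H s)
    (htr : ∀ a ∈ A, ∀ b ∈ A, a ≠ s → b ≠ s → R H a b) (hne : x ≠ z) :
    HP H (PU H A [s]) (x ++ [ξ] ++ [s]) (z ++ [ξ] ++ [s]) := by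
  have hs : s ∈ A := hx.mem_last
  have hξ' : ξ ∈ A.erase s := hx.dropLast.mem_last
  have hξs : ξ ≠ s := (Finset.mem_erase.mp hξ').1
  have hξA : ξ ∈ A := (Finset.mem_erase.mp hξ').2
  have hT : Triv (stab (stab H s) ξ) ((A.erase s).erase ξ) := by
    apply triv_stab (hH.stab s)
    intro c hc
    right
    obtain ⟨k, hk, he⟩ := htr ξ hξA c (Finset.mem_erase.mp hc).2 hξs (Finset.mem_erase.mp hc).1
    exact ⟨k, ⟨hk, hfs k hk⟩, he⟩
  have h1 := hI1 ((A.erase s).erase ξ) (by
    rw [Finset.card_erase_of_mem hξ', Finset.card_erase_of_mem hs]; omega) _ hT x z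
    hx.dropLast.dropLast hz.dropLast.dropLast hne
  have h2 := (HP.lift h1).congr (fun p => liftP_str (hI.stab s) hξ' p)
  have h3 : HP (stab H s) (Str (A.erase s)) (x ++ [ξ]) (z ++ [ξ]) := by
    refine h2.congr (fun p => ⟨fun h => h.1, fun hp => ?_⟩)
    have hpl : p.length = n + 1 := by rw [hp.length, Finset.card_erase_of_mem hs, hA]; rfl
    obtain ⟨p', w, rfl⟩ : ∃ x' ξ, p = x' ++ [ξ] := by
      refine ⟨p.dropLast, p.getLast (by intro e; subst e; simp at hpl), ?_⟩
      rw [List.dropLast_append_getLast]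
    have hw := hp.mem_last
    obtain ⟨k, hk, he⟩ := htr ξ hξA w (Finset.mem_erase.mp hw).2 hξs (Finset.mem_erase.mp hw).1
    exact ⟨hp, ξ, by simp, p', w, rfl, k, ⟨hk, hfs k hk⟩, he⟩
  exact (HP.lift h3).congr (fun p => liftP_str hI hs p)

/-- the special configuration with one fixed symbol -/
theorem caseT (hG : GP α (n + 1)) {s ℓ ξ η : α} {x y : List α}
    (hx : Str A (x ++ [ξ] ++ [s])) (hy : Str A (y ++ [η] ++ [ℓ])) (hfs : Fx H s)
    (htr : ∀ a ∈ A, ∀ b ∈ A, a ≠ s → b ≠ s → R H a b) (hℓs : ℓ ≠ s) :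
    HP H (Str A) (x ++ [ξ] ++ [s]) (y ++ [η] ++ [ℓ]) := by
  have hs : s ∈ A := hx.mem_last
  have hℓ : ℓ ∈ A := hy.mem_last
  have hξ' : ξ ∈ A.erase s := hx.dropLast.mem_last
  have hξs : ξ ≠ s := (Finset.mem_erase.mp hξ').1
  have hξA : ξ ∈ A := (Finset.mem_erase.mp hξ').2
  have hηℓ : η ≠ ℓ := (Finset.mem_erase.mp hy.dropLast.mem_last).1
  have hηA : η ∈ A := (hy.2 η).mp (by simp)
  have hxl : x.length = n := by have := hx.length; simp at this; omega
  obtain ⟨x1, x2, xr, rfl⟩ : ∃ x1 x2 xr, x = x1 :: x2 :: xr := by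
    match x, hxl with
    | [], h => simp at h; omega
    | [a], h => simp at h; omega
    | a :: b :: r, _ => exact ⟨a, b, r, rfl⟩
  have nsl : ∀ z, ¬ z = s → ¬ R H s z := fun z hz hr => hz (hfs.left hr)
  have hTw : ∀ w ∈ A, w ≠ s → Triv (stab H w) (A.erase w) := by
    intro w hw hws
    apply triv_stab hH
    intro c hc
    by_cases h1 : c = s
    · left; rw [h1]; exact hfs
    right
    exact htr w hw c hc hws h1
  by_cases hξℓ : ξ = ℓ
  · -- coincidence
    subst hξℓ
    obtain ⟨w, hwA, hw⟩ := pick (A := A) {ξ, s, x1}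
      (lt_of_le_of_lt Finset.card_le_three (by omega))
    simp only [Finset.mem_insert, Finset.mem_singleton, not_or] at hw
    obtain ⟨k, hk, hkw⟩ := htr ξ hξA w hwA hξs hw.2.1
    have hkA : ∀ c ∈ A, k c ∈ A := fun c hc => hI k hk c hc
    have hkA' : ∀ c ∈ A, k⁻¹ c ∈ A := fun c hc => hI _ (H.inv_mem hk) c hc
    obtain ⟨z1, hz1A, hz1⟩ := pick (A := A) {w, ξ, s, k η}
      (lt_of_le_of_lt Finset.card_le_four (by omega))
    simp only [Finset.mem_insert, Finset.mem_singleton, not_or] at hz1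
    obtain ⟨m1, hm1⟩ := exists_mk4 hwA hz1A hξA hs (Ne.symm hz1.1) hw.1 hw.2.1 hz1.2.1
      hz1.2.2.1 hξs
    have hb1 : Str A ((w :: z1 :: m1) ++ [ξ] ++ [s]) := by simpa using hm1
    have ha2 : Str A ((s :: ξ :: m1.reverse) ++ [z1] ++ [w]) := by
      have := hm1.reverse
      simpa using this
    have h1 := fixed_piece hn hI1 hA hH hI hx hb1 hfs htr (by
      intro e
      simp only [List.cons.injEq] at e
      exact hw.2.2 e.1.symm)
    obtain ⟨p2, hp2A, hp2⟩ := pick (A := A) {ξ, z1, w, k⁻¹ z1, η}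
      (lt_of_le_of_lt Finset.card_le_five (by omega))
    simp only [Finset.mem_insert, Finset.mem_singleton, not_or] at hp2
    obtain ⟨m2, hm2⟩ := exists_mk4 hξA hp2A hz1A hwA (Ne.symm hp2.1) (Ne.symm hz1.2.1)
      (Ne.symm hw.1) hp2.2.1 hp2.2.2.1 hz1.1
    have hp : Str A ((ξ :: p2 :: m2) ++ [z1] ++ [w]) := by simpa using hm2
    have ha3 : Str A ((w :: z1 :: m2.reverse) ++ [p2] ++ [ξ]) := by
      have := hm2.reverse
      simpa using this
    have hTw' := hTw w hwA hw.2.1
    have h2 : HP H (LiftP H w (PU (stab H w) (A.erase w) [z1]))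
        ((s :: ξ :: m1.reverse) ++ [z1] ++ [w]) ((ξ :: p2 :: m2) ++ [z1] ++ [w]) := by
      refine lift_chain hn hI1 hA hH hI hwA hTw' [] z1 (by simp) ?_ _ _ z1 (by simp) ha2 hp ?_
      · intro b hb
        simp only [List.mem_cons, List.not_mem_nil, or_false] at hb
        subst hb
        exact Finset.mem_erase.mpr ⟨hz1.1, hz1A⟩
      · intro e
        simp only [List.cons_append, List.cons.injEq] at e
        exact hξs e.1.symm
    -- second chain, shifted by k
    have hq : Str A (((w :: z1 :: m2.reverse).map k) ++ [k p2] ++ [w]) := by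
      have := ha3.map hI hk
      simpa [hkw] using this
    have hy' : Str A ((y.map k) ++ [k η] ++ [w]) := by
      have := hy.map hI hk
      simpa [hkw] using this
    have hkp2z : k p2 ≠ z1 := by
      intro e
      apply hp2.2.2.2.1
      rw [← e]; simp
    have hkp2w : k p2 ≠ w := by
      intro e
      rw [← hkw] at e
      exact hp2.1 (k.injective e)
    have hkp2η : k p2 ≠ k η := fun e => hp2.2.2.2.2 (k.injective e)
    have hkηw : k η ≠ w := by
      intro e
      rw [← hkw] at e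
      exact hηℓ (k.injective e)
    set M := (((A.erase w).erase z1).erase (k p2)).erase (k η) with hM
    have hnd : (k p2 :: (M.toList ++ [k η])).Nodup := by
      rw [List.nodup_cons, List.nodup_append]
      refine ⟨?_, Finset.nodup_toList _, by simp, ?_⟩
      · simp only [List.mem_append, Finset.mem_toList, hM, Finset.mem_erase, List.mem_cons,
          List.not_mem_nil, or_false]
        rintro (h | h)
        · exact h.2.1 rfl
        · exact hkp2η h
      · intro c hc b hb e
        simp only [List.mem_singleton] at hb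
        subst hb; subst e
        simp [hM] at hc
    have hmem : ∀ c ∈ k p2 :: (M.toList ++ [k η]), c ∈ A.erase w := by
      intro c hc
      simp only [List.mem_cons, List.mem_append, List.not_mem_nil, or_false, hM,
        Finset.mem_toList, Finset.mem_erase] at hc
      rw [Finset.mem_erase]
      rcases hc with rfl | hc | rfl
      · exact ⟨hkp2w, hkA _ hp2A⟩
      · exact hc.2.2.2
      · exact ⟨hkηw, hkA _ hηA⟩
    have h4 : HP H (LiftP H w (PU (stab H w) (A.erase w) (k p2 :: (M.toList ++ [k η]))))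
        (((w :: z1 :: m2.reverse).map k) ++ [k p2] ++ [w]) ((y.map k) ++ [k η] ++ [w]) := by
      refine lift_chain hn hI1 hA hH hI hwA hTw' (M.toList ++ [k η]) (k p2) hnd hmem _ _ (k η)
        ?_ hq hy' ?_
      · rw [List.getLast?_cons, List.getLast?_append]; simp
      · intro e
        have := (List.append_inj' e (by simp)).2
        simp only [List.cons.injEq, and_true] at this
        exact hkp2η this
    have h5 := h4.shift (H.inv_mem hk) (LiftP.map (H.inv_mem hk))
    have e1 : (((w :: z1 :: m2.reverse).map k) ++ [k p2] ++ [w]).map (k⁻¹ : Equiv.Perm α) =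
        (w :: z1 :: m2.reverse) ++ [p2] ++ [ξ] := by
      rw [← hkw]
      simp [Function.comp_def]
    have e2 : ((y.map k) ++ [k η] ++ [w]).map (k⁻¹ : Equiv.Perm α) = y ++ [η] ++ [ξ] := by
      rw [← hkw]
      simp [Function.comp_def]
    rw [e1, e2] at h5
    have j1 : AdjL ((w :: z1 :: m1) ++ [ξ] ++ [s]) ((s :: ξ :: m1.reverse) ++ [z1] ++ [w]) := by
      have h5 : (s :: ξ :: m1.reverse) ++ [z1] ++ [w] =
          ((w :: z1 :: m1) ++ [ξ] ++ [s]).reverse := by simp
      rw [h5]; exact adjL_reverse (by simp)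
    have j2 : AdjL ((ξ :: p2 :: m2) ++ [z1] ++ [w]) ((w :: z1 :: m2.reverse) ++ [p2] ++ [ξ]) := by
      have h5 : (w :: z1 :: m2.reverse) ++ [p2] ++ [ξ] =
          ((ξ :: p2 :: m2) ++ [z1] ++ [w]).reverse := by simp
      rw [h5]; exact adjL_reverse (by simp)
    have s12 : ∀ p q, PU H A [s] p → LiftP H w (PU (stab H w) (A.erase w) [z1]) q →
        ¬ Eqv H p q := by
      intro p q hp hq
      refine PU.sep (vs := [s]) (ws := [w]) ?_ p q hp (liftP_PU hI hwA q hq)
      simpa using nsl w hw.2.1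
    have s13 : ∀ p q, PU H A [s] p →
        LiftP H w (PU (stab H w) (A.erase w) (k p2 :: (M.toList ++ [k η]))) q →
        ¬ Eqv H p q := by
      intro p q hp hq
      refine PU.sep (vs := [s]) (ws := [w]) ?_ p q hp (liftP_PU hI hwA q hq)
      simpa using nsl w hw.2.1
    have s23 : ∀ p q, LiftP H w (PU (stab H w) (A.erase w) [z1]) p →
        LiftP H w (PU (stab H w) (A.erase w) (k p2 :: (M.toList ++ [k η]))) q →
        ¬ Eqv H p q := by
      apply LiftP.sep
      apply PU.sep
      intro c hc d hd hr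
      simp only [List.mem_cons, List.not_mem_nil, or_false] at hc
      subst hc
      have := hTw'.rel (Finset.mem_erase.mpr ⟨hz1.1, hz1A⟩) hr
      subst this
      simp only [List.mem_cons, List.mem_append, List.not_mem_nil, or_false, hM,
        Finset.mem_toList] at hd
      rw [Finset.mem_erase, Finset.mem_erase, Finset.mem_erase] at hd
      rcases hd with hd | hd | hd
      · exact hkp2z hd.symm
      · exact hd.2.2.1 rfl
      · exact hz1.2.2.2 hd
    have g := (h1.glue h2 j1 s12).glue h5 j2 (sep_union s13 s23)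
    refine g.congr ?_
    intro p
    constructor
    · rintro ((h | h) | h)
      · exact h.1
      · exact (liftP_PU hI hwA p h).1
      · exact (liftP_PU hI hwA p h).1
    · intro hp
      have hpl : p.length = n + 2 := by rw [hp.length, hA]
      obtain ⟨p', v, rfl⟩ : ∃ x' ξ, p = x' ++ [ξ] := by
        refine ⟨p.dropLast, p.getLast (by intro e; subst e; simp at hpl), ?_⟩
        rw [List.dropLast_append_getLast]
      have hv : v ∈ A := hp.mem_last
      by_cases hvs : v = s
      · exact Or.inl (Or.inl ⟨hp, s, by simp, p', v, rfl, by rw [hvs]; exact R.refl H s⟩)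
      have hr : R H w v := htr w hwA v hv hw.2.1 hvs
      have h6 : PU H A [w] (p' ++ [v]) := ⟨hp, w, by simp, p', v, rfl, hr⟩
      obtain ⟨h, hh, t', ht', he⟩ := (liftP_str hI hwA _).mpr h6
      have htl : t'.length = n + 1 := by
        rw [ht'.length, Finset.card_erase_of_mem hwA, hA]; rfl
      obtain ⟨t'', z, rfl⟩ : ∃ x' ξ, t' = x' ++ [ξ] := by
        refine ⟨t'.dropLast, t'.getLast (by intro e; subst e; simp at htl), ?_⟩
        rw [List.dropLast_append_getLast]
      have hz := ht'.mem_last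
      by_cases hza : z = z1
      · refine Or.inl (Or.inr ⟨h, hh, t'' ++ [z], ⟨ht', z1, by simp, t'', z, rfl, ?_⟩, he⟩)
        rw [hza]; exact R.refl _ z1
      · refine Or.inr ⟨h, hh, t'' ++ [z], ⟨ht', z, ?_, t'', z, rfl, R.refl _ z⟩, he⟩
        simp only [List.mem_cons, List.mem_append, List.not_mem_nil, or_false, hM,
          Finset.mem_toList]
        rw [Finset.mem_erase, Finset.mem_erase, Finset.mem_erase]
        tauto
  · -- no coincidence
    obtain ⟨a, haA, ha⟩ := pick (A := A) {ℓ, ξ, s, η, x2}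
      (lt_of_le_of_lt Finset.card_le_five (by omega))
    simp only [Finset.mem_insert, Finset.mem_singleton, not_or] at ha
    obtain ⟨m1, hm1⟩ := exists_mk4 hℓ haA hξA hs (Ne.symm ha.1) (Ne.symm hξℓ) hℓs ha.2.1
      ha.2.2.1 hξs
    have hb1 : Str A ((ℓ :: a :: m1) ++ [ξ] ++ [s]) := by simpa using hm1
    have ha2 : Str A ((s :: ξ :: m1.reverse) ++ [a] ++ [ℓ]) := by
      have := hm1.reverse
      simpa using this
    have h1 := fixed_piece hn hI1 hA hH hI hx hb1 hfs htr (by
      intro e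
      simp only [List.cons.injEq] at e
      exact ha.2.2.2.2 e.2.1.symm)
    have h2 : HP H (PU H A [ℓ]) ((s :: ξ :: m1.reverse) ++ [a] ++ [ℓ]) (y ++ [η] ++ [ℓ]) := by
      refine seg hG (by omega) hH hI ha2 hy ?_
      intro hr
      have := (hTw ℓ hℓ hℓs).rel (Finset.mem_erase.mpr ⟨ha.1, haA⟩) hr
      exact ha.2.2.2.1 this.symm
    have j1 : AdjL ((ℓ :: a :: m1) ++ [ξ] ++ [s]) ((s :: ξ :: m1.reverse) ++ [a] ++ [ℓ]) := by
      have h5 : (s :: ξ :: m1.reverse) ++ [a] ++ [ℓ] =
          ((ℓ :: a :: m1) ++ [ξ] ++ [s]).reverse := by simp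
      rw [h5]; exact adjL_reverse (by simp)
    refine (h1.glue h2 j1 (PU.sep (by simpa using nsl ℓ hℓs))).congr ?_
    intro p
    constructor
    · rintro (h | h)
      · exact h.1
      · exact h.1
    · intro hp
      have hpl : p.length = n + 2 := by rw [hp.length, hA]
      obtain ⟨p', v, rfl⟩ : ∃ x' ξ, p = x' ++ [ξ] := by
        refine ⟨p.dropLast, p.getLast (by intro e; subst e; simp at hpl), ?_⟩
        rw [List.dropLast_append_getLast]
      have hv : v ∈ A := hp.mem_last
      by_cases hvs : v = s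
      · exact Or.inl ⟨hp, s, by simp, p', v, rfl, by rw [hvs]; exact R.refl H s⟩
      · exact Or.inr ⟨hp, ℓ, by simp, p', v, rfl, htr ℓ hℓ v hv hℓs hvs⟩

end

/-- the induction step -/
theorem step {n : ℕ} (hn : 4 ≤ n) (hI1 : IdP α n) (hG : GP α (n + 1)) : GP α (n + 2) := by
  intro A hA H hH hI x y u v hx hy huv
  have hxl : x.length = n + 1 := by have := hx.length; simp at this; omega
  have hyl : y.length = n + 1 := by have := hy.length; simp at this; omega
  obtain ⟨x, ξ, rfl⟩ : ∃ x' ξ, x = x' ++ [ξ] := by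
    refine ⟨x.dropLast, x.getLast (by intro e; subst e; simp at hxl), ?_⟩
    rw [List.dropLast_append_getLast]
  obtain ⟨y, η, rfl⟩ : ∃ x' ξ, y = x' ++ [ξ] := by
    refine ⟨y.dropLast, y.getLast (by intro e; subst e; simp at hyl), ?_⟩
    rw [List.dropLast_append_getLast]
  have hu : u ∈ A := hx.mem_last
  have hv : v ∈ A := hy.mem_last
  have ne : ∀ {a b}, ¬ R H a b → a ≠ b := fun h e => h (by rw [e]; exact R.refl H _)
  have hξu : ξ ≠ u := (Finset.mem_erase.mp hx.dropLast.mem_last).1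
  have hηv : η ≠ v := (Finset.mem_erase.mp hy.dropLast.mem_last).1
  have hξA : ξ ∈ A := (Finset.mem_erase.mp hx.dropLast.mem_last).2
  have hηA : η ∈ A := (Finset.mem_erase.mp hy.dropLast.mem_last).2
  obtain ⟨ms, hpw, hmem, hcov⟩ := reps hu hv huv
  have full : ∀ vs : List α, (∀ c ∈ A, ∃ w ∈ vs, R H w c) → ∀ s, PU H A vs s ↔ Str A s := by
    intro vs hvs s
    refine ⟨fun h => h.1, fun hs => ?_⟩
    have hsl : s.length = n + 2 := by rw [hs.length, hA]
    obtain ⟨s', w, rfl⟩ : ∃ x' ξ, s = x' ++ [ξ] := by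
      refine ⟨s.dropLast, s.getLast (by intro e; subst e; simp at hsl), ?_⟩
      rw [List.dropLast_append_getLast]
    obtain ⟨z, hz, hr⟩ := hvs w hs.mem_last
    exact ⟨hs, z, hz, s', w, rfl, hr⟩
  cases ms with
  | nil =>
    -- two orbits
    have hcov2 : ∀ c ∈ A, R H u c ∨ R H v c := by
      intro c hc
      obtain ⟨w, hw, hr⟩ := hcov c hc
      simp only [List.nil_append, List.mem_cons, List.not_mem_nil, or_false] at hw
      rcases hw with rfl | rfl
      · exact Or.inl hr
      · exact Or.inr hr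
    by_cases hfu : Fx H u
    · refine caseT hn hI1 hA hH hI hG hx hy hfu ?_ (Ne.symm (ne huv))
      intro a ha b hb hau hbu
      have h1 : R H v a := (hcov2 a ha).resolve_left (fun h => hau (hfu.left h))
      have h2 : R H v b := (hcov2 b hb).resolve_left (fun h => hbu (hfu.left h))
      exact h1.symm.trans h2
    by_cases hfv : Fx H v
    · refine (caseT hn hI1 hA hH hI hG hy hx hfv ?_ (ne huv)).reverse
      intro a ha b hb hau hbu
      have h1 : R H u a := (hcov2 a ha).resolve_right (fun h => hau (hfv.left h))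
      have h2 : R H u b := (hcov2 b hb).resolve_right (fun h => hbu (hfv.left h))
      exact h1.symm.trans h2
    have h1 := top2 (n := n + 1) (by omega) hG hA hH hI y η v hy u ξ hu huv hfu hfv x hx
    refine h1.congr (full _ ?_)
    intro c hc
    obtain ⟨w, hw, hr⟩ := hcov c hc
    exact ⟨w, by simpa using hw, hr⟩
  | cons v2 ms =>
    -- at least three orbits
    obtain ⟨v3, vs, hvs⟩ : ∃ v3 vs, ms ++ [v] = v3 :: vs := by
      cases ms with
      | nil => exact ⟨v, [], rfl⟩
      | cons a l => exact ⟨a, l ++ [v], rfl⟩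
    have hlast : (v3 :: vs).getLast? = some v := by rw [← hvs]; simp
    rw [List.cons_append, hvs] at hpw hmem hcov
    have hv2A : v2 ∈ A := hmem v2 (by simp)
    have hv3A : v3 ∈ A := hmem v3 (by simp)
    have hpw' := hpw
    rw [List.pairwise_cons, List.pairwise_cons] at hpw'
    obtain ⟨p1, p2, p3⟩ := hpw'
    have hu2 := p1 v2 (by simp)
    have hu3 := p1 v3 (by simp)
    have h23 := p2 v3 (by simp)
    by_cases hE : Fx H u ∧ ∀ c ∈ A, c ≠ v2 → c ≠ u → R H ξ c
    · obtain ⟨hfu, hE⟩ := hE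
      have hr3 : R H ξ v3 := hE v3 hv3A (Ne.symm (ne h23)) (Ne.symm (ne hu3))
      have hξ2 : ξ ≠ v2 := by
        intro e
        exact h23 (e ▸ hr3)
      have hf2 : Fx H v2 := by
        intro k hk
        by_contra hne
        have h4 : R H v2 (k v2) := ⟨k, hk, rfl⟩
        have h5 : k v2 ≠ u := by
          intro e
          exact hu2 (e ▸ h4).symm
        have h6 := hE (k v2) (hI k hk v2 hv2A) hne h5
        exact h23 (h4.trans (h6.symm.trans hr3))
      have hvmem : v ∈ v3 :: vs := List.mem_of_mem_getLast? (by rw [hlast]; rfl)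
      refine caseE hn hI1 hA hH hI hG hx hy hv2A (ne hu2) hfu hf2 ?_ hξ2 ?_ ?_
      · intro a ha b hb ha1 ha2 hb1 hb2
        exact (hE a ha ha2 ha1).symm.trans (hE b hb hb2 hb1)
      · exact Ne.symm (ne huv)
      · exact Ne.symm (ne (p2 v hvmem))
    by_cases hE2 : ∃ pre a b, v2 :: v3 :: vs = pre ++ [a, b] ∧
        (Fx H b ∧ ∀ c ∈ A, c ≠ a → c ≠ b → R H η c)
    · obtain ⟨pre, a, b, hpre, hfb, hE'⟩ := hE2
      have hb : b = v := by
        have h7 : (v2 :: v3 :: vs).getLast? = some v := by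
          rw [List.getLast?_cons, hlast]; rfl
        rw [hpre] at h7
        simpa using h7
      subst hb
      have haA : a ∈ A := hmem a (List.mem_cons_of_mem _ (by rw [hpre]; simp))
      have hua : ¬ R H u a := p1 a (by rw [hpre]; simp)
      have hab : ¬ R H a b := by
        have h8 : (v2 :: v3 :: vs).Pairwise (fun a b => ¬ R H a b) := hpw.tail
        rw [hpre, List.pairwise_append] at h8
        have := h8.2.1
        simpa using this
      have hru : R H η u := hE' u hu (ne hua) (ne huv)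
      have hηa : η ≠ a := by
        intro e
        exact hua (e ▸ hru).symm
      have hfa : Fx H a := by
        intro k hk
        by_contra hne
        have h4 : R H a (k a) := ⟨k, hk, rfl⟩
        have h5 : k a ≠ b := by
          intro e
          exact hab (e ▸ h4)
        have h6 := hE' (k a) (hI k hk a haA) hne h5
        exact hua ((h4.trans (h6.symm.trans hru)).symm)
      refine (caseE hn hI1 hA hH hI hG hy hx haA (Ne.symm (ne hab)) hfb hfa ?_ hηa ?_ ?_).reverse
      · intro c hc d hd hc1 hc2 hd1 hd2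
        exact (hE' c hc hc2 hc1).symm.trans (hE' d hd hd2 hd1)
      · exact ne huv
      · exact ne hua
    · have h1 := top3 (n := n + 1) (by omega) hG hA hH hI y η v hy vs u v2 v3 ξ hpw hmem hcov
        hlast hE (fun pre a b he h => hE2 ⟨pre, a, b, he, h⟩) x hx
      exact h1.congr (full _ hcov)

end Pool.Agent.H37.Pan
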