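import Pool.Agent.H37.Pan.G5b
import Pool.Agent.H37.Pan.Special

/-!
The base cases: four symbols with trivial group, five symbols with a cyclic group.
-/

namespace Pool.Agent.H37.Pan.D4
open Pool.Agent.H37.Pan Pool.Agent.H37.Pan.Cert

def strL : List (List (Fin 4)) := [
  [0, 1, 2, 3], [0, 1, 3, 2], [0, 2, 1, 3], [0, 2, 3, 1], [0, 3, 1, 2], [0, 3, 2, 1],
  [1, 0, 2, 3], [1, 0, 3, 2], [1, 2, 0, 3], [1, 2, 3, 0], [1, 3, 0, 2], [1, 3, 2, 0],
  [2, 0, 1, 3], [2, 0, 3, 1], [2, 1, 0, 3], [2, 1, 3, 0], [2, 3, 0, 1], [2, 3, 1, 0],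
  [3, 0, 1, 2], [3, 0, 2, 1], [3, 1, 0, 2], [3, 1, 2, 0], [3, 2, 0, 1], [3, 2, 1, 0]]

def nbL : List ℕ := [6, 14, 23, 7, 20, 17, 12, 8, 21, 13, 22, 11, 18, 10, 15, 19, 16, 9, 0, 12, 22, 1, 18, 16, 14, 2, 19, 15, 23, 5, 20, 4, 13, 21, 17, 3, 2, 6, 20, 3, 19, 10, 8, 0, 18, 9, 21, 4, 22, 5, 7, 23, 11, 1, 4, 7, 14, 5, 13, 8, 10, 1, 12, 11, 15, 2, 16, 3, 6, 17, 9, 0]

def codeL : List ℕ := [0,
  37631008218,
  74611341451,
  75323561437,
  70621821587,
  12932155855,
  82360930379,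
  81672066619,
  54773886112,
  37631798229,
  12932155794,
  66746936881,
  56255994104,
  37631008279,
  12931755333,
  81082182103,
  37631797354,
  13462888209,
  68800034156,
  82359858148,
  70621198278,
  76045031528,
  82188548548,
  58611498148]

/-- neighbours -/
def nb (i k : ℕ) : ℕ := nbL.getD (3 * i + k) 0

/-- the string with a given index -/
def str (i : ℕ) : List (Fin 4) := strL.getD i []

theorem surj : ∀ a b c d : Fin 4, [a, b, c, d].Nodup → [a, b, c, d] ∈ strL := by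
  decide +kernel

theorem strL_nodup : strL.Nodup := by decide +kernel

theorem str_nodup : ∀ i, i < 24 → (str i).Nodup ∧ (str i).length = 4 := by
  have : ∀ i : Fin 24, (str i.val).Nodup ∧ (str i.val).length = 4 := by decide +kernel
  intro i hi
  exact this ⟨i, hi⟩

theorem str_Str (i : ℕ) (hi : i < 24) : Str Finset.univ (str i) := by
  obtain ⟨h1, h2⟩ := str_nodup i hi
  refine ⟨h1, fun a => ⟨fun _ => Finset.mem_univ a, fun _ => ?_⟩⟩
  have h3 : (str i).toFinset = Finset.univ := by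
    apply Finset.eq_univ_of_card
    rw [List.toFinset_card_of_nodup h1, h2]; rfl
  rw [← List.mem_toFinset, h3]
  exact Finset.mem_univ a

theorem str_surj (s : List (Fin 4)) (hs : Str Finset.univ s) : ∃ i, i < 24 ∧ str i = s := by
  have hl : s.length = 4 := by rw [hs.length]; rfl
  match s, hl with
  | [a, b, c, d], _ =>
    have h1 := surj a b c d hs.1
    obtain ⟨i, hi, he⟩ := List.mem_iff_getElem.mp h1
    have hlen : strL.length = 24 := by decide
    refine ⟨i, by omega, ?_⟩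
    rw [← he]
    unfold str
    rw [List.getD_eq_getElem _ _ hi]

theorem str_inj (i j : ℕ) (hi : i < 24) (hj : j < 24) (h : str i = str j) : i = j := by
  have hlen : strL.length = 24 := by decide
  unfold str at h
  rw [List.getD_eq_getElem _ _ (by omega), List.getD_eq_getElem _ _ (by omega)] at h
  exact (List.Nodup.getElem_inj_iff strL_nodup).mp h

theorem nb_spec : ∀ i, i < 24 → ∀ k, k + 2 ≤ 4 →
    nb i k < 24 ∧ str (nb i k) = pr (k + 2) (str i) := by
  have : ∀ i : Fin 24, ∀ k : Fin 3, nb i.val k.val < 24 ∧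
      str (nb i.val k.val) = pr (k.val + 2) (str i.val) := by decide +kernel
  intro i hi k hk
  exact this ⟨i, hi⟩ ⟨k, by omega⟩

theorem codes_ok : ∀ y : Fin 24, y.val ≠ 0 →
    run nb (fun i => i) 3 1 (2 ^ 24 - 1) y.val 23 (codeL.getD y.val 0) 0 0 = true := by
  decide +kernel

theorem fin4 (y : List (Fin 4)) (hy : Str Finset.univ y) (hne : y ≠ [0, 1, 2, 3]) :
    HP (Subgroup.zpowers (1 : Equiv.Perm (Fin 4))) (Str Finset.univ) [0, 1, 2, 3] y := by
  obtain ⟨i, hi, rfl⟩ := str_surj y hy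
  have hs0 : str 0 = [0, 1, 2, 3] := by decide +kernel
  have hi0 : i ≠ 0 := by
    rintro rfl
    exact hne hs0
  have := run_HP 24 str nb (fun i => i) 1 1 (by norm_num) str_surj str_Str str_inj nb_spec
    (fun i hi => ⟨hi, by simp⟩) (by simp) (by norm_num) 0 i 23 _ (by norm_num)
    (codes_ok ⟨i, hi⟩ hi0)
  rw [hs0] at this
  exact this

end Pool.Agent.H37.Pan.D4

namespace Pool.Agent.H37.Pan
set_option linter.unusedSectionVars false

variable {α : Type} [DecidableEq α]

theorem transport {m : ℕ} (e : Fin m → α) (he : Function.Injective e) {A : Finset α}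
    (hA : ∀ a, a ∈ A ↔ ∃ i, e i = a) {H : Subgroup (Equiv.Perm α)}
    {K : Subgroup (Equiv.Perm (Fin m))}
    (h1 : ∀ k ∈ H, ∃ k' ∈ K, ∀ i, k (e i) = e (k' i))
    (h2 : ∀ k' ∈ K, ∃ k ∈ H, ∀ i, k (e i) = e (k' i)) {x y : List (Fin m)}
    (h : HP K (Str Finset.univ) x y) : HP H (Str A) (x.map e) (y.map e) := by
  obtain ⟨P, cP, hx, hy⟩ := h
  have hmapinj : ∀ p q : List (Fin m), p.map e = q.map e → p = q := fun p q h =>
    List.map_injective_iff.mpr he h
  refine ⟨P.map (List.map e), ⟨?_, ?_, ?_, ?_⟩, ?_, ?_⟩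
  · exact List.isChain_map_of_isChain (List.map e) (fun a b h => AdjL.map h _) cP.chain
  · intro p hp
    obtain ⟨q, hq, rfl⟩ := List.mem_map.mp hp
    have hq' := cP.mem q hq
    refine ⟨hq'.1.map he, fun a => ?_⟩
    rw [List.mem_map, hA a]
    constructor
    · rintro ⟨i, _, hi⟩; exact ⟨i, hi⟩
    · rintro ⟨i, hi⟩; exact ⟨i, (hq'.2 i).mpr (Finset.mem_univ i), hi⟩
  · intro s hs
    -- preimage of s
    have hex : ∃ s' : List (Fin m), s'.map e = s := by
      have : ∀ l : List α, (∀ a ∈ l, a ∈ A) → ∃ s' : List (Fin m), s'.map e = l := by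
        intro l
        induction l with
        | nil => intro _; exact ⟨[], rfl⟩
        | cons a l ih =>
          intro hl
          obtain ⟨s', hs'⟩ := ih (fun b hb => hl b (List.mem_cons_of_mem _ hb))
          obtain ⟨i, hi⟩ := (hA a).mp (hl a (by simp))
          exact ⟨i :: s', by simp [hi, hs']⟩
      exact this s (fun a ha => (hs.2 a).mp ha)
    obtain ⟨s', rfl⟩ := hex
    have hs' : Str Finset.univ s' := by
      refine ⟨List.Nodup.of_map e hs.1, fun i => ⟨fun _ => Finset.mem_univ i, fun _ => ?_⟩⟩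
      have h3 : e i ∈ s'.map e := (hs.2 _).mpr ((hA _).mpr ⟨i, rfl⟩)
      obtain ⟨j, hj, hj'⟩ := List.mem_map.mp h3
      rw [← he hj']; exact hj
    obtain ⟨p, hp, k', hk', hpe⟩ := cP.cov s' hs'
    obtain ⟨k, hk, hke⟩ := h2 k' hk'
    refine ⟨p.map e, List.mem_map.mpr ⟨p, hp, rfl⟩, k, hk, ?_⟩
    rw [hpe, List.map_map, List.map_map]
    apply List.map_congr_left
    intro i _
    simp [hke i]
  · rw [List.pairwise_map]
    refine cP.inj.imp ?_
    rintro p q hpq ⟨k, hk, hke⟩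
    apply hpq
    obtain ⟨k', hk', hke'⟩ := h1 k hk
    refine ⟨k', hk', ?_⟩
    apply hmapinj
    rw [hke, List.map_map, List.map_map]
    apply List.map_congr_left
    intro i _
    simp [hke' i]
  · rw [List.head?_map, hx]; rfl
  · rw [List.getLast?_map, hy]; rfl

/-- the standard enumeration of the symbols of a string -/
theorem enum_spec {A : Finset α} {m : ℕ} (hA : A.card = m) {x : List α} (hx : Str A x) :
    ∃ e : Fin m → α, Function.Injective e ∧ (∀ a, a ∈ A ↔ ∃ i, e i = a) ∧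
      x = List.ofFn e := by
  have hl : x.length = m := by rw [hx.length, hA]
  subst hl
  refine ⟨fun i => x[i], ?_, ?_, ?_⟩
  · intro i j h
    exact Fin.ext ((List.Nodup.getElem_inj_iff hx.1).mp h)
  · intro a
    rw [← hx.2 a, List.mem_iff_getElem]
    constructor
    · rintro ⟨i, hi, h⟩; exact ⟨⟨i, hi⟩, h⟩
    · rintro ⟨i, h⟩; exact ⟨i.val, i.isLt, h⟩
  · exact List.ofFn_getElem.symm

theorem pull {A : Finset α} {m : ℕ} {e : Fin m → α} (he : Function.Injective e)
    (hA : ∀ a, a ∈ A ↔ ∃ i, e i = a) {y : List α} (hy : Str A y) :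
    ∃ y' : List (Fin m), Str Finset.univ y' ∧ y'.map e = y := by
  have : ∀ l : List α, (∀ a ∈ l, a ∈ A) → ∃ s' : List (Fin m), s'.map e = l := by
    intro l
    induction l with
    | nil => intro _; exact ⟨[], rfl⟩
    | cons a l ih =>
      intro hl
      obtain ⟨s', hs'⟩ := ih (fun b hb => hl b (List.mem_cons_of_mem _ hb))
      obtain ⟨i, hi⟩ := (hA a).mp (hl a (by simp))
      exact ⟨i :: s', by simp [hi, hs']⟩
  obtain ⟨s', rfl⟩ := this y (fun a ha => (hy.2 a).mp ha)
  refine ⟨s', ⟨List.Nodup.of_map e hy.1, fun i => ⟨fun _ => Finset.mem_univ i, fun _ => ?_⟩⟩, rfl⟩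
  have h3 : e i ∈ s'.map e := (hy.2 _).mpr ((hA _).mpr ⟨i, rfl⟩)
  obtain ⟨j, hj, hj'⟩ := List.mem_map.mp h3
  rw [← he hj']; exact hj

theorem idP_four : IdP α 4 := by
  intro A hA K hK x y hx hy hne
  obtain ⟨e, he, hAe, hxe⟩ := enum_spec hA hx
  obtain ⟨y', hy', rfl⟩ := pull he hAe hy
  have hxe' : x = ([0, 1, 2, 3] : List (Fin 4)).map e := by
    rw [hxe, List.ofFn_eq_map]; rfl
  have hne' : y' ≠ [0, 1, 2, 3] := by
    rintro rfl
    exact hne hxe'
  have h1 := D4.fin4 y' hy' hne'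
  rw [hxe']
  refine transport e he hAe ?_ ?_ h1
  · intro k hk
    refine ⟨1, Subgroup.one_mem _, fun i => ?_⟩
    exact hK k hk _ ((hAe _).mpr ⟨i, rfl⟩)
  · intro k' hk'
    obtain ⟨z, rfl⟩ := Subgroup.mem_zpowers_iff.mp hk'
    exact ⟨1, K.one_mem, fun i => by simp⟩

theorem gP_five : GP α 5 := by
  intro A hA H hH hI x y u v hx hy huv
  obtain ⟨g, rfl⟩ := hH
  obtain ⟨e, he, hAe, hxe⟩ := enum_spec hA hx
  obtain ⟨y', hy', hye⟩ := pull he hAe hy
  have hxe' : x ++ [u] = ([0, 1, 2, 3, 4] : List (Fin 5)).map e := by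
    rw [hxe, List.ofFn_eq_map]; rfl
  -- the induced permutation
  have hf : ∀ i : Fin 5, ∃ j : Fin 5, e j = g (e i) := by
    intro i
    have := hI g (Subgroup.mem_zpowers g) (e i) ((hAe _).mpr ⟨i, rfl⟩)
    exact (hAe _).mp this
  choose f hf using hf
  have hfi : Function.Injective f := by
    intro i j hij
    apply he
    apply g.injective
    rw [← hf i, ← hf j, hij]
  let g' : Equiv.Perm (Fin 5) := Equiv.ofBijective f (Finite.injective_iff_bijective.mp hfi)
  have hg' : ∀ i, g (e i) = e (g' i) := fun i => (hf i).symm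
  have hpow : ∀ (t : ℕ) i, (g ^ t) (e i) = e ((g' ^ t) i) := by
    intro t
    induction t with
    | zero => intro i; simp
    | succ t ih =>
      intro i
      rw [pow_succ', pow_succ', Equiv.Perm.mul_apply, ih, hg', Equiv.Perm.mul_apply]
  have hzpow : ∀ (z : ℤ) i, (g ^ z) (e i) = e ((g' ^ z) i) := by
    intro z i
    obtain ⟨t, rfl | rfl⟩ := z.eq_nat_or_neg
    · rw [zpow_natCast, zpow_natCast]; exact hpow t i
    · rw [zpow_neg, zpow_neg, zpow_natCast, zpow_natCast, Equiv.Perm.inv_eq_iff_eq, hpow]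
      simp
  -- split the target
  have hyl : y'.length = 5 := by rw [hy'.length]; rfl
  obtain ⟨y'', w, rfl⟩ : ∃ x' ξ, y' = x' ++ [ξ] := by
    refine ⟨y'.dropLast, y'.getLast (by intro e; subst e; simp at hyl), ?_⟩
    rw [List.dropLast_append_getLast]
  rw [List.map_append] at hye
  have hvw := (List.append_inj' hye (by simp)).2
  simp only [List.map_cons, List.map_nil, List.cons.injEq, and_true] at hvw
  have huw : u = e 4 := by
    have h3 : x ++ [u] = ([0, 1, 2, 3] : List (Fin 5)).map e ++ [e 4] := by rw [hxe']; rfl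
    have := (List.append_inj' h3 (by simp)).2
    simpa using this
  have hR : ¬ R (Subgroup.zpowers g') 4 w := by
    rintro ⟨k, hk, hkw⟩
    obtain ⟨z, rfl⟩ := Subgroup.mem_zpowers_iff.mp hk
    apply huv
    refine ⟨g ^ z, Subgroup.mem_zpowers_iff.mpr ⟨z, rfl⟩, ?_⟩
    rw [huw, hzpow, hkw, hvw]
  have h1 := D5.fin5 g' y'' w hy' hR
  have h2 : HP (Subgroup.zpowers g) (Str A) (([0, 1, 2, 3, 4] : List (Fin 5)).map e)
      ((y'' ++ [w]).map e) := by
    refine transport e he hAe ?_ ?_ h1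
    · intro k hk
      obtain ⟨z, rfl⟩ := Subgroup.mem_zpowers_iff.mp hk
      exact ⟨g' ^ z, Subgroup.mem_zpowers_iff.mpr ⟨z, rfl⟩, hzpow z⟩
    · intro k hk
      obtain ⟨z, rfl⟩ := Subgroup.mem_zpowers_iff.mp hk
      exact ⟨g ^ z, Subgroup.mem_zpowers_iff.mpr ⟨z, rfl⟩, hzpow z⟩
  rw [← hxe', List.map_append, hye] at h2
  exact h2

theorem idP_all : ∀ n, 4 ≤ n → IdP α n := by
  intro n hn
  induction n, hn using Nat.le_induction with
  | base => exact idP_four
  | succ n hn ih => exact id_step hn ih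

theorem gP_all : ∀ n, 5 ≤ n → GP α n := by
  intro n hn
  induction n, hn using Nat.le_induction with
  | base => exact gP_five
  | succ n hn ih =>
    obtain ⟨k, rfl⟩ : ∃ k, n = k + 1 := ⟨n - 1, by omega⟩
    exact step (by omega) (idP_all k (by omega)) ih

end Pool.Agent.H37.Pan
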