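import Pool.Agent.H37.Pan.Step

/-!
Checking certificates for the base cases.
-/

namespace Pool.Agent.H37.Pan.Cert
set_option linter.unusedSectionVars false

open Pool.Agent.H37.Pan

/-- set the bits of the orbit of `cur` -/
def addOrb (lm : ℕ → ℕ) : ℕ → ℕ → ℕ → ℕ
  | 0, _, mask => mask
  | j + 1, cur, mask => addOrb lm j (lm cur) (Nat.lor mask (Nat.shiftLeft 1 cur))

/-- follow a path given by its code and check it -/
def run (nb : ℕ → ℕ → ℕ) (lm : ℕ → ℕ) (B ord full b : ℕ) : ℕ → ℕ → ℕ → ℕ → Bool
  | 0, _, cur, mask =>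
    and (not (Nat.testBit mask cur)) (and (Nat.beq cur b) (Nat.beq (addOrb lm ord cur mask) full))
  | len + 1, code, cur, mask =>
    and (not (Nat.testBit mask cur))
      (run nb lm B ord full b len (Nat.div code B) (nb cur (Nat.mod code B))
        (addOrb lm ord cur mask))

theorem testBit_lor (m n i : ℕ) : Nat.testBit (Nat.lor m n) i = (m.testBit i || n.testBit i) :=
  Nat.testBit_or m n i

theorem testBit_shl (c i : ℕ) : Nat.testBit (Nat.shiftLeft 1 c) i = decide (c = i) := by
  have h : Nat.shiftLeft 1 c = 2 ^ c := by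
    have := Nat.one_shiftLeft c
    simpa using this
  rw [h, Nat.testBit_two_pow]

theorem addOrb_testBit (lm : ℕ → ℕ) : ∀ j cur mask i,
    Nat.testBit (addOrb lm j cur mask) i = true ↔
      Nat.testBit mask i = true ∨ ∃ t, t < j ∧ i = lm^[t] cur := by
  intro j
  induction j with
  | zero => intro cur mask i; simp [addOrb]
  | succ j ih =>
    intro cur mask i
    rw [addOrb, ih, testBit_lor, testBit_shl]
    simp only [Bool.or_eq_true, decide_eq_true_eq]
    constructor
    · rintro ((h | h) | ⟨t, ht, h⟩)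
      · exact Or.inl h
      · exact Or.inr ⟨0, by omega, by simp [h]⟩
      · exact Or.inr ⟨t + 1, by omega, by rw [h, Function.iterate_succ_apply]⟩
    · rintro (h | ⟨t, ht, h⟩)
      · exact Or.inl (Or.inl h)
      · cases t with
        | zero => exact Or.inl (Or.inr (by simpa using h.symm))
        | succ t => exact Or.inr ⟨t, by omega, by rw [h, Function.iterate_succ_apply]⟩

variable {m : ℕ} (N : ℕ) (str : ℕ → List (Fin m)) (nb : ℕ → ℕ → ℕ) (lm : ℕ → ℕ)
  (g : Equiv.Perm (Fin m)) (ord : ℕ)

theorem run_sound (hm : 2 ≤ m)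
    (hstr : ∀ s, Str Finset.univ s → ∃ i, i < N ∧ str i = s)
    (hstr' : ∀ i, i < N → Str Finset.univ (str i))
    (hinj : ∀ i j, i < N → j < N → str i = str j → i = j)
    (hnb : ∀ i, i < N → ∀ k, k + 2 ≤ m → nb i k < N ∧ str (nb i k) = pr (k + 2) (str i))
    (hlm : ∀ i, i < N → lm i < N ∧ str (lm i) = (str i).map g)
    (hord : g ^ ord = 1) (hord0 : 0 < ord) (b : ℕ) :
    ∀ len code cur mask, cur < N →
      run nb lm (m - 1) ord (2 ^ N - 1) b len code cur mask = true →
      ∃ P : List (List (Fin m)), P.IsChain AdjL ∧ P.head? = some (str cur) ∧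
        P.getLast? = some (str b) ∧ (∀ p ∈ P, Str Finset.univ p) ∧
        P.Pairwise (fun p q => ¬ Eqv (Subgroup.zpowers g) p q) ∧
        (∀ i, i < N → Nat.testBit mask i = true ∨
          ∃ p ∈ P, Eqv (Subgroup.zpowers g) (str i) p) ∧
        (∀ i, i < N → Nat.testBit mask i = true → ∀ p ∈ P, str i ≠ p) := by
  -- iterates of lm
  have hit : ∀ t i, i < N → lm^[t] i < N ∧ str (lm^[t] i) = (str i).map (g ^ t : Equiv.Perm (Fin m)) := by
    intro t
    induction t with
    | zero => intro i hi; simp [hi]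
    | succ t ih =>
      intro i hi
      rw [Function.iterate_succ_apply']
      obtain ⟨h1, h2⟩ := ih i hi
      obtain ⟨h3, h4⟩ := hlm _ h1
      refine ⟨h3, ?_⟩
      rw [h4, h2, List.map_map, pow_succ']
      rfl
  -- equivalence through small powers
  have heq : ∀ i q, i < N → q < N → Eqv (Subgroup.zpowers g) (str i) (str q) →
      ∃ t, t < ord ∧ q = lm^[t] i := by
    rintro i q hi hq ⟨k, hk, he⟩
    obtain ⟨z, rfl⟩ := Subgroup.mem_zpowers_iff.mp hk
    have h1 : g ^ z = g ^ ((z % (ord : ℤ)).toNat) := by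
      have h2 : g ^ (ord : ℤ) = 1 := by rw [zpow_natCast]; exact hord
      have h3 : 0 ≤ z % (ord : ℤ) := Int.emod_nonneg _ (by omega)
      rw [← zpow_natCast, Int.toNat_of_nonneg h3]
      conv_lhs => rw [← Int.emod_add_mul_ediv z (ord : ℤ)]
      rw [zpow_add, zpow_mul, h2, one_zpow, mul_one]
    have h4 : z % (ord : ℤ) < ord := Int.emod_lt_of_pos _ (by omega)
    refine ⟨(z % (ord : ℤ)).toNat, by omega, ?_⟩
    apply hinj _ _ hq (hit _ i hi).1
    rw [(hit _ i hi).2, he, h1]
  intro len
  induction len with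
  | zero =>
    intro code cur mask hcur h
    simp only [run, Bool.and_eq_true, Bool.not_eq_true'] at h
    obtain ⟨h1, h2, h3⟩ := h
    have h2 := Nat.eq_of_beq_eq_true h2
    have h3 := Nat.eq_of_beq_eq_true h3
    subst h2
    refine ⟨[str cur], by simp, by simp, by simp, ?_, by simp, ?_, ?_⟩
    · intro p hp
      simp only [List.mem_singleton] at hp
      rw [hp]; exact hstr' cur hcur
    · intro i hi
      have h4 : Nat.testBit (addOrb lm ord cur mask) i = true := by
        rw [h3, Nat.testBit_two_pow_sub_one]; simpa using hi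
      rw [addOrb_testBit] at h4
      rcases h4 with h4 | ⟨t, ht, rfl⟩
      · exact Or.inl h4
      · right
        refine ⟨str cur, by simp, Eqv.symm ⟨g ^ t, ?_, (hit t cur hcur).2⟩⟩
        exact Subgroup.mem_zpowers_iff.mpr ⟨t, by simp⟩
    · intro i hi hb p hp e
      simp only [List.mem_singleton] at hp
      subst hp
      have := hinj i cur hi hcur e
      subst this
      rw [hb] at h1
      exact absurd h1 (by simp)
  | succ len ih =>
    intro code cur mask hcur h
    simp only [run, Bool.and_eq_true, Bool.not_eq_true'] at h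
    obtain ⟨h1, h2⟩ := h
    have hk : Nat.mod code (m - 1) + 2 ≤ m := by
      have : code % (m - 1) < m - 1 := Nat.mod_lt _ (by omega)
      have h5 : Nat.mod code (m - 1) = code % (m - 1) := rfl
      omega
    obtain ⟨hn1, hn2⟩ := hnb cur hcur _ hk
    obtain ⟨P, c1, c2, c3, c4, c5, c6, c7⟩ := ih _ _ _ hn1 h2
    refine ⟨str cur :: P, ?_, by simp, ?_, ?_, ?_, ?_, ?_⟩
    · refine c1.cons ?_
      intro y hy
      rw [c2] at hy
      simp only [Option.mem_def, Option.some.injEq] at hy
      subst hy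
      refine ⟨_, by omega, ?_, hn2⟩
      rw [(hstr' cur hcur).length]
      simpa using hk
    · rw [List.getLast?_cons, c3]; rfl
    · intro p hp
      rcases List.mem_cons.mp hp with rfl | hp
      · exact hstr' cur hcur
      · exact c4 p hp
    · rw [List.pairwise_cons]
      refine ⟨?_, c5⟩
      intro q hq e
      obtain ⟨j, hj, hjq⟩ := hstr q (c4 q hq)
      subst hjq
      obtain ⟨t, ht, he⟩ := heq cur j hcur hj e
      have h6 : Nat.testBit (addOrb lm ord cur mask) j = true := by
        rw [addOrb_testBit]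
        exact Or.inr ⟨t, ht, he⟩
      exact c7 j hj h6 (str j) hq rfl
    · intro i hi
      rcases c6 i hi with h6 | ⟨p, hp, he⟩
      · rw [addOrb_testBit] at h6
        rcases h6 with h6 | ⟨t, ht, rfl⟩
        · exact Or.inl h6
        · right
          refine ⟨str cur, by simp, Eqv.symm ⟨g ^ t, ?_, (hit t cur hcur).2⟩⟩
          exact Subgroup.mem_zpowers_iff.mpr ⟨t, by simp⟩
      · exact Or.inr ⟨p, List.mem_cons_of_mem _ hp, he⟩
    · intro i hi hb p hp e
      rcases List.mem_cons.mp hp with rfl | hp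
      · have := hinj i cur hi hcur e
        subst this
        rw [hb] at h1
        exact absurd h1 (by simp)
      · refine c7 i hi ?_ p hp e
        rw [addOrb_testBit]
        exact Or.inl hb

theorem run_HP (hm : 2 ≤ m)
    (hstr : ∀ s, Str Finset.univ s → ∃ i, i < N ∧ str i = s)
    (hstr' : ∀ i, i < N → Str Finset.univ (str i))
    (hinj : ∀ i j, i < N → j < N → str i = str j → i = j)
    (hnb : ∀ i, i < N → ∀ k, k + 2 ≤ m → nb i k < N ∧ str (nb i k) = pr (k + 2) (str i))
    (hlm : ∀ i, i < N → lm i < N ∧ str (lm i) = (str i).map g)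
    (hord : g ^ ord = 1) (hord0 : 0 < ord) (a b len code : ℕ) (ha : a < N)
    (h : run nb lm (m - 1) ord (2 ^ N - 1) b len code a 0 = true) :
    HP (Subgroup.zpowers g) (Str Finset.univ) (str a) (str b) := by
  obtain ⟨P, c1, c2, c3, c4, c5, c6, c7⟩ := run_sound N str nb lm g ord hm hstr hstr' hinj hnb
    hlm hord hord0 b len code a 0 ha h
  refine ⟨P, ⟨c1, c4, ?_, c5⟩, c2, c3⟩
  intro s hs
  obtain ⟨i, hi, rfl⟩ := hstr s hs
  rcases c6 i hi with h6 | h6
  · simp at h6
  · exact h6

end Pool.Agent.H37.Pan.Cert
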