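import Pool.Agent.H37.Pan.Str

/-!
Chains of pieces; the case of a group acting trivially.
-/

namespace Pool.Agent.H37.Pan
set_option linter.unusedSectionVars false

variable {α : Type} [DecidableEq α]

/-- choose an element outside a small set -/
theorem pick {A : Finset α} (S : Finset α) (h : S.card < A.card) : ∃ a ∈ A, a ∉ S :=
  Finset.exists_mem_notMem_of_card_lt_card h

theorem exists_mk4 {A : Finset α} {a b c d : α} (ha : a ∈ A) (hb : b ∈ A) (hc : c ∈ A)
    (hd : d ∈ A) (hab : a ≠ b) (hac : a ≠ c) (had : a ≠ d) (hbc : b ≠ c) (hbd : b ≠ d)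
    (hcd : c ≠ d) : ∃ m, Str A (a :: b :: (m ++ [c, d])) := by
  refine ⟨((((A.erase a).erase b).erase c).erase d).toList, ?_, ?_⟩
  · simp only [List.nodup_cons, List.mem_cons, List.mem_append, Finset.mem_toList,
      Finset.mem_erase, List.nodup_append, List.not_mem_nil, or_false]
    refine ⟨?_, ?_, Finset.nodup_toList _, ?_, ?_⟩
    · rintro (h | h | h | h)
      · exact hab h
      · exact h.2.2.2.1 rfl
      · exact hac h
      · exact had h
    · rintro (h | h | h)
      · exact h.2.2.1 rfl
      · exact hbc h
      · exact hbd h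
    · exact ⟨hcd, by simp⟩
    · rintro x hx y (rfl | rfl) e
      · subst e; exact hx.2.1 rfl
      · subst e; exact hx.1 rfl
  · intro x
    simp only [List.mem_cons, List.mem_append, Finset.mem_toList, Finset.mem_erase,
      List.not_mem_nil, or_false]
    constructor
    · rintro (h | h | h | h | h)
      · rw [h]; exact ha
      · rw [h]; exact hb
      · exact h.2.2.2.2
      · rw [h]; exact hc
      · rw [h]; exact hd
    · intro hx
      by_cases h1 : x = a
      · exact Or.inl h1
      by_cases h2 : x = b
      · exact Or.inr (Or.inl h2)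
      by_cases h3 : x = c
      · exact Or.inr (Or.inr (Or.inr (Or.inl h3)))
      by_cases h4 : x = d
      · exact Or.inr (Or.inr (Or.inr (Or.inr h4)))
      exact Or.inr (Or.inr (Or.inl ⟨h4, h3, h2, h1, hx⟩))

theorem PU_cons {H : Subgroup (Equiv.Perm α)} {A : Finset α} {v : α} {vs : List α}
    (s : List α) : PU H A (v :: vs) s ↔ PU H A [v] s ∨ PU H A vs s := by
  unfold PU
  constructor
  · rintro ⟨h1, z, hz, h2⟩
    rcases List.mem_cons.mp hz with rfl | hz
    · exact Or.inl ⟨h1, z, by simp, h2⟩
    · exact Or.inr ⟨h1, z, hz, h2⟩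
  · rintro (⟨h1, z, hz, h2⟩ | ⟨h1, z, hz, h2⟩)
    · rw [List.mem_singleton] at hz
      subst hz
      exact ⟨h1, z, by simp, h2⟩
    · exact ⟨h1, z, List.mem_cons_of_mem _ hz, h2⟩

/-- the group acts trivially on the alphabet -/
def Triv (K : Subgroup (Equiv.Perm α)) (A : Finset α) : Prop := ∀ h ∈ K, ∀ a ∈ A, h a = a

theorem Triv.inv {K : Subgroup (Equiv.Perm α)} {A : Finset α} (h : Triv K A) : Inv K A := by
  intro k hk a ha
  rw [h k hk a ha]; exact ha

theorem Triv.eqv {K : Subgroup (Equiv.Perm α)} {A : Finset α} (h : Triv K A) {s t : List α}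
    (hs : Str A s) (e : Eqv K s t) : t = s := by
  obtain ⟨k, hk, rfl⟩ := e
  conv_rhs => rw [← List.map_id s]
  apply List.map_congr_left
  intro a ha
  exact h k hk a ((hs.2 a).mp ha)

theorem Triv.rel {K : Subgroup (Equiv.Perm α)} {A : Finset α} (h : Triv K A) {a b : α}
    (ha : a ∈ A) (e : R K a b) : b = a := by
  obtain ⟨k, hk, rfl⟩ := e
  exact h k hk a ha

theorem Triv.sub {K L : Subgroup (Equiv.Perm α)} {A B : Finset α} (h : Triv K A) (hLK : L ≤ K)
    (hBA : B ⊆ A) : Triv L B := fun k hk a ha => h k (hLK hk) a (hBA ha)

def IdP (α : Type) [DecidableEq α] (n : ℕ) : Prop :=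
  ∀ A : Finset α, A.card = n → ∀ K : Subgroup (Equiv.Perm α), Triv K A →
    ∀ x y, Str A x → Str A y → x ≠ y → HP K (Str A) x y

/-- one piece, group acting trivially -/
theorem id_piece {n : ℕ} (hI : IdP α n) {A : Finset α} (hA : A.card = n + 1)
    {K : Subgroup (Equiv.Perm α)} (hK : Triv K A) {x y : List α} {z : α}
    (hx : Str A (x ++ [z])) (hy : Str A (y ++ [z])) (hne : x ≠ y) :
    HP K (PU K A [z]) (x ++ [z]) (y ++ [z]) := by
  have hz : z ∈ A := hx.mem_last
  have h1 := hI (A.erase z) (by rw [Finset.card_erase_of_mem hz]; omega) (stab K z)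
    (hK.sub (stab_le K z) (Finset.erase_subset _ _)) x y hx.dropLast hy.dropLast hne
  exact (HP.lift h1).congr (fun s => liftP_str hK.inv hz s)

theorem id_chain {n : ℕ} (hn : 4 ≤ n) (hI : IdP α n) {A : Finset α} (hA : A.card = n + 1)
    {K : Subgroup (Equiv.Perm α)} (hK : Triv K A) :
    ∀ (zs : List α) (z : α), (z :: zs).Nodup → (∀ a ∈ z :: zs, a ∈ A) →
      ∀ (x y : List α) (w : α), (z :: zs).getLast? = some w → Str A (x ++ [z]) →
        Str A (y ++ [w]) → x ++ [z] ≠ y ++ [w] →
          HP K (PU K A (z :: zs)) (x ++ [z]) (y ++ [w]) := by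
  intro zs
  induction zs with
  | nil =>
    intro z _ _ x y w hw hx hy hne
    simp only [List.getLast?_singleton, Option.some.injEq] at hw
    subst hw
    exact id_piece hI hA hK hx hy (fun e => hne (by rw [e]))
  | cons z2 zs ih =>
    intro z hnd hmem x y w hw hx hy hne
    have hz : z ∈ A := hmem z (by simp)
    have hz2 : z2 ∈ A := hmem z2 (by simp)
    have hzz2 : z ≠ z2 := by
      intro e; subst e; simp at hnd
    -- second-last symbols
    have hxl : x.length = n := by have := hx.length; simp at this; omega
    have hyl : y.length = n := by have := hy.length; simp at this; omega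
    obtain ⟨x', ξ, rfl⟩ : ∃ x' ξ, x = x' ++ [ξ] := by
      refine ⟨x.dropLast, x.getLast (by intro e; subst e; simp at hxl; omega), ?_⟩
      rw [List.dropLast_append_getLast]
    obtain ⟨y', η, rfl⟩ : ∃ y' η, y = y' ++ [η] := by
      refine ⟨y.dropLast, y.getLast (by intro e; subst e; simp at hyl; omega), ?_⟩
      rw [List.dropLast_append_getLast]
    obtain ⟨β, hβA, hβ⟩ := pick (A := A) {z, z2, ξ} (lt_of_le_of_lt Finset.card_le_three (by omega))
    obtain ⟨a, haA, ha⟩ := pick (A := A) {z, z2, β, η}
      (lt_of_le_of_lt Finset.card_le_four (by omega))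
    simp only [Finset.mem_insert, Finset.mem_singleton, not_or] at hβ ha
    obtain ⟨m, hm⟩ := exists_mk4 hz2 haA hβA hz (Ne.symm ha.2.1) (Ne.symm hβ.2.1) (Ne.symm hzz2)
      ha.2.2.1 ha.1 hβ.1
    have hm1 : Str A ((z2 :: a :: (m ++ [β])) ++ [z]) := by simpa using hm
    have hm2 : Str A ((z :: β :: (m.reverse ++ [a])) ++ [z2]) := by
      have := hm.reverse
      simpa using this
    have h1 : HP K (PU K A [z]) ((x' ++ [ξ]) ++ [z]) ((z2 :: a :: (m ++ [β])) ++ [z]) := by
      refine id_piece hI hA hK hx hm1 ?_
      intro e
      have e' : x' ++ [ξ] = (z2 :: a :: m) ++ [β] := by simpa using e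
      have := (List.append_inj' e' (by simp)).2
      simp only [List.cons.injEq, and_true] at this
      exact hβ.2.2 this.symm
    have h2 : HP K (PU K A (z2 :: zs)) ((z :: β :: (m.reverse ++ [a])) ++ [z2])
        ((y' ++ [η]) ++ [w]) := by
      refine ih z2 (List.nodup_cons.mp hnd).2 (fun b hb => hmem b (List.mem_cons_of_mem _ hb))
        _ _ w (by simpa using hw) hm2 hy ?_
      intro e
      have e' : (z :: β :: m.reverse) ++ [a, z2] = y' ++ [η, w] := by simpa using e
      have := (List.append_inj' e' (by simp)).2
      simp only [List.cons.injEq, and_true] at this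
      exact ha.2.2.2 this.1
    have h3 : AdjL ((z2 :: a :: (m ++ [β])) ++ [z]) ((z :: β :: (m.reverse ++ [a])) ++ [z2]) := by
      have h4 : (z :: β :: (m.reverse ++ [a])) ++ [z2] =
          ((z2 :: a :: (m ++ [β])) ++ [z]).reverse := by simp
      rw [h4]
      exact adjL_reverse (by simp)
    refine (h1.glue h2 h3 (PU.sep ?_)).congr (fun s => (PU_cons s).symm)
    intro v hv v' hv' hr
    simp only [List.mem_singleton] at hv
    subst hv
    have := hK.rel hz hr
    subst this
    exact (List.nodup_cons.mp hnd).1 hv'

/-- induction step for a trivially acting group -/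
theorem id_step {n : ℕ} (hn : 4 ≤ n) (hI : IdP α n) : IdP α (n + 1) := by
  intro A hA K hK x y hx hy hne
  have hxl : x.length = n + 1 := by rw [hx.length, hA]
  have hyl : y.length = n + 1 := by rw [hy.length, hA]
  obtain ⟨x', u, rfl⟩ : ∃ x' ξ, x = x' ++ [ξ] := by
    refine ⟨x.dropLast, x.getLast (by intro e; subst e; simp at hxl), ?_⟩
    rw [List.dropLast_append_getLast]
  obtain ⟨y', v, rfl⟩ : ∃ y' η, y = y' ++ [η] := by
    refine ⟨y.dropLast, y.getLast (by intro e; subst e; simp at hyl), ?_⟩
    rw [List.dropLast_append_getLast]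
  have hu : u ∈ A := hx.mem_last
  have hv : v ∈ A := hy.mem_last
  by_cases huv : u = v
  · subst huv
    have hne' : x' ≠ y' := fun e => hne (by rw [e])
    obtain ⟨P, cP, hPx, hPy⟩ := id_piece hI hA hK hx hy hne'
    -- P = x :: f :: rest
    obtain ⟨P', rfl⟩ : ∃ P', P = (x' ++ [u]) :: P' := by
      cases P with
      | nil => simp at hPx
      | cons p P' =>
        simp only [List.head?_cons, Option.some.injEq] at hPx
        exact ⟨P', by rw [hPx]⟩
    obtain ⟨f, P'', rfl⟩ : ∃ f P'', P' = f :: P'' := by
      cases P' with
      | nil =>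
        simp only [List.getLast?_singleton, Option.some.injEq] at hPy
        exact absurd hPy hne
      | cons f P'' => exact ⟨f, P'', rfl⟩
    have hadj : AdjL (x' ++ [u]) f := (List.isChain_cons_cons.mp cP.chain).1
    have hfO : PU K A [u] f := cP.mem f (by simp)
    have hxO : PU K A [u] (x' ++ [u]) := cP.mem _ (by simp)
    -- f ends in u
    obtain ⟨f', rfl⟩ : ∃ f', f = f' ++ [u] := by
      obtain ⟨_, z, hz, t, w, rfl, hr⟩ := hfO
      simp only [List.mem_singleton] at hz
      subst hz
      have := hK.rel hu hr
      subst this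
      exact ⟨t, rfl⟩
    -- first symbols
    have hfl : f'.length = n := by
      have := hfO.1.length; simp at this; omega
    have hx'l : x'.length = n := by
      have := hx.length; simp at this; omega
    obtain ⟨p, x1, rfl⟩ : ∃ p x1, x' = p :: x1 := by
      cases x' with
      | nil => simp at hx'l; omega
      | cons a l => exact ⟨a, l, rfl⟩
    obtain ⟨q, f1, rfl⟩ : ∃ q f1, f' = q :: f1 := by
      cases f' with
      | nil => simp at hfl; omega
      | cons a l => exact ⟨a, l, rfl⟩
    have hpq : p ≠ q := by
      obtain ⟨k, h2, hk, he⟩ := hadj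
      intro e
      subst e
      -- the head of pr k l is the (k-1)-th entry of l
      have hnd := hx.1
      have h5 : (pr k ((p :: x1) ++ [u])).head? = ((p :: x1) ++ [u])[k-1]? := by
        unfold pr
        rw [List.head?_append, List.head?_reverse, List.getLast?_take]
        have hk0 : k ≠ 0 := by omega
        simp only [hk0, if_false]
        have hlt : k - 1 < ((p :: x1) ++ [u]).length := by omega
        rw [List.getElem?_eq_getElem hlt]
        rfl
      rw [← he] at h5
      have hlt : k - 1 < ((p :: x1) ++ [u]).length := by omega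
      rw [List.getElem?_eq_getElem hlt] at h5
      have h6 : ((p :: x1) ++ [u])[k-1] = ((p :: x1) ++ [u])[0]'(by simp) := by
        simpa using h5.symm
      have := (List.Nodup.getElem_inj_iff hnd).mp h6
      omega
    -- the excursion
    have hpA : p ∈ A := (hx.2 p).mp (by simp)
    have hqA : q ∈ A := (hfO.1.2 q).mp (by simp)
    have hpu : p ≠ u := by
      intro e; subst e
      have := hx.1
      simp at this
    have hqu : q ≠ u := by
      intro e; subst e
      have := hfO.1.1
      simp at this
    set M := (((A.erase u).erase p).erase q).toList with hM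
    have hzs : (p :: (M ++ [q])).Nodup := by
      rw [List.nodup_cons, List.nodup_append]
      refine ⟨?_, Finset.nodup_toList _, by simp, ?_⟩
      · simp [hM, hpq]
      · intro a ha b hb e
        simp only [List.mem_singleton] at hb
        subst hb; subst e
        simp [hM] at ha
    have hzA : ∀ a ∈ p :: (M ++ [q]), a ∈ A := by
      intro a ha
      simp only [List.mem_cons, List.mem_append, List.not_mem_nil, or_false, hM,
        Finset.mem_toList, Finset.mem_erase] at ha
      rcases ha with rfl | ha | rfl
      · exact hpA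
      · exact ha.2.2.2
      · exact hqA
    have hxr : Str A ((u :: x1.reverse) ++ [p]) := by
      have := hx.reverse
      simpa using this
    have hfr : Str A ((u :: f1.reverse) ++ [q]) := by
      have := hfO.1.reverse
      simpa using this
    have hexc := id_chain hn hI hA hK (M ++ [q]) p hzs hzA (u :: x1.reverse) (u :: f1.reverse) q
      (by rw [List.getLast?_cons, List.getLast?_append]; simp) hxr hfr (by
        intro e
        have := (List.append_inj' e (by simp)).2
        simp only [List.cons.injEq, and_true] at this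
        exact hpq this)
    have e1 : (u :: x1.reverse) ++ [p] = ((p :: x1) ++ [u]).reverse := by simp
    have e2 : (u :: f1.reverse) ++ [q] = ((q :: f1) ++ [u]).reverse := by simp
    rw [e1, e2] at hexc
    -- assemble
    obtain ⟨Q, cQ, hQx, hQy⟩ := hexc
    have hsep : ∀ s t, PU K A [u] s → PU K A (p :: (M ++ [q])) t → ¬ Eqv K s t := by
      apply PU.sep
      intro a ha b hb hr
      simp only [List.mem_singleton] at ha
      subst ha
      have := hK.rel hu hr
      subst this
      simp only [List.mem_cons, List.mem_append, List.not_mem_nil, or_false, hM,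
        Finset.mem_toList, Finset.mem_erase] at hb
      rcases hb with hb | hb | hb
      · exact hpu hb.symm
      · exact hb.2.2.1 rfl
      · exact hqu hb.symm
    refine ⟨((p :: x1) ++ [u]) :: (Q ++ (((q :: f1) ++ [u]) :: P'')), ⟨?_, ?_, ?_, ?_⟩, ?_, ?_⟩
    · have hc1 : (((p :: x1) ++ [u]) :: Q).IsChain AdjL := by
        refine cQ.chain.cons ?_
        intro y hy
        rw [hQx] at hy
        simp only [Option.mem_def, Option.some.injEq] at hy
        subst hy
        exact adjL_reverse (by simp)
      have hc2 : (((q :: f1) ++ [u]) :: P'').IsChain AdjL := (List.isChain_cons_cons.mp cP.chain).2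
      have hQne : Q ≠ [] := by intro e; subst e; simp at hQx
      rw [← List.cons_append]
      refine hc1.append hc2 ?_
      intro a ha b hb
      rw [List.getLast?_cons, hQy] at ha
      simp only [Option.getD_some, Option.mem_def, Option.some.injEq] at ha
      subst ha
      simp only [List.head?_cons, Option.mem_def, Option.some.injEq] at hb
      subst hb
      exact (adjL_reverse (by simp)).symm
    · intro s hs
      simp only [List.mem_cons, List.mem_append] at hs
      rcases hs with rfl | hs | rfl | hs
      · exact hx
      · exact (cQ.mem s hs).1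
      · exact hfO.1
      · exact (cP.mem s (by simp [hs])).1
    · intro s hs
      have hsl : s.length = n + 1 := by rw [hs.length, hA]
      obtain ⟨s', z, rfl⟩ : ∃ x' ξ, s = x' ++ [ξ] := by
        refine ⟨s.dropLast, s.getLast (by intro e; subst e; simp at hsl), ?_⟩
        rw [List.dropLast_append_getLast]
      have hz : z ∈ A := hs.mem_last
      by_cases hzu : z = u
      · subst hzu
        obtain ⟨c, hc, he⟩ := cP.cov (s' ++ [z]) ⟨hs, z, by simp, s', z, rfl, R.refl _ _⟩
        refine ⟨c, ?_, he⟩
        simp only [List.mem_cons, List.mem_append] at hc ⊢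
        tauto
      · obtain ⟨c, hc, he⟩ := cQ.cov (s' ++ [z]) ⟨hs, z, by
          simp only [List.mem_cons, List.mem_append, List.not_mem_nil, or_false, hM,
            Finset.mem_toList, Finset.mem_erase]
          tauto, s', z, rfl, R.refl _ _⟩
        refine ⟨c, ?_, he⟩
        simp only [List.mem_cons, List.mem_append]
        tauto
    · have hi := cP.inj
      rw [List.pairwise_cons] at hi ⊢
      refine ⟨?_, ?_⟩
      · intro b hb
        rw [List.mem_append] at hb
        rcases hb with hb | hb
        · exact hsep _ _ hxO (cQ.mem b hb)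
        · exact hi.1 b hb
      · rw [List.pairwise_append]
        refine ⟨cQ.inj, hi.2, ?_⟩
        intro a ha b hb e
        exact hsep b a (cP.mem b (List.mem_cons_of_mem _ hb)) (cQ.mem a ha) e.symm
    · rfl
    · rw [List.getLast?_cons, List.getLast?_append]
      rw [List.getLast?_cons] at hPy
      cases hP : P''.getLast? with
      | none =>
        rw [List.getLast?_cons, hP] at hPy
        rw [List.getLast?_cons, hP]
        simpa using hPy
      | some w =>
        rw [List.getLast?_cons, hP] at hPy
        rw [List.getLast?_cons, hP]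
        simpa using hPy
  · -- different last symbols
    set M := ((A.erase u).erase v).toList with hM
    have hzs : (u :: (M ++ [v])).Nodup := by
      rw [List.nodup_cons, List.nodup_append]
      refine ⟨?_, Finset.nodup_toList _, by simp, ?_⟩
      · simp [hM, huv]
      · intro a ha b hb e
        simp only [List.mem_singleton] at hb
        subst hb; subst e
        simp [hM] at ha
    have hzA : ∀ a ∈ u :: (M ++ [v]), a ∈ A := by
      intro a ha
      simp only [List.mem_cons, List.mem_append, List.not_mem_nil, or_false, hM,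
        Finset.mem_toList, Finset.mem_erase] at ha
      rcases ha with rfl | ha | rfl
      · exact hu
      · exact ha.2.2
      · exact hv
    have h1 := id_chain hn hI hA hK (M ++ [v]) u hzs hzA x' y' v
      (by rw [List.getLast?_cons, List.getLast?_append]; simp) hx hy hne
    refine h1.congr (fun s => ⟨fun h => h.1, fun hs => ⟨hs, ?_⟩⟩)
    have hsl : s.length = n + 1 := by rw [hs.length, hA]
    obtain ⟨s', z, rfl⟩ : ∃ x' ξ, s = x' ++ [ξ] := by
      refine ⟨s.dropLast, s.getLast (by intro e; subst e; simp at hsl), ?_⟩
      rw [List.dropLast_append_getLast]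
    have hz : z ∈ A := hs.mem_last
    refine ⟨z, ?_, s', z, rfl, R.refl _ _⟩
    simp only [List.mem_cons, List.mem_append, List.not_mem_nil, or_false, hM,
      Finset.mem_toList, Finset.mem_erase]
    tauto

end Pool.Agent.H37.Pan
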