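import Pool.Agent.H37.Pan.Defs

/-!
Facts on Landau's function used for MP_2ae182_co.
-/

namespace Pool.Agent.H37.Pan

theorem landau_bdd (n : ℕ) : BddAbove {m | ∃ g : Equiv.Perm (Fin n), m = orderOf g} := by
  refine ⟨Fintype.card (Equiv.Perm (Fin n)), ?_⟩
  rintro m ⟨g, rfl⟩
  exact orderOf_le_card_univ

theorem orderOf_le_landau {n : ℕ} (g : Equiv.Perm (Fin n)) : orderOf g ≤ landau n :=
  le_csSup (landau_bdd n) ⟨g, rfl⟩

theorem landau_le {n c : ℕ} (h : ∀ g : Equiv.Perm (Fin n), orderOf g ≤ c) : landau n ≤ c := by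
  refine csSup_le ⟨_, 1, rfl⟩ ?_
  rintro m ⟨g, rfl⟩
  exact h g

/-- Landau's function is attained. -/
theorem landau_attained (n : ℕ) : ∃ g : Equiv.Perm (Fin n), orderOf g = landau n := by
  have h : landau n ∈ {m | ∃ g : Equiv.Perm (Fin n), m = orderOf g} :=
    Nat.sSup_mem ⟨_, 1, rfl⟩ (landau_bdd n)
  obtain ⟨g, hg⟩ := h
  exact ⟨g, hg.symm⟩

theorem list_lcm_le_four : ∀ l : List ℕ, (∀ a ∈ l, 2 ≤ a) → l.sum ≤ 4 →
    ((l : List ℕ) : Multiset ℕ).lcm ≤ 4
  | [], _, _ => by simp
  | [a], h2, hs => by
    have ha := h2 a (by simp)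
    simp only [List.sum_cons, List.sum_nil] at hs
    simp only [Multiset.coe_singleton, Multiset.lcm_singleton, normalize_eq]
    omega
  | [a, b], h2, hs => by
    have ha := h2 a (by simp)
    have hb := h2 b (by simp)
    simp only [List.sum_cons, List.sum_nil] at hs
    have ha' : a = 2 := by omega
    have hb' : b = 2 := by omega
    subst ha'
    subst hb'
    decide
  | a :: b :: c :: l, h2, hs => by
    have ha := h2 a (by simp)
    have hb := h2 b (by simp)
    have hc := h2 c (by simp)
    simp only [List.sum_cons] at hs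
    omega

theorem list_lcm_le_six : ∀ l : List ℕ, (∀ a ∈ l, 2 ≤ a) → l.sum ≤ 6 →
    ((l : List ℕ) : Multiset ℕ).lcm ≤ 6
  | [], _, _ => by simp
  | [a], h2, hs => by
    have ha := h2 a (by simp)
    simp only [List.sum_cons, List.sum_nil] at hs
    simp only [Multiset.coe_singleton, Multiset.lcm_singleton, normalize_eq]
    omega
  | [a, b], h2, hs => by
    have ha := h2 a (by simp)
    have hb := h2 b (by simp)
    simp only [List.sum_cons, List.sum_nil] at hs
    have ha' : a ≤ 4 := by omega
    have hb' : b ≤ 4 := by omega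
    interval_cases a <;> interval_cases b <;> first | omega | decide
  | [a, b, c], h2, hs => by
    have ha := h2 a (by simp)
    have hb := h2 b (by simp)
    have hc := h2 c (by simp)
    simp only [List.sum_cons, List.sum_nil] at hs
    have ha' : a = 2 := by omega
    have hb' : b = 2 := by omega
    have hc' : c = 2 := by omega
    subst ha'
    subst hb'
    subst hc'
    decide
  | a :: b :: c :: d :: l, h2, hs => by
    have ha := h2 a (by simp)
    have hb := h2 b (by simp)
    have hc := h2 c (by simp)
    have hd := h2 d (by simp)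
    simp only [List.sum_cons] at hs
    omega

theorem multiset_lcm_le_four (s : Multiset ℕ) (h2 : ∀ a ∈ s, 2 ≤ a) (hs : s.sum ≤ 4) :
    s.lcm ≤ 4 := by
  induction s using Quotient.inductionOn with
  | h l => exact list_lcm_le_four l (fun a ha => h2 a (by simpa using ha)) (by simpa using hs)

theorem multiset_lcm_le_six (s : Multiset ℕ) (h2 : ∀ a ∈ s, 2 ≤ a) (hs : s.sum ≤ 6) :
    s.lcm ≤ 6 := by
  induction s using Quotient.inductionOn with
  | h l => exact list_lcm_le_six l (fun a ha => h2 a (by simpa using ha)) (by simpa using hs)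

theorem orderOf_le_four (g : Equiv.Perm (Fin 4)) : orderOf g ≤ 4 := by
  rw [← Equiv.Perm.lcm_cycleType]
  refine multiset_lcm_le_four _ (fun a ha => Equiv.Perm.two_le_of_mem_cycleType ha) ?_
  have := Equiv.Perm.sum_cycleType_le g
  simpa using this

theorem orderOf_le_six (g : Equiv.Perm (Fin 6)) : orderOf g ≤ 6 := by
  rw [← Equiv.Perm.lcm_cycleType]
  refine multiset_lcm_le_six _ (fun a ha => Equiv.Perm.two_le_of_mem_cycleType ha) ?_
  have := Equiv.Perm.sum_cycleType_le g
  simpa using this

/-- A permutation of at least `2k + 1` points of order `k (k + 1)`. -/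
theorem mul_le_landau {n k : ℕ} (hk : 2 ≤ k) (hn : 2 * k + 1 ≤ n) : k * (k + 1) ≤ landau n := by
  have hex : ∃ g : Equiv.Perm (Fin n), g.cycleType = {k, k + 1} := by
    rw [Equiv.Perm.exists_with_cycleType_iff]
    constructor
    · simp
      omega
    · intro a ha
      simp only [Multiset.insert_eq_cons, Multiset.mem_cons, Multiset.mem_singleton] at ha
      omega
  obtain ⟨g, hg⟩ := hex
  have h1 : orderOf g = k * (k + 1) := by
    rw [← Equiv.Perm.lcm_cycleType, hg]
    simp only [Multiset.insert_eq_cons, Multiset.lcm_cons, Multiset.lcm_singleton, normalize_eq]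
    exact Nat.Coprime.lcm_eq_mul (by simp)
  rw [← h1]
  exact orderOf_le_landau g

theorem landau_four : landau 4 = 4 := by
  refine le_antisymm (landau_le orderOf_le_four) ?_
  have h := orderOf_le_landau (finRotate 4)
  have h2 : orderOf (finRotate 4) = 4 := by
    rw [(isCycle_finRotate (n := 2)).orderOf, support_finRotate]
    simp
  omega

theorem lt_landau_iff {n : ℕ} (hn : 4 ≤ n) : n < landau n ↔ n = 5 ∨ 7 ≤ n := by
  constructor
  · intro h
    by_contra hc
    push Not at hc
    have h46 : n = 4 ∨ n = 6 := by omega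
    rcases h46 with rfl | rfl
    · have := landau_le orderOf_le_four
      omega
    · have := landau_le orderOf_le_six
      omega
  · rintro (rfl | h7)
    · have := mul_le_landau (n := 5) (k := 2) le_rfl (by norm_num)
      omega
    · have h1 := mul_le_landau (n := n) (k := (n - 1) / 2) (by omega) (by omega)
      have h3 : 3 ≤ (n - 1) / 2 := by omega
      have h4 : n ≤ 2 * ((n - 1) / 2) + 2 := by omega
      nlinarith

end Pool.Agent.H37.Pan
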