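import Pool.Agent.H37.Pan.Defs

/-!
The compression factor of Hamiltonian cycles of the pancake graph on four symbols
(MP_2ae182_co): a verified exhaustive search.
-/

namespace Pool.Agent.H37.Pan.N4

open Pool.Agent.H37.Pan

/-- Code of a permutation of four symbols. -/
def code (π : Equiv.Perm (Fin 4)) : ℕ := (π 0).val + 4 * (π 1).val + 16 * (π 2).val

/-- Table of neighbours. -/
def T : ℕ := 130876882350963226282327925351338981145030028038508892796550497341261049994948788839528358059812358693971068133781919017293274126766562557240250917976660442298282811630799357607820798045786672861038645066975066472938585286310293702434032463260228645279546526524660899875147661321453884075962726770194715293836640256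

/-- The neighbour with label `a + 2` of the vertex with code `v`. -/
def nb (v a : ℕ) : ℕ := Nat.land (Nat.shiftRight T (6 * (3 * v + a))) 63

/-- Adjacency of codes. -/
def adjc (u v : ℕ) : Bool := Nat.beq (nb u 0) v || (Nat.beq (nb u 1) v || Nat.beq (nb u 2) v)

theorem code_mul_r : ∀ π : Equiv.Perm (Fin 4),
    code (π * r 4 2) = nb (code π) 0 ∧ code (π * r 4 3) = nb (code π) 1 ∧
      code (π * r 4 4) = nb (code π) 2 := by decide

theorem code_inj : ∀ π σ : Equiv.Perm (Fin 4), code π = code σ → π = σ := by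
  intro π σ h
  have key : ∀ a b c a' b' c' : Fin 4,
      a.val + 4 * b.val + 16 * c.val = a'.val + 4 * b'.val + 16 * c'.val →
        a = a' ∧ b = b' ∧ c = c' := by
    intro a b c a' b' c' h
    refine ⟨?_, ?_, ?_⟩ <;> apply Fin.ext <;> omega
  obtain ⟨h0, h1, h2⟩ := key _ _ _ _ _ _ h
  have h3 : π 3 = σ 3 := by
    have hs : ∀ τ : Equiv.Perm (Fin 4), (τ 3).val = 6 - (τ 0).val - (τ 1).val - (τ 2).val := by
      intro τ
      have hsum : ∑ i : Fin 4, (τ i).val = ∑ i : Fin 4, i.val :=
        Equiv.sum_comp τ (fun i : Fin 4 => i.val)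
      simp only [Fin.sum_univ_four] at hsum
      have e0 : ((0 : Fin 4) : ℕ) = 0 := rfl
      have e1 : ((1 : Fin 4) : ℕ) = 1 := rfl
      have e2 : ((2 : Fin 4) : ℕ) = 2 := rfl
      have e3 : ((3 : Fin 4) : ℕ) = 3 := rfl
      rw [e0, e1, e2, e3] at hsum
      omega
    apply Fin.ext
    rw [hs π, hs σ, h0, h1, h2]
  ext i
  fin_cases i
  · exact congrArg Fin.val h0
  · exact congrArg Fin.val h1
  · exact congrArg Fin.val h2
  · exact congrArg Fin.val h3

theorem code_lt (π : Equiv.Perm (Fin 4)) : code π < 64 := by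
  unfold code
  omega

theorem adj_iff (π σ : Equiv.Perm (Fin 4)) :
    (pancake 4).Adj π σ ↔ adjc (code π) (code σ) = true := by
  obtain ⟨h2, h3, h4⟩ := code_mul_r π
  constructor
  · rintro ⟨k, hk2, hk4, rfl⟩
    have hk : k = 2 ∨ k = 3 ∨ k = 4 := by omega
    rcases hk with rfl | rfl | rfl
    · rw [h2]; simp [adjc]
    · rw [h3]; simp [adjc]
    · rw [h4]; simp [adjc]
  · intro h
    simp only [adjc, Bool.or_eq_true] at h
    rcases h with h | h | h
    · exact ⟨2, le_rfl, by norm_num, code_inj _ _ (by rw [h2, Nat.eq_of_beq_eq_true h])⟩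
    · exact ⟨3, by norm_num, by norm_num, code_inj _ _ (by rw [h3, Nat.eq_of_beq_eq_true h])⟩
    · exact ⟨4, by norm_num, le_rfl, code_inj _ _ (by rw [h4, Nat.eq_of_beq_eq_true h])⟩

theorem exists_step {π σ : Equiv.Perm (Fin 4)} (h : (pancake 4).Adj π σ) :
    code σ = nb (code π) 0 ∨ code σ = nb (code π) 1 ∨ code σ = nb (code π) 2 := by
  rw [adj_iff] at h
  simp only [adjc, Bool.or_eq_true] at h
  rcases h with h | h | h
  · exact Or.inl (Nat.eq_of_beq_eq_true h).symm
  · exact Or.inr (Or.inl (Nat.eq_of_beq_eq_true h).symm)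
  · exact Or.inr (Or.inr (Nat.eq_of_beq_eq_true h).symm)

/-- The shift by `s` of the closed walk `l` does not preserve adjacency. -/
def viol (l : List ℕ) (s : ℕ) : Bool :=
  (List.range 24).any fun i => (List.range 24).any fun j =>
    adjc (l.getD i 0) (l.getD j 0) &&
      !(adjc (l.getD ((i + s) % 24) 0) (l.getD ((j + s) % 24) 0))

/-- Check of a Hamiltonian path (listed backwards). -/
def chk (l : List ℕ) : Bool :=
  !(adjc (l.getD 0 0) (l.getD 23 0)) ||
    (viol l 1 && (viol l 2 && (viol l 3 && viol l 4)))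

/-- Bit test. -/
def tb (m w : ℕ) : Bool := Nat.beq (Nat.land 1 (Nat.shiftRight m w)) 1

theorem tb_eq (m w : ℕ) : tb m w = m.testBit w := by
  unfold tb Nat.testBit
  have h1 : Nat.land 1 (Nat.shiftRight m w) = 1 &&& (m >>> w) := rfl
  rw [h1, Nat.one_and_eq_mod_two]
  rcases Nat.mod_two_eq_zero_or_one (m >>> w) with h | h <;> rw [h] <;> rfl

/-- Exhaustive search over all Hamiltonian paths extending the path `l` (listed backwards) with
last vertex `v` and set of visited vertices `m`. -/
def srch : ℕ → ℕ → ℕ → List ℕ → Bool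
  | 0, _, _, l => chk l
  | n + 1, v, m, l =>
    (bif tb m (nb v 0) then true
      else srch n (nb v 0) (Nat.lor m (Nat.shiftLeft 1 (nb v 0))) (nb v 0 :: l)) &&
    ((bif tb m (nb v 1) then true
      else srch n (nb v 1) (Nat.lor m (Nat.shiftLeft 1 (nb v 1))) (nb v 1 :: l)) &&
    (bif tb m (nb v 2) then true
      else srch n (nb v 2) (Nat.lor m (Nat.shiftLeft 1 (nb v 2))) (nb v 2 :: l)))

/-- The path `y 0, ..., y j`, listed backwards. -/
def pathList (y : ℕ → ℕ) : ℕ → List ℕ
  | 0 => [y 0]
  | j + 1 => y (j + 1) :: pathList y j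

theorem pathList_getD (y : ℕ → ℕ) : ∀ j i, i ≤ j → (pathList y j).getD i 0 = y (j - i)
  | 0, i, hi => by
    have : i = 0 := by omega
    subst this
    rfl
  | j + 1, 0, _ => rfl
  | j + 1, i + 1, hi => by
    have h := pathList_getD y j i (by omega)
    have e : j + 1 - (i + 1) = j - i := by omega
    rw [e, ← h]
    rfl

theorem srch_sound (y : ℕ → ℕ)
    (hstep : ∀ i, y (i + 1) = nb (y i) 0 ∨ y (i + 1) = nb (y i) 1 ∨ y (i + 1) = nb (y i) 2)
    (hinj : ∀ i j, i < 24 → j < 24 → y i = y j → i = j) :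
    ∀ n j m, j + n = 23 → (∀ w, m.testBit w = true → ∃ i, i ≤ j ∧ y i = w) →
      srch n (y j) m (pathList y j) = true → chk (pathList y 23) = true
  | 0, j, m, hj, _, h => by
    have : j = 23 := by omega
    subst this
    exact h
  | n + 1, j, m, hj, hm, h => by
    have key : ∀ w, y (j + 1) = w →
        (bif tb m w then true
          else srch n w (Nat.lor m (Nat.shiftLeft 1 w)) (w :: pathList y j)) = true →
        chk (pathList y 23) = true := by
      rintro w rfl h
      have hf : tb m (y (j + 1)) = false := by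
        rw [tb_eq]
        by_contra hc
        rw [Bool.not_eq_false] at hc
        obtain ⟨i, hi, hiy⟩ := hm _ hc
        have := hinj i (j + 1) (by omega) (by omega) hiy
        omega
      rw [hf] at h
      refine srch_sound y hstep hinj n (j + 1) _ (by omega) ?_ h
      intro w hw
      have e1 : Nat.lor m (Nat.shiftLeft 1 (y (j + 1))) = m ||| (1 <<< y (j + 1)) := rfl
      rw [e1, Nat.testBit_or, Nat.one_shiftLeft, Nat.testBit_two_pow, Bool.or_eq_true,
        decide_eq_true_eq] at hw
      rcases hw with hw | hw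
      · obtain ⟨i, hi, hiy⟩ := hm w hw
        exact ⟨i, by omega, hiy⟩
      · exact ⟨j + 1, le_rfl, hw⟩
    simp only [srch, Bool.and_eq_true] at h
    rcases hstep j with h0 | h0 | h0
    · exact key _ h0 h.1
    · exact key _ h0 h.2.1
    · exact key _ h0 h.2.2

theorem srch_true : srch 23 36 (Nat.shiftLeft 1 36) [36] = true := by
  decide +kernel

theorem card_perm_four : Fintype.card (Equiv.Perm (Fin 4)) = 24 := by
  rw [Fintype.card_perm, Fintype.card_fin]
  rfl

theorem adj_left (g π σ : Equiv.Perm (Fin 4)) :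
    (pancake 4).Adj (g * π) (g * σ) ↔ (pancake 4).Adj π σ := by
  constructor
  · rintro ⟨k, h2, h4, h⟩
    refine ⟨k, h2, h4, ?_⟩
    rw [mul_assoc] at h
    exact mul_left_cancel h
  · rintro ⟨k, h2, h4, h⟩
    exact ⟨k, h2, h4, by rw [h, mul_assoc]⟩

/-- The search excludes a shift by `s = 1, 2, 3, 4`. -/
theorem no_shift (x : ℕ → Equiv.Perm (Fin 4)) (hx : IsHamCycle (pancake 4) x)
    (f : pancake 4 ≃g pancake 4) (s : ℕ) (hf : ∀ i, f (x i) = x (i + s))
    (hs1 : 1 ≤ s) (hs4 : s ≤ 4) : False := by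
  have hper : ∀ i, x (i + 24) = x i := by
    intro i
    have := hx.period i
    rwa [card_perm_four] at this
  have hinjx : ∀ i j, i < 24 → j < 24 → x i = x j → i = j := by
    intro i j hi hj h
    exact hx.inj i j (by rw [card_perm_four]; exact hi) (by rw [card_perm_four]; exact hj) h
  set y : ℕ → ℕ := fun i => code ((x 0)⁻¹ * x i) with hy
  have hyadj : ∀ i j, adjc (y i) (y j) = true ↔ (pancake 4).Adj (x i) (x j) := by
    intro i j
    rw [hy]
    simp only
    rw [← adj_iff, adj_left]
  have hstep : ∀ i, y (i + 1) = nb (y i) 0 ∨ y (i + 1) = nb (y i) 1 ∨ y (i + 1) = nb (y i) 2 := by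
    intro i
    exact exists_step ((adj_left _ _ _).mpr (hx.adj i))
  have hinj : ∀ i j, i < 24 → j < 24 → y i = y j → i = j := by
    intro i j hi hj h
    exact hinjx i j hi hj (mul_left_cancel (code_inj _ _ h))
  have hy0 : y 0 = 36 := by
    rw [hy]
    simp only [inv_mul_cancel]
    rfl
  have hchk : chk (pathList y 23) = true := by
    refine srch_sound y hstep hinj 23 0 (Nat.shiftLeft 1 36) (by norm_num) ?_ ?_
    · intro w hw
      have e1 : Nat.shiftLeft 1 36 = 1 <<< 36 := rfl
      rw [e1, Nat.one_shiftLeft, Nat.testBit_two_pow, decide_eq_true_eq] at hw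
      exact ⟨0, le_rfl, by rw [hy0, hw]⟩
    · have e2 : pathList y 0 = [36] := by
        change [y 0] = [36]
        rw [hy0]
      rw [e2, hy0]
      exact srch_true
  have hget : ∀ i, i ≤ 23 → (pathList y 23).getD i 0 = y (23 - i) := fun i hi =>
    pathList_getD y 23 i hi
  have hlast : adjc ((pathList y 23).getD 0 0) ((pathList y 23).getD 23 0) = true := by
    rw [hget 0 (by norm_num), hget 23 le_rfl, hyadj]
    have h := hx.adj 23
    have h24 : x (23 + 1) = x 0 := hper 0
    rw [h24] at h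
    exact h
  have hviol : viol (pathList y 23) s = true := by
    have h : (viol (pathList y 23) 1 && (viol (pathList y 23) 2 &&
        (viol (pathList y 23) 3 && viol (pathList y 23) 4))) = true := by
      have h' := hchk
      unfold chk at h'
      rw [hlast] at h'
      simpa using h'
    simp only [Bool.and_eq_true] at h
    have hs : s = 1 ∨ s = 2 ∨ s = 3 ∨ s = 4 := by omega
    rcases hs with rfl | rfl | rfl | rfl
    · exact h.1
    · exact h.2.1
    · exact h.2.2.1
    · exact h.2.2.2
  unfold viol at hviol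
  rw [List.any_eq_true] at hviol
  obtain ⟨i, hi, hviol⟩ := hviol
  rw [List.any_eq_true] at hviol
  obtain ⟨j, hj, hviol⟩ := hviol
  rw [List.mem_range] at hi hj
  rw [Bool.and_eq_true, Bool.not_eq_true'] at hviol
  obtain ⟨ha, hb⟩ := hviol
  have hshift : ∀ i, i < 24 → x (23 - (i + s) % 24 + s) = x (23 - i) := by
    intro i hi
    by_cases hc : i + s < 24
    · rw [Nat.mod_eq_of_lt hc]
      congr 1
      omega
    · have e : (i + s) % 24 = i + s - 24 := by omega
      rw [e, ← hper (23 - i)]
      congr 1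
      omega
  rw [hget i (by omega), hget j (by omega), hyadj] at ha
  rw [hget _ (by omega), hget _ (by omega)] at hb
  have hc : (pancake 4).Adj (x (23 - (i + s) % 24)) (x (23 - (j + s) % 24)) := by
    have := f.map_adj_iff (v := x (23 - (i + s) % 24)) (w := x (23 - (j + s) % 24))
    rw [← this, hf, hf, hshift i hi, hshift j hj]
    exact ha
  rw [← hyadj, hb] at hc
  exact Bool.false_ne_true hc

end Pool.Agent.H37.Pan.N4

namespace Pool.Agent.H37.Pan

theorem kappa_four_upper : ∀ x : ℕ → Equiv.Perm (Fin 4), IsHamCycle (pancake 4) x →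
    ∀ k, IsSymm (pancake 4) x k → k ≤ 4 := by
  intro x hx k hk
  obtain ⟨hdvd, f, hf⟩ := hk
  rw [N4.card_perm_four] at hdvd
  simp only [N4.card_perm_four] at hf
  by_contra hc
  push Not at hc
  have hk24 : k ≤ 24 := Nat.le_of_dvd (by norm_num) hdvd
  have h1 : 1 ≤ 24 / k := Nat.div_pos hk24 (by omega)
  have h4 : 24 / k ≤ 4 := by
    calc 24 / k ≤ 24 / 5 := Nat.div_le_div_left (by omega) (by norm_num)
      _ = 4 := by norm_num
  exact N4.no_shift x hx f (24 / k) hf h1 h4

/-- The labels of a Hamiltonian cycle with compression factor 4. -/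
def lab (i : ℕ) : ℕ := [2, 3, 2, 3, 2, 4].getD (i % 6) 0

/-- A Hamiltonian cycle with compression factor 4. -/
def cyc : ℕ → Equiv.Perm (Fin 4)
  | 0 => 1
  | i + 1 => cyc i * r 4 (lab i)

theorem lab_add (i : ℕ) : lab (i + 6) = lab i := by
  unfold lab
  rw [Nat.add_mod_right]

theorem cyc_add (i : ℕ) : cyc (i + 6) = cyc 6 * cyc i := by
  induction i with
  | zero => simp [cyc]
  | succ i ih =>
    have e : i + 1 + 6 = (i + 6) + 1 := by ring
    rw [e]
    change cyc (i + 6) * r 4 (lab (i + 6)) = cyc 6 * (cyc i * r 4 (lab i))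
    rw [ih, lab_add, mul_assoc]

theorem cyc_six_pow : cyc 6 * (cyc 6 * (cyc 6 * cyc 6)) = 1 := by
  decide +kernel

theorem cyc_period (i : ℕ) : cyc (i + 24) = cyc i := by
  have e : i + 24 = (((i + 6) + 6) + 6) + 6 := by ring
  rw [e, cyc_add (i + 6 + 6 + 6), cyc_add (i + 6 + 6), cyc_add (i + 6), cyc_add i]
  have h := cyc_six_pow
  calc cyc 6 * (cyc 6 * (cyc 6 * (cyc 6 * cyc i)))
      = (cyc 6 * (cyc 6 * (cyc 6 * cyc 6))) * cyc i := by simp only [mul_assoc]
    _ = cyc i := by rw [h, one_mul]

theorem lab_mem (i : ℕ) : 2 ≤ lab i ∧ lab i ≤ 4 := by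
  have h : ∀ j < 6, 2 ≤ [2, 3, 2, 3, 2, 4].getD j 0 ∧ [2, 3, 2, 3, 2, 4].getD j 0 ≤ 4 := by
    decide
  exact h (i % 6) (Nat.mod_lt _ (by norm_num))

/-- Codes of the vertices of the cycle. -/
def cycCode : ℕ → ℕ
  | 0 => 36
  | i + 1 => N4.nb (cycCode i) (lab i - 2)

theorem code_cyc (i : ℕ) : N4.code (cyc i) = cycCode i := by
  induction i with
  | zero => rfl
  | succ i ih =>
    change N4.code (cyc i * r 4 (lab i)) = N4.nb (cycCode i) (lab i - 2)
    rw [← ih]
    obtain ⟨h2, h3, h4⟩ := N4.code_mul_r (cyc i)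
    obtain ⟨hl, hu⟩ := lab_mem i
    have hk : lab i = 2 ∨ lab i = 3 ∨ lab i = 4 := by omega
    rcases hk with hk | hk | hk
    · rw [hk, h2]
    · rw [hk, h3]
    · rw [hk, h4]

theorem cycCode_inj : ∀ i < 24, ∀ j < 24, cycCode i = cycCode j → i = j := by
  decide +kernel

theorem kappa_four_lower : ∃ x, IsHamCycle (pancake 4) x ∧ IsSymm (pancake 4) x 4 := by
  refine ⟨cyc, ⟨?_, ?_, ?_, ?_⟩, ?_, ?_⟩
  · rw [N4.card_perm_four]
    norm_num
  · intro i
    rw [N4.card_perm_four]
    exact cyc_period i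
  · intro i j hi hj h
    rw [N4.card_perm_four] at hi hj
    exact cycCode_inj i hi j hj (by rw [← code_cyc, ← code_cyc, h])
  · intro i
    exact ⟨lab i, (lab_mem i).1, (lab_mem i).2, rfl⟩
  · rw [N4.card_perm_four]
    norm_num
  · refine ⟨⟨Equiv.mulLeft (cyc 6), ?_⟩, ?_⟩
    · intro a b
      exact N4.adj_left (cyc 6) a b
    · intro i
      rw [N4.card_perm_four]
      change cyc 6 * cyc i = cyc (i + 24 / 4)
      rw [← cyc_add]

end Pool.Agent.H37.Pan
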