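import Pool.Agent.H37.Pan.Base
import Pool.Agent.H37.Pan.Aut
import Pool.Agent.H37.Pan.LAND
import Pool.Agent.H37.Pan.N4

/-!
From transversal paths to Hamiltonian cycles of the pancake graph.
-/

namespace Pool.Agent.H37.Pan
set_option linter.unusedSectionVars false

/-- a closed up transversal path for the cyclic group generated by `g` -/
theorem closed_path {n : ℕ} (hn : 5 ≤ n) (g : Equiv.Perm (Fin n)) :
    ∃ X Y : List (Fin n), Str Finset.univ X ∧ HP (Subgroup.zpowers g) (Str Finset.univ) X Y ∧
      Y.reverse = X.map g := by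
  have hcard : (Finset.univ : Finset (Fin n)).card = n := by simp
  have hI : Inv (Subgroup.zpowers g) (Finset.univ : Finset (Fin n)) :=
    fun _ _ _ _ => Finset.mem_univ _
  have hgm : g ∈ Subgroup.zpowers g := Subgroup.mem_zpowers g
  by_cases htr : ∀ a b : Fin n, R (Subgroup.zpowers g) a b
  · -- transitive
    let v : Fin n := ⟨0, by omega⟩
    have hgv : g v ≠ g⁻¹ v := by
      intro e
      have h2 : g (g v) = v := by rw [e]; simp
      have hall : ∀ c, c = v ∨ c = g v := by
        intro c
        obtain ⟨k, hk, rfl⟩ := htr v c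
        obtain ⟨z, rfl⟩ := Subgroup.mem_zpowers_iff.mp hk
        have h3 : ∀ t : ℕ, (g ^ t) v = v ∨ (g ^ t) v = g v := by
          intro t
          induction t with
          | zero => left; simp
          | succ t ih =>
            rw [pow_succ', Equiv.Perm.mul_apply]
            rcases ih with h | h
            · right; rw [h]
            · left; rw [h, h2]
        obtain ⟨t, rfl | rfl⟩ := z.eq_nat_or_neg
        · rw [zpow_natCast]; exact h3 t
        · rw [zpow_neg, zpow_natCast]
          rcases h3 t with h | h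
          · left
            rw [Equiv.Perm.inv_eq_iff_eq]; exact h.symm
          · right
            rw [Equiv.Perm.inv_eq_iff_eq]
            have h4 : (g ^ t) (g v) = g ((g ^ t) v) := by
              rw [← Equiv.Perm.mul_apply, ← Equiv.Perm.mul_apply, ← pow_succ, ← pow_succ']
            rw [h4, h, h2]
      have h5 : (Finset.univ : Finset (Fin n)) ⊆ {v, g v} := by
        intro c _
        simpa using hall c
      have h6 := Finset.card_le_card h5
      rw [hcard] at h6
      have h7 := Finset.card_le_two (a := v) (b := g v)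
      omega
    have hgv0 : g⁻¹ v ≠ v := by
      intro e
      apply hgv
      have : g v = v := by
        conv_lhs => rw [← e]
        simp
      rw [this, e]
    obtain ⟨b, hb, hb'⟩ := pick (A := (Finset.univ : Finset (Fin n))) {g⁻¹ v, v}
      (lt_of_le_of_lt Finset.card_le_two (by omega))
    simp only [Finset.mem_insert, Finset.mem_singleton, not_or] at hb'
    obtain ⟨c, hc, hc'⟩ := pick (A := (Finset.univ : Finset (Fin n))) {g⁻¹ v, v, b}
      (lt_of_le_of_lt Finset.card_le_three (by omega))
    simp only [Finset.mem_insert, Finset.mem_singleton, not_or] at hc'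
    obtain ⟨m, hm⟩ := exists_mk4 (Finset.mem_univ (g⁻¹ v)) hb hc (Finset.mem_univ v)
      (Ne.symm hb'.1) (Ne.symm hc'.1) hgv0 (Ne.symm hc'.2.2) hb'.2 hc'.2.1
    have hX : Str Finset.univ ((g⁻¹ v :: b :: (m ++ [c])) ++ [v]) := by simpa using hm
    have hY : Str Finset.univ ((g v :: (((b :: (m ++ [c])).map g).reverse)) ++ [v]) := by
      have h1 := (hX.map hI hgm).reverse
      simpa using h1
    have hT : Triv (stab (Subgroup.zpowers g) v) (Finset.univ.erase v) := by
      intro k hk a _
      exact stab_fix ⟨g, rfl⟩ (htr v a) hk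
    have h2 : HP (stab (Subgroup.zpowers g) v) (Str (Finset.univ.erase v))
        (g⁻¹ v :: b :: (m ++ [c])) (g v :: (((b :: (m ++ [c])).map g).reverse)) := by
      refine idP_all (n - 1) (by omega) (Finset.univ.erase v)
        (by rw [Finset.card_erase_of_mem (Finset.mem_univ v), hcard]) _ hT _ _
        hX.dropLast hY.dropLast ?_
      intro e
      simp only [List.cons.injEq] at e
      exact hgv e.1.symm
    refine ⟨_, (g v :: (((b :: (m ++ [c])).map g).reverse)) ++ [v], hX, ?_, ?_⟩
    · refine ((HP.lift h2).congr (fun s => liftP_str hI (Finset.mem_univ v) s)).congr ?_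
      intro s
      refine ⟨fun h => h.1, fun hs => ?_⟩
      have hsl : s.length = n := by rw [hs.length, hcard]
      obtain ⟨s', w, rfl⟩ : ∃ x' ξ, s = x' ++ [ξ] := by
        refine ⟨s.dropLast, s.getLast (by intro e; subst e; simp at hsl; omega), ?_⟩
        rw [List.dropLast_append_getLast]
      exact ⟨hs, v, by simp, s', w, rfl, htr v w⟩
    · simp
  · push Not at htr
    obtain ⟨b, a, hba⟩ := htr
    have hab : a ≠ b := fun e => hba (by rw [e]; exact R.refl _ _)
    obtain ⟨p, hp, hp'⟩ := pick (A := (Finset.univ : Finset (Fin n))) {a, b}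
      (lt_of_le_of_lt Finset.card_le_two (by omega))
    simp only [Finset.mem_insert, Finset.mem_singleton, not_or] at hp'
    obtain ⟨q, hq, hq'⟩ := pick (A := (Finset.univ : Finset (Fin n))) {a, b, p}
      (lt_of_le_of_lt Finset.card_le_three (by omega))
    simp only [Finset.mem_insert, Finset.mem_singleton, not_or] at hq'
    obtain ⟨m, hm⟩ := exists_mk4 (Finset.mem_univ a) hp hq (Finset.mem_univ b)
      (Ne.symm hp'.1) (Ne.symm hq'.1) hab (Ne.symm hq'.2.2) hp'.2 hq'.2.1
    have hX : Str Finset.univ ((a :: p :: (m ++ [q])) ++ [b]) := by simpa using hm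
    have hY : Str Finset.univ ((((p :: (m ++ [q, b])).map g).reverse) ++ [g a]) := by
      have h1 := (hX.map hI hgm).reverse
      simpa using h1
    refine ⟨_, _, hX, gP_all n hn Finset.univ hcard _ ⟨g, rfl⟩ hI _ _ b (g a) hX hY ?_, ?_⟩
    · intro hr
      exact hba (hr.trans (R.symm ⟨g, hgm, rfl⟩))
    · simp

theorem pr_ofFn {n k : ℕ} (hk : k ≤ n) (π : Equiv.Perm (Fin n)) :
    pr k (List.ofFn π) = List.ofFn (π * r n k) := by
  apply List.ext_getElem
  · rw [pr_length]; simp
  · intro i h1 h2
    rw [pr_length] at h1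
    simp only [List.length_ofFn] at h1 h2
    unfold pr
    rw [List.getElem_ofFn]
    by_cases hik : i < k
    · rw [List.getElem_append_left (by simp; omega)]
      rw [List.getElem_reverse, List.getElem_take, List.getElem_ofFn]
      rw [Equiv.Perm.mul_apply]
      congr 1
      apply Fin.ext
      have : (r n k ⟨i, h1⟩).val = k - 1 - i := by
        simp only [r, Function.Involutive.coe_toPerm, revFun]
        rw [dif_pos ⟨hik, hk⟩]
      rw [this]
      simp; omega
    · rw [List.getElem_append_right (by simp; omega)]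
      rw [List.getElem_drop, List.getElem_ofFn]
      rw [Equiv.Perm.mul_apply]
      congr 1
      apply Fin.ext
      have : (r n k ⟨i, h1⟩).val = i := by
        simp only [r, Function.Involutive.coe_toPerm, revFun]
        rw [dif_neg (by tauto)]
      rw [this]
      simp; omega

theorem ofFn_inj {n : ℕ} {π σ : Equiv.Perm (Fin n)} (h : List.ofFn π = List.ofFn σ) : π = σ := by
  have := List.ofFn_injective h
  exact DFunLike.coe_injective this

theorem adj_of_adjL {n : ℕ} {π σ : Equiv.Perm (Fin n)} (h : AdjL (List.ofFn π) (List.ofFn σ)) :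
    (pancake n).Adj π σ := by
  obtain ⟨k, h2, hk, he⟩ := h
  simp only [List.length_ofFn] at hk
  rw [pr_ofFn hk] at he
  exact ⟨k, h2, hk, ofFn_inj he⟩

theorem exists_perm {n : ℕ} {l : List (Fin n)} (hl : Str Finset.univ l) :
    ∃ π : Equiv.Perm (Fin n), List.ofFn π = l := by
  have hlen : l.length = n := by rw [hl.length]; simp
  let f : Fin n → Fin n := fun i => l[i.val]'(by rw [hlen]; exact i.isLt)
  have hf : Function.Injective f := by
    intro i j h
    exact Fin.ext ((List.Nodup.getElem_inj_iff hl.1).mp h)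
  refine ⟨Equiv.ofBijective f (Finite.injective_iff_bijective.mp hf), ?_⟩
  apply List.ext_getElem
  · simp [hlen]
  · intro i h1 h2
    rw [List.getElem_ofFn]
    rfl

theorem str_ofFn {n : ℕ} (π : Equiv.Perm (Fin n)) : Str Finset.univ (List.ofFn π) := by
  refine ⟨List.nodup_ofFn.mpr π.injective, fun a => ⟨fun _ => Finset.mem_univ a, fun _ => ?_⟩⟩
  rw [List.mem_ofFn]
  exact ⟨π⁻¹ a, by simp⟩

theorem map_ofFn' {n : ℕ} (h π : Equiv.Perm (Fin n)) :
    (List.ofFn π).map h = List.ofFn (h * π) := by
  rw [List.map_ofFn]; rfl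

/-- left translations are automorphisms -/
def leftIso (n : ℕ) (g : Equiv.Perm (Fin n)) : pancake n ≃g pancake n where
  toEquiv := Equiv.mulLeft g
  map_rel_iff' := by
    intro a b
    constructor
    · rintro ⟨k, h2, hk, he⟩
      refine ⟨k, h2, hk, ?_⟩
      simp only [Equiv.coe_mulLeft] at he
      rw [mul_assoc] at he
      exact mul_left_cancel he
    · rintro ⟨k, h2, hk, he⟩
      refine ⟨k, h2, hk, ?_⟩
      simp only [Equiv.coe_mulLeft]
      rw [he, mul_assoc]

/-- every left translation rotates a Hamiltonian cycle -/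
theorem exists_cycle {n : ℕ} (hn : 5 ≤ n) (g : Equiv.Perm (Fin n)) :
    ∃ x : ℕ → Equiv.Perm (Fin n), IsHamCycle (pancake n) x ∧
      IsSymm (pancake n) x (orderOf g) := by
  obtain ⟨X, Y, hX, ⟨P, cP, hPX, hPY⟩, hXY⟩ := closed_path hn g
  have hlen : 0 < P.length := by
    cases P with
    | nil => simp at hPX
    | cons a l => simp
  set L := P.length with hL
  -- permutations along the path
  have hp : ∀ r : ℕ, ∃ π : Equiv.Perm (Fin n), ∀ h : r < L, List.ofFn π = P[r] := by
    intro r
    by_cases h : r < L
    · obtain ⟨π, hπ⟩ := exists_perm (cP.mem _ (List.getElem_mem h))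
      exact ⟨π, fun _ => hπ⟩
    · exact ⟨1, fun h' => absurd h' h⟩
  choose p hp using hp
  set k := orderOf g with hk
  have hk0 : 0 < k := orderOf_pos g
  -- bijection
  have hinj : ∀ q q' r r', q < k → q' < k → r < L → r' < L →
      g ^ q * p r = g ^ q' * p r' → q = q' ∧ r = r' := by
    intro q q' r r' hq hq' hr hr' he
    have hrr : r = r' := by
      by_contra hne
      have key : ∀ r r', r < r' → ∀ hr : r < L, ∀ hr' : r' < L,
          ¬ Eqv (Subgroup.zpowers g) (P[r]) (P[r']) := by
        intro r r' hlt hr hr'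
        exact List.pairwise_iff_getElem.mp cP.inj r r' hr hr' hlt
      have e1 : Eqv (Subgroup.zpowers g) (P[r]) (P[r']) := by
        refine ⟨(g ^ q')⁻¹ * g ^ q, ?_, ?_⟩
        · exact Subgroup.mul_mem _ (Subgroup.inv_mem _ (Subgroup.pow_mem _
            (Subgroup.mem_zpowers g) _)) (Subgroup.pow_mem _ (Subgroup.mem_zpowers g) _)
        · rw [← hp r hr, ← hp r' hr', map_ofFn']
          congr 2
          rw [mul_assoc, he, ← mul_assoc, inv_mul_cancel, one_mul]
      rcases Nat.lt_or_gt_of_ne hne with h | h
      · exact key r r' h hr hr' e1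
      · exact key r' r h hr' hr e1.symm
    subst hrr
    have h1 : g ^ q = g ^ q' := mul_right_cancel he
    exact ⟨pow_injOn_Iio_orderOf (by simpa using hq) (by simpa using hq') h1, rfl⟩
  have hsurj : ∀ σ : Equiv.Perm (Fin n), ∃ q r, q < k ∧ r < L ∧ σ = g ^ q * p r := by
    intro σ
    obtain ⟨s, hs, h, hh, he⟩ := cP.cov _ (str_ofFn σ)
    obtain ⟨r, hr, rfl⟩ := List.mem_iff_getElem.mp hs
    rw [← hp r hr, map_ofFn'] at he
    have he' := ofFn_inj he
    have hh' : h⁻¹ ∈ Subgroup.zpowers g := Subgroup.inv_mem _ hh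
    obtain ⟨q, hq, hqe⟩ := (mem_zpowers_iff_mem_range_orderOf.mp hh' : h⁻¹ ∈ _) |> Finset.mem_image.mp
    refine ⟨q, r, by simpa using hq, hr, ?_⟩
    rw [hqe, he', ← mul_assoc, inv_mul_cancel, one_mul]
  have hcard : Fintype.card (Equiv.Perm (Fin n)) = L * k := by
    have h1 : Function.Bijective (fun z : Fin k × Fin L => g ^ z.1.val * p z.2.val) := by
      constructor
      · rintro ⟨q, r⟩ ⟨q', r'⟩ h
        obtain ⟨h1, h2⟩ := hinj _ _ _ _ q.isLt q'.isLt r.isLt r'.isLt h
        exact Prod.ext (Fin.ext h1) (Fin.ext h2)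
      · intro σ
        obtain ⟨q, r, hq, hr, he⟩ := hsurj σ
        exact ⟨(⟨q, hq⟩, ⟨r, hr⟩), he.symm⟩
    have := Fintype.card_of_bijective h1
    rw [Fintype.card_prod, Fintype.card_fin, Fintype.card_fin] at this
    rw [← this, mul_comm]
  let x : ℕ → Equiv.Perm (Fin n) := fun i => g ^ (i / L) * p (i % L)
  have hleft : ∀ (h π σ : Equiv.Perm (Fin n)), (pancake n).Adj π σ →
      (pancake n).Adj (h * π) (h * σ) := by
    rintro h π σ ⟨j, h2, hj, rfl⟩
    exact ⟨j, h2, hj, (mul_assoc _ _ _).symm⟩
  have hadj : ∀ i, (pancake n).Adj (x i) (x (i + 1)) := by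
    intro i
    have hr : i % L < L := Nat.mod_lt _ hlen
    by_cases hlast : i % L + 1 < L
    · have h1 : (i + 1) % L = i % L + 1 := by
        rw [Nat.add_mod, Nat.mod_eq_of_lt (a := 1) (by omega)]
        exact Nat.mod_eq_of_lt hlast
      have h2 : (i + 1) / L = i / L := by
        have h3 := Nat.div_add_mod i L
        have h4 := Nat.div_add_mod (i + 1) L
        rw [h1] at h4
        have h5 : L * ((i + 1) / L) = L * (i / L) := by omega
        exact Nat.eq_of_mul_eq_mul_left hlen h5
      show (pancake n).Adj (g ^ (i / L) * p (i % L)) (g ^ ((i + 1) / L) * p ((i + 1) % L))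
      rw [h1, h2]
      apply hleft
      apply adj_of_adjL
      rw [hp _ hr, hp _ hlast]
      exact List.isChain_iff_getElem.mp cP.chain _ hlast
    · have h1 : i % L = L - 1 := by omega
      have h3 := Nat.div_add_mod i L
      have h0 : i + 1 = L * (i / L + 1) := by
        rw [Nat.mul_add, Nat.mul_one]; omega
      have h2 : (i + 1) % L = 0 := by rw [h0]; exact Nat.mul_mod_right _ _
      have h4 : (i + 1) / L = i / L + 1 := by rw [h0]; exact Nat.mul_div_cancel_left _ hlen
      show (pancake n).Adj (g ^ (i / L) * p (i % L)) (g ^ ((i + 1) / L) * p ((i + 1) % L))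
      rw [h1, h2, h4, pow_succ, mul_assoc]
      apply hleft
      apply adj_of_adjL
      have e1 : List.ofFn (p (L - 1)) = Y := by
        rw [hp _ (by omega)]
        have h5 : P.getLast? = some (P[L - 1]'(by omega)) := by
          rw [List.getLast?_eq_getElem?, List.getElem?_eq_getElem (by omega)]
        rw [h5] at hPY
        simpa using hPY
      have e2 : List.ofFn (p 0) = X := by
        rw [hp _ hlen]
        have h5 : P.head? = some (P[0]'hlen) := by
          rw [List.head?_eq_getElem?, List.getElem?_eq_getElem hlen]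
        rw [h5] at hPX
        simpa using hPX
      rw [← map_ofFn', e1, e2, ← hXY]
      apply adjL_reverse
      have : Y.length = n := by
        have h6 : Y.reverse.length = (X.map g).length := by rw [hXY]
        simp only [List.length_reverse, List.length_map] at h6
        rw [h6, hX.length]; simp
      omega
  have hshift : ∀ i, x (i + L) = g * x i := by
    intro i
    show g ^ ((i + L) / L) * p ((i + L) % L) = g * (g ^ (i / L) * p (i % L))
    rw [Nat.add_div_right _ hlen, Nat.add_mod_right, ← mul_assoc, ← pow_succ']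
  have hshiftm : ∀ t i, x (i + L * t) = g ^ t * x i := by
    intro t
    induction t with
    | zero => intro i; simp
    | succ t ih =>
      intro i
      rw [Nat.mul_succ, ← add_assoc, hshift, ih, ← mul_assoc, ← pow_succ']
  refine ⟨x, ⟨?_, ?_, ?_, hadj⟩, ?_, leftIso n g, ?_⟩
  · rw [Fintype.card_perm, Fintype.card_fin]
    calc 3 ≤ 5 := by norm_num
      _ ≤ n := hn
      _ ≤ n.factorial := Nat.self_le_factorial n
  · intro i
    rw [hcard, hshiftm, pow_orderOf_eq_one, one_mul]
  · intro i j hi hj he
    rw [hcard] at hi hj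
    have hi' : i / L < k := Nat.div_lt_of_lt_mul hi
    have hj' : j / L < k := Nat.div_lt_of_lt_mul hj
    obtain ⟨h1, h2⟩ := hinj _ _ _ _ hi' hj' (Nat.mod_lt i hlen) (Nat.mod_lt j hlen) he
    rw [← Nat.div_add_mod i L, ← Nat.div_add_mod j L, h1, h2]
  · exact ⟨L, by rw [hcard, mul_comm]⟩
  · intro i
    have : Fintype.card (Equiv.Perm (Fin n)) / k = L := by
      rw [hcard]; exact Nat.mul_div_cancel _ hk0
    rw [this, hshift]
    rfl

/-- upper bound for five or more symbols -/
theorem symm_le {n : ℕ} (hn : 5 ≤ n) (x : ℕ → Equiv.Perm (Fin n))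
    (hx : IsHamCycle (pancake n) x) (k : ℕ) (hk : IsSymm (pancake n) x k) : k ≤ landau n := by
  obtain ⟨hdvd, f, hf⟩ := hk
  obtain ⟨g, hg⟩ := aut_left hn f
  have hN : 0 < Fintype.card (Equiv.Perm (Fin n)) := Fintype.card_pos
  obtain ⟨L, hL⟩ := hdvd
  have hk0 : 0 < k := by
    rcases Nat.eq_zero_or_pos k with h | h
    · rw [h, zero_mul] at hL; omega
    · exact h
  have hL0 : 0 < L := by
    rcases Nat.eq_zero_or_pos L with h | h
    · rw [h, mul_zero] at hL; omega
    · exact h
  have hdiv : Fintype.card (Equiv.Perm (Fin n)) / k = L := by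
    rw [hL]; exact Nat.mul_div_cancel_left _ hk0
  have hstep : ∀ t, g ^ t * x 0 = x (t * L) := by
    intro t
    induction t with
    | zero => simp
    | succ t ih =>
      rw [pow_succ', mul_assoc, ih, ← hg, hf, hdiv, Nat.succ_mul]
  have hle : k ≤ orderOf g := by
    by_contra hlt
    push Not at hlt
    have h1 := hstep (orderOf g)
    rw [pow_orderOf_eq_one, one_mul] at h1
    have h2 : orderOf g * L < Fintype.card (Equiv.Perm (Fin n)) := by
      rw [hL]; exact Nat.mul_lt_mul_of_pos_right hlt hL0
    have h3 := hx.inj 0 _ hN h2 h1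
    have h4 : 0 < orderOf g * L := Nat.mul_pos (orderOf_pos g) hL0
    omega
  exact hle.trans (orderOf_le_landau g)

end Pool.Agent.H37.Pan
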