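import Mathlib

/-!
Definitions for MP_2ae182_co (Hamilton compression of pancake graphs).
-/

namespace Pool.Agent.H37.Pan

/-- The prefix reversal of the first `k` entries as a map on positions `0, 1, ..., n-1`
(it is the identity when `k > n`). -/
def revFun (n k : ℕ) (i : Fin n) : Fin n :=
  if h : i.val < k ∧ k ≤ n then ⟨k - 1 - i.val, by omega⟩ else i

theorem revFun_invol (n k : ℕ) : Function.Involutive (revFun n k) := by
  intro i
  unfold revFun
  by_cases h : i.val < k ∧ k ≤ n
  · have h2 : k - 1 - i.val < k ∧ k ≤ n := ⟨by omega, h.2⟩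
    rw [dif_pos h]
    simp only [h2, and_self, dif_pos]
    apply Fin.ext
    simp only
    omega
  · rw [dif_neg h, dif_neg h]

/-- The prefix reversal `r_k` as a permutation of the positions. -/
def r (n k : ℕ) : Equiv.Perm (Fin n) := (revFun_invol n k).toPerm (revFun n k)

/-- The pancake graph: vertices are the permutations `π` of `Fin n` (one-line form
`π 0, π 1, ..., π (n-1)`), and `π` is adjacent to `π * r_k` for `2 ≤ k ≤ n`. -/
def pancake (n : ℕ) : SimpleGraph (Equiv.Perm (Fin n)) where
  Adj π σ := ∃ k, 2 ≤ k ∧ k ≤ n ∧ σ = π * r n k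
  symm := by
    constructor
    rintro π σ ⟨k, h2, hn, rfl⟩
    refine ⟨k, h2, hn, ?_⟩
    rw [mul_assoc]
    have : r n k * r n k = 1 := by
      ext i
      simp [r, Equiv.Perm.mul_apply, (revFun_invol n k) i]
    rw [this, mul_one]
  loopless := by
    constructor
    rintro π ⟨k, h2, hn, h⟩
    have h1 : r n k = 1 := by
      have := congrArg (fun τ => π⁻¹ * τ) h
      simpa using this.symm
    have h3 := congrArg (fun τ : Equiv.Perm (Fin n) => (τ ⟨0, by omega⟩).val) h1
    have h4 : ((r n k) ⟨0, by omega⟩).val = k - 1 := by
      simp only [r, Function.Involutive.coe_toPerm, revFun]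
      rw [dif_pos ⟨by omega, hn⟩]
      simp
    simp only [Equiv.Perm.coe_one, id_eq] at h3
    rw [h4] at h3
    omega

section general
variable {V : Type*} [Fintype V]

/-- A Hamiltonian cycle `(x_0, ..., x_{N-1})` of `G`, `N` the number of vertices: a cyclic
enumeration of all vertices (each exactly once) in which consecutive ones are adjacent
(indices taken mod `N`), and `N ≥ 3`. -/
structure IsHamCycle (G : SimpleGraph V) (x : ℕ → V) : Prop where
  three : 3 ≤ Fintype.card V
  period : ∀ i, x (i + Fintype.card V) = x i
  inj : ∀ i j, i < Fintype.card V → j < Fintype.card V → x i = x j → i = j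
  adj : ∀ i, G.Adj (x i) (x (i + 1))

/-- `C = (x_i)` is `k`-symmetric: `k` divides the number `N` of vertices and some automorphism
`f` of `G` satisfies `f (x_i) = x_{i + N/k}` for all `i`. -/
def IsSymm (G : SimpleGraph V) (x : ℕ → V) (k : ℕ) : Prop :=
  k ∣ Fintype.card V ∧ ∃ f : G ≃g G, ∀ i, f (x i) = x (i + Fintype.card V / k)

/-- The compression factor of a Hamiltonian cycle: the largest `k` for which it is
`k`-symmetric. -/
noncomputable def kappaCycle (G : SimpleGraph V) (x : ℕ → V) : ℕ :=
  sSup {k | IsSymm G x k}

/-- The Hamilton compression of `G`: the maximum of the compression factor over all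
Hamiltonian cycles. -/
noncomputable def kappa (G : SimpleGraph V) : ℕ :=
  sSup {m | ∃ x : ℕ → V, IsHamCycle G x ∧ m = kappaCycle G x}

end general

/-- Landau's function: the largest order of a permutation of `n` points. -/
noncomputable def landau (n : ℕ) : ℕ :=
  sSup {m | ∃ g : Equiv.Perm (Fin n), m = orderOf g}

end Pool.Agent.H37.Pan
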