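import Pool.Agent.H37.Pan.D5

/-!
The base case with five symbols: checking the tables.
-/

namespace Pool.Agent.H37.Pan.D5
set_option linter.unusedSectionVars false

open Pool.Agent.H37.Pan Pool.Agent.H37.Pan.Cert

/-- neighbours -/
def nb (i k : ℕ) : ℕ := Nat.mod (Nat.shiftRight nbT (Nat.add (Nat.mul 28 i) (Nat.mul 7 k))) 128

/-- last symbol -/
def lastN (i : ℕ) : ℕ := Nat.mod (Nat.shiftRight lastT (Nat.mul 3 i)) 8

/-- action of a permutation given by its table -/
def lmF (T i : ℕ) : ℕ := Nat.mod (Nat.shiftRight T (Nat.mul 7 i)) 128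

noncomputable def addOrb' (T : ℕ) (j : ℕ) : ℕ → ℕ → ℕ :=
  Nat.rec (motive := fun _ => ℕ → ℕ → ℕ) (fun _ mask => mask)
    (fun _ ih cur mask => ih (Nat.mod (Nat.shiftRight T (Nat.mul 7 cur)) 128)
      (Nat.lor mask (Nat.shiftLeft 1 cur))) j

noncomputable def run' (T ord full b : ℕ) (len : ℕ) : ℕ → ℕ → ℕ → Bool :=
  Nat.rec (motive := fun _ => ℕ → ℕ → ℕ → Bool)
    (fun _ cur mask => Bool.and (Nat.beq (Nat.land (Nat.shiftRight mask cur) 1) 0)
        (Bool.and (Nat.beq cur b) (Nat.beq (addOrb' T ord cur mask) full)))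
    (fun _ ih code cur mask => Bool.and (Nat.beq (Nat.land (Nat.shiftRight mask cur) 1) 0)
      (ih (Nat.div code 4) (Nat.mod (Nat.shiftRight nbT (Nat.add (Nat.mul 28 cur)
        (Nat.mul 7 (Nat.mod code 4)))) 128)
        (addOrb' T ord cur mask))) len

noncomputable def excl' (T l : ℕ) (j : ℕ) : ℕ → Bool :=
  Nat.rec (motive := fun _ => ℕ → Bool) (fun _ => false)
    (fun _ ih cur => Bool.or (Nat.beq (lastN cur) l)
      (ih (Nat.mod (Nat.shiftRight T (Nat.mul 7 cur)) 128))) j

noncomputable def okY' (T ord w len C y : ℕ) : Bool :=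
  Bool.or (excl' T (lastN y) ord 0)
    (run' T ord (2 ^ 120 - 1) y len
      (Nat.mod (Nat.shiftRight C (Nat.mul w y)) (2 ^ w)) 0 0)

noncomputable def allY' (T ord w len C : ℕ) (j : ℕ) : Bool :=
  Nat.rec (motive := fun _ => Bool) true (fun y ih => Bool.and (okY' T ord w len C y) ih) j

noncomputable def okG' (g : ℕ) : Bool :=
  let T := lmL.getD g 0
  let ord := ordL.getD g 0
  let C := codeL.getD g 0
  allY' T ord (2 * (120 / ord)) (120 / ord - 1) C 120

noncomputable def okR (a : ℕ) (j : ℕ) : Bool :=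
  Nat.rec (motive := fun _ => Bool) true (fun y ih => Bool.and (okG' (Nat.add a y)) ih) j

theorem okR_spec (a : ℕ) : ∀ j, okR a j = true → ∀ g, a ≤ g → g < a + j → okG' g = true := by
  intro j
  induction j with
  | zero => intro _ g h1 h2; omega
  | succ j ih =>
    intro h g h1 h2
    have h' : Bool.and (okG' (Nat.add a j)) (okR a j) = true := h
    rw [Bool.and_eq_true] at h'
    by_cases e : g = a + j
    · rw [e]; exact h'.1
    · exact ih h'.2 g h1 (by omega)

theorem okR1 : okR 0 30 = true := by decide +kernel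
theorem okR2 : okR 30 30 = true := by decide +kernel
theorem okR3 : okR 60 30 = true := by decide +kernel
theorem okR4 : okR 90 30 = true := by decide +kernel

theorem okG_all (g : ℕ) (hg : g < 120) : okG' g = true := by
  rcases Nat.lt_or_ge g 30 with h | h
  · exact okR_spec 0 30 okR1 g (by omega) (by omega)
  rcases Nat.lt_or_ge g 60 with h' | h'
  · exact okR_spec 30 30 okR2 g (by omega) (by omega)
  rcases Nat.lt_or_ge g 90 with h'' | h''
  · exact okR_spec 60 30 okR3 g (by omega) (by omega)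
  · exact okR_spec 90 30 okR4 g (by omega) (by omega)

end Pool.Agent.H37.Pan.D5
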