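import Pool.Agent.H37.Pan.G5

/-!
The base case with five symbols: specification of the tables.
-/

namespace Pool.Agent.H37.Pan.D5
set_option linter.unusedSectionVars false

open Pool.Agent.H37.Pan Pool.Agent.H37.Pan.Cert

/-- the string with a given index -/
def str (i : ℕ) : List (Fin 5) := strL.getD i []

/-- lexicographic index -/
def rank (a b c d e : Fin 5) : ℕ :=
  let lt (x y : Fin 5) : ℕ := if x.val < y.val then 1 else 0
  24 * (lt b a + lt c a + lt d a + lt e a) + 6 * (lt c b + lt d b + lt e b) +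
    2 * (lt d c + lt e c) + lt e d

theorem rank_spec : ∀ a b c d e : Fin 5, [a, b, c, d, e].Nodup →
    rank a b c d e < 120 ∧ str (rank a b c d e) = [a, b, c, d, e] := by decide +kernel

def rankL : List (Fin 5) → ℕ
  | [a, b, c, d, e] => rank a b c d e
  | _ => 0

theorem rankL_str : ∀ i, i < 120 → rankL (str i) = i := by
  have : ∀ i : Fin 120, rankL (str i.val) = i.val := by decide +kernel
  intro i hi
  exact this ⟨i, hi⟩

theorem str_nodup : ∀ i, i < 120 → (str i).Nodup ∧ (str i).length = 5 := by
  have : ∀ i : Fin 120, (str i.val).Nodup ∧ (str i.val).length = 5 := by decide +kernel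
  intro i hi
  exact this ⟨i, hi⟩

theorem str_Str (i : ℕ) (hi : i < 120) : Str Finset.univ (str i) := by
  obtain ⟨h1, h2⟩ := str_nodup i hi
  refine ⟨h1, fun a => ⟨fun _ => Finset.mem_univ a, fun _ => ?_⟩⟩
  have h3 : (str i).toFinset = Finset.univ := by
    apply Finset.eq_univ_of_card
    rw [List.toFinset_card_of_nodup h1, h2]; rfl
  rw [← List.mem_toFinset, h3]
  exact Finset.mem_univ a

theorem str_surj (s : List (Fin 5)) (hs : Str Finset.univ s) : ∃ i, i < 120 ∧ str i = s := by
  have hl : s.length = 5 := by rw [hs.length]; rfl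
  match s, hl with
  | [a, b, c, d, e], _ =>
    obtain ⟨h1, h2⟩ := rank_spec a b c d e hs.1
    exact ⟨_, h1, h2⟩

theorem str_inj (i j : ℕ) (hi : i < 120) (hj : j < 120) (h : str i = str j) : i = j := by
  rw [← rankL_str i hi, ← rankL_str j hj, h]

theorem nb_spec : ∀ i, i < 120 → ∀ k, k + 2 ≤ 5 →
    nb i k < 120 ∧ str (nb i k) = pr (k + 2) (str i) := by
  have : ∀ i : Fin 120, ∀ k : Fin 4, nb i.val k.val < 120 ∧
      str (nb i.val k.val) = pr (k.val + 2) (str i.val) := by decide +kernel
  intro i hi k hk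
  exact this ⟨i, hi⟩ ⟨k, by omega⟩

theorem last_spec : ∀ i, i < 120 → ∀ t w, str i = t ++ [w] → lastN i = w.val := by
  have : ∀ i : Fin 120, (str i.val).getLast?.map Fin.val = some (lastN i.val) := by
    decide +kernel
  intro i hi t w h
  have h1 := this ⟨i, hi⟩
  simp only [h, List.getLast?_append, List.getLast?_singleton, Option.some_or,
    Option.map_some, Option.some.injEq] at h1
  exact h1.symm

/-- the action tables, checked row by row -/
noncomputable def rowOK (T : ℕ) (s : List (Fin 5)) (j : ℕ) : Bool :=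
  Nat.rec (motive := fun _ => Bool) true (fun i ih =>
    Bool.and (Bool.and (Nat.blt (lmF T i) 120)
      (decide (str (lmF T i) = (str i).map (fun a => s.getD a.val 0)))) ih) j

noncomputable def rowsOK (a : ℕ) (j : ℕ) : Bool :=
  Nat.rec (motive := fun _ => Bool) true (fun g ih =>
    Bool.and (rowOK (lmL.getD (Nat.add a g) 0) (str (Nat.add a g)) 120) ih) j

theorem rows1 : rowsOK 0 120 = true := by decide +kernel

theorem rowOK_spec (T : ℕ) (s : List (Fin 5)) : ∀ j, rowOK T s j = true → ∀ i, i < j →
    lmF T i < 120 ∧ str (lmF T i) = (str i).map (fun a => s.getD a.val 0) := by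
  intro j
  induction j with
  | zero => intro _ i hi; omega
  | succ j ih =>
    intro h i hi
    have h' : Bool.and (Bool.and (Nat.blt (lmF T j) 120)
      (decide (str (lmF T j) = (str j).map (fun a => s.getD a.val 0)))) (rowOK T s j) = true := h
    rw [Bool.and_eq_true, Bool.and_eq_true, decide_eq_true_eq] at h'
    by_cases e : i = j
    · rw [e]
      exact ⟨by simpa [Nat.blt_eq] using h'.1.1, h'.1.2⟩
    · exact ih h'.2 i (by omega)

theorem rowsOK_spec : ∀ j, rowsOK 0 j = true → ∀ g, g < j →
    rowOK (lmL.getD g 0) (str g) 120 = true := by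
  intro j
  induction j with
  | zero => intro _ g h2; omega
  | succ j ih =>
    intro h g h2
    have h' : Bool.and (rowOK (lmL.getD (Nat.add 0 j) 0) (str (Nat.add 0 j)) 120)
      (rowsOK 0 j) = true := h
    rw [Bool.and_eq_true] at h'
    by_cases e : g = j
    · have e' : Nat.add 0 j = g := by rw [e]; exact Nat.zero_add j
      rw [e'] at h'
      exact h'.1
    · exact ih h'.2 g (by omega)

theorem ord_spec : ∀ g, g < 120 → 0 < ordL.getD g 0 ∧
    (lmF (lmL.getD g 0))^[ordL.getD g 0] 0 = 0 := by
  have : ∀ g : Fin 120, 0 < ordL.getD g.val 0 ∧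
    (lmF (lmL.getD g.val 0))^[ordL.getD g.val 0] 0 = 0 := by decide +kernel
  intro g hg
  exact this ⟨g, hg⟩

theorem testBit_land (mask cur : ℕ) :
    (!Nat.testBit mask cur) = Nat.beq (Nat.land (Nat.shiftRight mask cur) 1) 0 := by
  have h1 : Nat.land (Nat.shiftRight mask cur) 1 = (mask >>> cur) &&& 1 := rfl
  rw [h1, Nat.and_one_is_mod, Nat.testBit_eq_decide_div_mod_eq, Nat.shiftRight_eq_div_pow]
  rcases Nat.mod_two_eq_zero_or_one (mask / 2 ^ cur) with h | h <;> rw [h] <;> rfl

theorem addOrb'_eq (T : ℕ) : ∀ j cur mask, addOrb' T j cur mask = addOrb (lmF T) j cur mask := by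
  intro j
  induction j with
  | zero => intro cur mask; rfl
  | succ j ih =>
    intro cur mask
    rw [addOrb, ← ih]; rfl

theorem run'_eq (T ord full b : ℕ) : ∀ len code cur mask,
    run' T ord full b len code cur mask = run nb (lmF T) 4 ord full b len code cur mask := by
  intro len
  induction len with
  | zero =>
    intro code cur mask
    rw [run, ← addOrb'_eq, testBit_land]; rfl
  | succ len ih =>
    intro code cur mask
    rw [run, ← addOrb'_eq, ← ih, testBit_land]; rfl

theorem excl'_spec (T l : ℕ) : ∀ j cur, excl' T l j cur = true →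
    ∃ t, lastN ((lmF T)^[t] cur) = l := by
  intro j
  induction j with
  | zero => intro cur h; exact absurd h (by simp [excl'])
  | succ j ih =>
    intro cur h
    have h' : Bool.or (Nat.beq (lastN cur) l) (excl' T l j (lmF T cur)) = true := h
    rw [Bool.or_eq_true] at h'
    rcases h' with h' | h'
    · exact ⟨0, Nat.eq_of_beq_eq_true h'⟩
    · obtain ⟨t, ht⟩ := ih _ h'
      exact ⟨t + 1, ht⟩

theorem allY'_spec (T ord w len C : ℕ) : ∀ j, allY' T ord w len C j = true → ∀ y, y < j →
    okY' T ord w len C y = true := by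
  intro j
  induction j with
  | zero => intro _ y h2; omega
  | succ j ih =>
    intro h y h2
    have h' : Bool.and (okY' T ord w len C j) (allY' T ord w len C j) = true := h
    rw [Bool.and_eq_true] at h'
    by_cases e : y = j
    · rw [e]; exact h'.1
    · exact ih h'.2 y (by omega)

/-- the base case over `Fin 5`, starting from the standard string -/
theorem fin5 (g : Equiv.Perm (Fin 5)) (y : List (Fin 5)) (v : Fin 5)
    (hy : Str Finset.univ (y ++ [v])) (hv : ¬ R (Subgroup.zpowers g) 4 v) :
    HP (Subgroup.zpowers g) (Str Finset.univ) [0, 1, 2, 3, 4] (y ++ [v]) := by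
  have hs : Str Finset.univ [g 0, g 1, g 2, g 3, g 4] := by
    have h1 : Str Finset.univ (str 0) := str_Str 0 (by norm_num)
    have h2 : [g 0, g 1, g 2, g 3, g 4] = (str 0).map g := by
      have : str 0 = [0, 1, 2, 3, 4] := by decide +kernel
      rw [this]; rfl
    rw [h2]
    exact h1.map (H := ⊤) (fun _ _ _ _ => Finset.mem_univ _) trivial
  obtain ⟨gi, hgi, hgs⟩ := str_surj _ hs
  have hfun : (fun a : Fin 5 => (str gi).getD a.val 0) = g := by
    funext a
    rw [hgs]
    fin_cases a <;> rfl
  have hrow := rowOK_spec _ _ 120 (rowsOK_spec 120 rows1 gi hgi)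
  rw [hfun] at hrow
  obtain ⟨ho1, ho2⟩ := ord_spec gi hgi
  set T := lmL.getD gi 0 with hT
  set ord := ordL.getD gi 0 with hord
  have hit : ∀ t i, i < 120 → (lmF T)^[t] i < 120 ∧
      str ((lmF T)^[t] i) = (str i).map (g ^ t : Equiv.Perm (Fin 5)) := by
    intro t
    induction t with
    | zero => intro i hi; simp [hi]
    | succ t ih =>
      intro i hi
      rw [Function.iterate_succ_apply']
      obtain ⟨h1, h2⟩ := ih i hi
      obtain ⟨h3, h4⟩ := hrow _ h1
      refine ⟨h3, ?_⟩
      rw [h4, h2, List.map_map, pow_succ']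
      rfl
  have hs0 : str 0 = [0, 1, 2, 3, 4] := by decide +kernel
  have hg1 : g ^ ord = 1 := by
    have h5 := (hit ord 0 (by norm_num)).2
    rw [ho2, hs0] at h5
    simp only [List.map_cons, List.map_nil, List.cons.injEq, and_true] at h5
    ext a
    rw [Equiv.Perm.one_apply]
    obtain ⟨a0, a1, a2, a3, a4⟩ := h5
    fin_cases a
    · exact congrArg Fin.val a0.symm
    · exact congrArg Fin.val a1.symm
    · exact congrArg Fin.val a2.symm
    · exact congrArg Fin.val a3.symm
    · exact congrArg Fin.val a4.symm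
  obtain ⟨yi, hyi, hys⟩ := str_surj _ hy
  have hall : allY' T ord (2 * (120 / ord)) (120 / ord - 1) (codeL.getD gi 0) 120 = true :=
    okG_all gi hgi
  have hok := allY'_spec _ _ _ _ _ 120 hall yi hyi
  have hok' : Bool.or (excl' T (lastN yi) ord 0)
    (run' T ord (2 ^ 120 - 1) yi (120 / ord - 1)
      (Nat.mod (Nat.shiftRight (codeL.getD gi 0) (Nat.mul (2 * (120 / ord)) yi))
        (2 ^ (2 * (120 / ord)))) 0 0) = true := hok
  rw [Bool.or_eq_true] at hok'
  rcases hok' with h | h
  · exfalso
    apply hv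
    obtain ⟨t, ht⟩ := excl'_spec _ _ _ _ h
    refine ⟨g ^ t, Subgroup.mem_zpowers_iff.mpr ⟨t, by simp⟩, ?_⟩
    obtain ⟨h1, h2⟩ := hit t 0 (by norm_num)
    rw [hs0] at h2
    have h3 : str ((lmF T)^[t] 0) = ([0, 1, 2, 3].map (g ^ t : Equiv.Perm (Fin 5))) ++
        [(g ^ t : Equiv.Perm (Fin 5)) 4] := by rw [h2]; rfl
    have h4 := last_spec _ h1 _ _ h3
    have h5 := last_spec _ hyi _ _ hys
    rw [ht, h5] at h4
    exact Fin.ext h4.symm
  · rw [run'_eq] at h
    have := run_HP 120 str nb (lmF T) g ord (by norm_num) str_surj str_Str str_inj nb_spec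
      hrow hg1 ho1 0 yi _ _ (by norm_num) h
    rw [hs0, hys] at this
    exact this

end Pool.Agent.H37.Pan.D5
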