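import Pool.Agent.H37.Pan.Chain

/-!
The induction step for cyclic groups: generic part.
-/

namespace Pool.Agent.H37.Pan
set_option linter.unusedSectionVars false

variable {α : Type} [DecidableEq α]

def Cyc (H : Subgroup (Equiv.Perm α)) : Prop := ∃ g, H = Subgroup.zpowers g

theorem Cyc.comm {H : Subgroup (Equiv.Perm α)} (hH : Cyc H) {a b : Equiv.Perm α} (ha : a ∈ H)
    (hb : b ∈ H) : a * b = b * a := by
  obtain ⟨g, rfl⟩ := hH
  obtain ⟨i, rfl⟩ := Subgroup.mem_zpowers_iff.mp ha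
  obtain ⟨j, rfl⟩ := Subgroup.mem_zpowers_iff.mp hb
  rw [← zpow_add, ← zpow_add, add_comm]

theorem Cyc.of_le {H K : Subgroup (Equiv.Perm α)} (hH : Cyc H) (hK : K ≤ H) : Cyc K := by
  obtain ⟨g, rfl⟩ := hH
  have h1 : IsCyclic (K.subgroupOf (Subgroup.zpowers g)) := inferInstance
  obtain ⟨⟨⟨k, hk1⟩, hk2⟩, hk⟩ := h1
  refine ⟨k, ?_⟩
  ext x
  constructor
  · intro hx
    obtain ⟨i, hi⟩ := hk ⟨⟨x, hK hx⟩, hx⟩
    refine Subgroup.mem_zpowers_iff.mpr ⟨i, ?_⟩
    have := congrArg (fun z => ((z : Subgroup.zpowers g) : Equiv.Perm α)) (congrArg Subtype.val hi)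
    simpa using this
  · intro hx
    obtain ⟨i, hi⟩ := Subgroup.mem_zpowers_iff.mp hx
    rw [← hi]
    exact K.zpow_mem hk2 i

theorem Cyc.stab {H : Subgroup (Equiv.Perm α)} (hH : Cyc H) (v : α) :
    Cyc (Pool.Agent.H37.Pan.stab H v) := hH.of_le (stab_le H v)

theorem Inv.stab {H : Subgroup (Equiv.Perm α)} {A : Finset α} (hH : Inv H A) (v : α) :
    Inv (Pool.Agent.H37.Pan.stab H v) (A.erase v) := by
  rintro h ⟨hh, hv⟩ a ha
  rw [Finset.mem_erase] at ha ⊢
  refine ⟨?_, hH h hh a ha.2⟩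
  intro e
  apply ha.1
  have : h a = h v := by rw [e, hv]
  exact h.injective this

/-- the symbols in the orbit of `v` are fixed by the stabilizer of `v` -/
theorem stab_fix {H : Subgroup (Equiv.Perm α)} (hH : Cyc H) {v w : α} (hw : R H v w)
    {h : Equiv.Perm α} (hh : h ∈ stab H v) : h w = w := by
  obtain ⟨k, hk, rfl⟩ := hw
  have h1 := hH.comm hh.1 hk
  calc h (k v) = (h * k) v := rfl
    _ = (k * h) v := by rw [h1]
    _ = k v := by rw [Equiv.Perm.mul_apply, hh.2]

theorem stab_rel_left {H : Subgroup (Equiv.Perm α)} (hH : Cyc H) {v w b : α} (hw : R H v w)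
    (h : R (stab H v) w b) : b = w := by
  obtain ⟨k, hk, rfl⟩ := h
  exact stab_fix hH hw hk

theorem stab_rel_right {H : Subgroup (Equiv.Perm α)} (hH : Cyc H) {v w b : α} (hw : R H v w)
    (h : R (stab H v) b w) : b = w := stab_rel_left hH hw h.symm

/-- `v` is fixed by the group -/
def Fx (H : Subgroup (Equiv.Perm α)) (v : α) : Prop := ∀ h ∈ H, h v = v

theorem Fx.left {H : Subgroup (Equiv.Perm α)} {v b : α} (hv : Fx H v) (h : R H v b) : b = v := by
  obtain ⟨k, hk, rfl⟩ := h
  exact hv k hk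

theorem Fx.right {H : Subgroup (Equiv.Perm α)} {v b : α} (hv : Fx H v) (h : R H b v) : b = v :=
  hv.left h.symm

/-- the claim proved by induction on the number of symbols -/
def GP (α : Type) [DecidableEq α] (n : ℕ) : Prop :=
  ∀ A : Finset α, A.card = n → ∀ H : Subgroup (Equiv.Perm α), Cyc H → Inv H A →
    ∀ x y : List α, ∀ u v : α, Str A (x ++ [u]) → Str A (y ++ [v]) → ¬ R H u v →
      HP H (Str A) (x ++ [u]) (y ++ [v])

theorem seg {n : ℕ} (hG : GP α n) {A : Finset α} (hA : A.card = n + 1)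
    {H : Subgroup (Equiv.Perm α)} (hH : Cyc H) (hI : Inv H A) {x y : List α} {ξ η v : α}
    (hx : Str A (x ++ [ξ] ++ [v])) (hy : Str A (y ++ [η] ++ [v])) (hne : ¬ R (stab H v) ξ η) :
    HP H (PU H A [v]) (x ++ [ξ] ++ [v]) (y ++ [η] ++ [v]) := by
  have hv : v ∈ A := hx.mem_last
  have h1 := hG (A.erase v) (by rw [Finset.card_erase_of_mem hv]; omega) (stab H v)
    (hH.stab v) (hI.stab v) x y ξ η hx.dropLast hy.dropLast hne
  exact (HP.lift h1).congr (fun s => liftP_str hI hv s)

/-- chain claim -/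
def CC (H : Subgroup (Equiv.Perm α)) (A : Finset α) (v : α) (vs : List α) (ξ : α)
    (y : List α) : Prop :=
  ∀ x, Str A (x ++ [ξ] ++ [v]) → HP H (PU H A (v :: vs)) (x ++ [ξ] ++ [v]) y

section
variable {n : ℕ} (hn : 5 ≤ n) (hG : GP α n) {A : Finset α} (hA : A.card = n + 1)
  {H : Subgroup (Equiv.Perm α)} (hH : Cyc H) (hI : Inv H A)

include hn hG hA hH hI

theorem cc_one {y : List α} {v ξ η : α} (hy : Str A (y ++ [η] ++ [v]))
    (hne : ¬ R (stab H v) ξ η) : CC H A v [] ξ (y ++ [η] ++ [v]) := by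
  intro x hx
  exact seg hG hA hH hI hx hy hne

theorem cc_cons {y : List α} {v v' ξ a b : α} {vs : List α} (hv : v ∈ A) (hv' : v' ∈ A)
    (ha : a ∈ A) (hb : b ∈ A) (hav : a ≠ v) (hav' : a ≠ v') (hbv : b ≠ v) (hbv' : b ≠ v')
    (hab : a ≠ b) (hsep : ∀ w ∈ v' :: vs, ¬ R H v w) (hξ : ¬ R (stab H v) ξ b)
    (hc : CC H A v' vs a y) : CC H A v (v' :: vs) ξ y := by
  intro x hx
  have hvv' : v ≠ v' := fun e => hsep v' (by simp) (by rw [← e]; exact R.refl H v)
  obtain ⟨m, hm⟩ := exists_mk4 hv' ha hb hv (Ne.symm hav') (Ne.symm hbv') (Ne.symm hvv') hab hav hbv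
  have hm1 : Str A ((v' :: a :: m) ++ [b] ++ [v]) := by simpa using hm
  have hm2 : Str A ((v :: b :: m.reverse) ++ [a] ++ [v']) := by
    have := hm.reverse
    simpa using this
  have h1 := seg hG hA hH hI hx hm1 hξ
  have h2 := hc _ hm2
  have h3 : AdjL ((v' :: a :: m) ++ [b] ++ [v]) ((v :: b :: m.reverse) ++ [a] ++ [v']) := by
    have h4 : (v :: b :: m.reverse) ++ [a] ++ [v'] = ((v' :: a :: m) ++ [b] ++ [v]).reverse := by
      simp
    rw [h4]
    exact adjL_reverse (by simp)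
  refine (h1.glue h2 h3 (PU.sep ?_)).congr (fun s => (PU_cons s).symm)
  intro w hw w' hw' hr
  simp only [List.mem_singleton] at hw
  subst hw
  exact hsep w' hw' hr

/-- if the stabilizer of `v` is transitive on all but three symbols then it is everything -/
theorem fx_of_trans {v p q ξ : α} (hv : v ∈ A) (hp : ¬ R H v p) (hq : ¬ R H v q)
    (h : ∀ c ∈ A, c ≠ v → c ≠ p → c ≠ q → R (stab H v) ξ c) : Fx H v := by
  intro k hk
  by_contra hne
  have hwA : k v ∈ A := hI k hk v hv
  have hw : R H v (k v) := ⟨k, hk, rfl⟩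
  have hwp : k v ≠ p := fun e => hp (e ▸ hw)
  have hwq : k v ≠ q := fun e => hq (e ▸ hw)
  have h1 : ξ = k v := stab_rel_right hH hw (h _ hwA hne hwp hwq)
  obtain ⟨c, hcA, hc⟩ := pick (A := A) {v, p, q, k v}
    (lt_of_le_of_lt Finset.card_le_four (by omega))
  simp only [Finset.mem_insert, Finset.mem_singleton, not_or] at hc
  have h2 := h c hcA hc.1 hc.2.1 hc.2.2.1
  rw [h1] at h2
  exact hc.2.2.2 (stab_rel_left hH hw h2)

/-- chains in the middle -/
theorem mid (y' : List α) (η w : α) (hy : Str A (y' ++ [η] ++ [w])) :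
    ∀ (vs : List α) (v0 v1 v2 : α), (v0 :: v1 :: v2 :: vs).Pairwise (fun a b => ¬ R H a b) →
      (∀ a ∈ v0 :: v1 :: v2 :: vs, a ∈ A) → (v2 :: vs).getLast? = some w →
      (∀ pre a b, v1 :: v2 :: vs = pre ++ [a, b] →
        ¬ (Fx H b ∧ ∀ c ∈ A, c ≠ a → c ≠ b → R H η c)) →
      CC H A v1 (v2 :: vs) v2 (y' ++ [η] ++ [w]) := by
  intro vs
  induction vs with
  | nil =>
    intro v0 v1 v2 hpw hmem hlast hNE
    simp only [List.getLast?_singleton, Option.some.injEq] at hlast
    subst hlast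
    have hv0 : v0 ∈ A := hmem v0 (by simp)
    have hv1 : v1 ∈ A := hmem v1 (by simp)
    have hv2 : v2 ∈ A := hmem v2 (by simp)
    simp only [List.pairwise_cons, List.mem_cons, List.not_mem_nil, or_false, forall_eq_or_imp,
      forall_eq, IsEmpty.forall_iff, implies_true, List.Pairwise.nil, and_true] at hpw
    obtain ⟨⟨h01, h02⟩, h12⟩ := hpw
    have e01 : v0 ≠ v1 := fun e => h01 (by rw [e]; exact R.refl H _)
    have e02 : v0 ≠ v2 := fun e => h02 (by rw [e]; exact R.refl H _)
    have e12 : v1 ≠ v2 := fun e => h12 (by rw [e]; exact R.refl H _)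
    by_cases hcase : ∃ a ∈ A, a ≠ v0 ∧ a ≠ v1 ∧ a ≠ v2 ∧ ¬ R (stab H v2) a η
    · obtain ⟨a, haA, ha0, ha1, ha2, haη⟩ := hcase
      refine cc_cons hn hG hA hH hI hv1 hv2 haA hv0 ha1 ha2 e01 e02 ha0 (by simpa using h12) ?_
        (cc_one hn hG hA hH hI hy haη)
      intro hr
      exact h02 (R.mono (stab_le H v1) hr).symm
    · push Not at hcase
      have hfx : Fx H v2 := by
        refine fx_of_trans hn hG hA hH hI hv2 (p := v0) (q := v1) (ξ := η)
          (fun h => h02 h.symm) (fun h => h12 h.symm) ?_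
        intro c hc h2 h0 h1
        exact (hcase c hc h0 h1 h2).symm
      by_cases h0η : R H v0 η
      · exfalso
        refine hNE [] v1 v2 rfl ⟨hfx, ?_⟩
        intro c hc hc1 hc2
        by_cases hc0 : c = v0
        · rw [hc0]; exact h0η.symm
        · exact (R.mono (stab_le H v2) (hcase c hc hc0 hc1 hc2)).symm
      · obtain ⟨b, hbA, hb⟩ := pick (A := A) {v0, v1, v2}
          (lt_of_le_of_lt Finset.card_le_three (by omega))
        simp only [Finset.mem_insert, Finset.mem_singleton, not_or] at hb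
        refine cc_cons hn hG hA hH hI hv1 hv2 hv0 hbA e01 e02 hb.2.1 hb.2.2 (Ne.symm hb.1)
          (by simpa using h12) ?_
          (cc_one hn hG hA hH hI hy (fun h => h0η (R.mono (stab_le H v2) h)))
        intro hr
        exact hb.2.2 (hfx.left (R.mono (stab_le H v1) hr))
  | cons v3 vs ih =>
    intro v0 v1 v2 hpw hmem hlast hNE
    have hv0 : v0 ∈ A := hmem v0 (by simp)
    have hv1 : v1 ∈ A := hmem v1 (by simp)
    have hv2 : v2 ∈ A := hmem v2 (by simp)
    have hv3 : v3 ∈ A := hmem v3 (by simp)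
    have hpw' := hpw
    rw [List.pairwise_cons, List.pairwise_cons, List.pairwise_cons] at hpw'
    obtain ⟨p0, p1, p2, _⟩ := hpw'
    have ne : ∀ {a b}, ¬ R H a b → a ≠ b := fun h e => h (by rw [e]; exact R.refl H _)
    have h02 := p0 v2 (by simp)
    refine cc_cons hn hG hA hH hI hv1 hv2 hv3 hv0 (Ne.symm (ne (p1 v3 (by simp))))
      (Ne.symm (ne (p2 v3 (by simp)))) (ne (p0 v1 (by simp))) (ne h02)
      (Ne.symm (ne (p0 v3 (by simp)))) (fun w hw => p1 w hw) ?_
      (ih v1 v2 v3 hpw.tail (fun a ha => hmem a (List.mem_cons_of_mem _ ha)) (by simpa using hlast)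
        ?_)
    · intro hr
      exact h02 (R.mono (stab_le H v1) hr).symm
    · intro pre a b he
      exact hNE (v1 :: pre) a b (by rw [he]; rfl)

/-- three or more orbits, generic case -/
theorem top3 (y' : List α) (η w : α) (hy : Str A (y' ++ [η] ++ [w]))
    (vs : List α) (v1 v2 v3 ξ : α)
    (hpw : (v1 :: v2 :: v3 :: vs).Pairwise (fun a b => ¬ R H a b))
    (hmem : ∀ a ∈ v1 :: v2 :: v3 :: vs, a ∈ A)
    (hcov : ∀ c ∈ A, ∃ v ∈ v1 :: v2 :: v3 :: vs, R H v c)
    (hlast : (v3 :: vs).getLast? = some w)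
    (hE : ¬ (Fx H v1 ∧ ∀ c ∈ A, c ≠ v2 → c ≠ v1 → R H ξ c))
    (hNE : ∀ pre a b, v2 :: v3 :: vs = pre ++ [a, b] →
        ¬ (Fx H b ∧ ∀ c ∈ A, c ≠ a → c ≠ b → R H η c)) :
    CC H A v1 (v2 :: v3 :: vs) ξ (y' ++ [η] ++ [w]) := by
  have hv1 : v1 ∈ A := hmem v1 (by simp)
  have hv2 : v2 ∈ A := hmem v2 (by simp)
  have hv3 : v3 ∈ A := hmem v3 (by simp)
  have hpw' := hpw
  rw [List.pairwise_cons, List.pairwise_cons, List.pairwise_cons] at hpw'
  obtain ⟨p1, p2, p3, _⟩ := hpw'
  have ne : ∀ {a b}, ¬ R H a b → a ≠ b := fun h e => h (by rw [e]; exact R.refl H _)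
  have h12 := p1 v2 (by simp)
  have h13 := p1 v3 (by simp)
  have h23 := p2 v3 (by simp)
  by_cases hcase : ∃ b ∈ A, b ≠ v1 ∧ b ≠ v2 ∧ b ≠ v3 ∧ ¬ R (stab H v1) ξ b
  · obtain ⟨b, hbA, hb1, hb2, hb3, hbξ⟩ := hcase
    exact cc_cons hn hG hA hH hI hv1 hv2 hv3 hbA (Ne.symm (ne h13)) (Ne.symm (ne h23)) hb1 hb2
      (Ne.symm hb3) (fun w hw => p1 w hw) hbξ
      (mid hn hG hA hH hI y' η w hy vs v1 v2 v3 hpw hmem hlast hNE)
  · push Not at hcase
    have hfx : Fx H v1 := by
      refine fx_of_trans hn hG hA hH hI hv1 (p := v2) (q := v3) (ξ := ξ) h12 h13 ?_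
      intro c hc h1 h2 h3
      exact hcase c hc h1 h2 h3
    have hξ3 : ¬ R H ξ v3 := by
      intro hr
      apply hE
      refine ⟨hfx, ?_⟩
      intro c hc hc2 hc1
      by_cases hc3 : c = v3
      · rw [hc3]; exact hr
      · exact R.mono (stab_le H v1) (hcase c hc hc1 hc2 hc3)
    obtain ⟨a, haA, ha⟩ := pick (A := A) {v1, v2, v3}
      (lt_of_le_of_lt Finset.card_le_three (by omega))
    simp only [Finset.mem_insert, Finset.mem_singleton, not_or] at ha
    refine cc_cons hn hG hA hH hI hv1 hv2 haA hv3 ha.1 ha.2.1 (Ne.symm (ne h13))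
      (Ne.symm (ne h23)) ha.2.2 (fun w hw => p1 w hw)
      (fun h => hξ3 (R.mono (stab_le H v1) h)) ?_
    cases vs with
    | nil =>
      simp only [List.getLast?_singleton, Option.some.injEq] at hlast
      subst hlast
      by_cases hc2 : ∃ a' ∈ A, a' ≠ v1 ∧ a' ≠ v2 ∧ a' ≠ v3 ∧ ¬ R (stab H v3) a' η
      · obtain ⟨a', ha'A, h1, h2, h3, h4⟩ := hc2
        refine cc_cons hn hG hA hH hI hv2 hv3 ha'A hv1 h2 h3 (ne h12) (ne h13) h1
          (by simpa using h23) ?_ (cc_one hn hG hA hH hI hy h4)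
        intro hr
        exact ha.1 (hfx.right (R.mono (stab_le H v2) hr))
      · push Not at hc2
        have hη1 : ¬ R H v1 η := by
          intro hr
          have e := hfx.left hr
          have := R.mono (stab_le H v3) (hc2 a haA ha.1 ha.2.1 ha.2.2)
          rw [e] at this
          exact ha.1 (hfx.right this)
        obtain ⟨b, hbA, hb⟩ := pick (A := A) {v1, v2, v3, a}
          (lt_of_le_of_lt Finset.card_le_four (by omega))
        simp only [Finset.mem_insert, Finset.mem_singleton, not_or] at hb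
        have h2a : R H v2 a := by
          obtain ⟨z, hz, hr⟩ := hcov a haA
          simp only [List.mem_cons, List.not_mem_nil, or_false] at hz
          rcases hz with rfl | rfl | rfl
          · exact absurd (hfx.left hr) ha.1
          · exact hr
          · exfalso
            apply hξ3
            exact (R.mono (stab_le H v1) (hcase a haA ha.1 ha.2.1 ha.2.2)).trans hr.symm
        refine cc_cons hn hG hA hH hI hv2 hv3 hv1 hbA (ne h12) (ne h13) hb.2.1 hb.2.2.1
          (Ne.symm hb.1) (by simpa using h23) ?_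
          (cc_one hn hG hA hH hI hy (fun h => hη1 (R.mono (stab_le H v3) h)))
        intro hr
        exact hb.2.2.2 (stab_rel_left hH h2a hr)
    | cons v4 vs =>
      have hv4 : v4 ∈ A := hmem v4 (by simp)
      refine cc_cons hn hG hA hH hI hv2 hv3 hv4 hv1 (Ne.symm (ne (p2 v4 (by simp))))
        (Ne.symm (ne (p3 v4 (by simp)))) (ne h12) (ne h13) (Ne.symm (ne (p1 v4 (by simp))))
        (fun w hw => p2 w hw) ?_
        (mid hn hG hA hH hI y' η w hy vs v2 v3 v4 hpw.tail
          (fun a ha => hmem a (List.mem_cons_of_mem _ ha)) (by simpa using hlast) ?_)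
      · intro hr
        exact ha.1 (hfx.right (R.mono (stab_le H v2) hr))
      · intro pre a b he
        exact hNE (v2 :: pre) a b (by rw [he]; rfl)

/-- two orbits, both with at least two symbols -/
theorem top2 (y' : List α) (η v2 : α) (hy : Str A (y' ++ [η] ++ [v2])) (v1 ξ : α)
    (hv1 : v1 ∈ A) (h12 : ¬ R H v1 v2) (hf1 : ¬ Fx H v1) (hf2 : ¬ Fx H v2) :
    CC H A v1 [v2] ξ (y' ++ [η] ++ [v2]) := by
  have hv2 : v2 ∈ A := hy.mem_last
  have ne : ∀ {a b}, ¬ R H a b → a ≠ b := fun h e => h (by rw [e]; exact R.refl H _)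
  unfold Fx at hf1 hf2
  push Not at hf1 hf2
  obtain ⟨k1, hk1, hw1⟩ := hf1
  obtain ⟨k2, hk2, hw2⟩ := hf2
  have r1 : R H v1 (k1 v1) := ⟨k1, hk1, rfl⟩
  have r2 : R H v2 (k2 v2) := ⟨k2, hk2, rfl⟩
  set w1 := k1 v1
  set w2 := k2 v2
  have w1A : w1 ∈ A := hI k1 hk1 v1 hv1
  have w2A : w2 ∈ A := hI k2 hk2 v2 hv2
  have hw12 : w1 ≠ w2 := by
    intro e
    apply h12
    exact r1.trans (by rw [e]; exact r2.symm)
  have hw1v2 : w1 ≠ v2 := fun e => h12 (e ▸ r1)
  have hw2v1 : w2 ≠ v1 := fun e => h12 (e ▸ r2).symm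
  by_cases hξ : ξ = w1
  · by_cases hη : η = w2
    · subst hξ; subst hη
      refine cc_cons hn hG hA hH hI hv1 hv2 w1A w2A hw1 hw1v2 hw2v1 hw2 hw12
        (by simpa using h12) (fun h => hw12 (stab_rel_left hH r1 h).symm)
        (cc_one hn hG hA hH hI hy (fun h => hw12 (stab_rel_right hH r2 h)))
    · subst hξ
      obtain ⟨b, hbA, hb⟩ := pick (A := A) {v1, v2, w1, w2}
        (lt_of_le_of_lt Finset.card_le_four (by omega))
      simp only [Finset.mem_insert, Finset.mem_singleton, not_or] at hb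
      refine cc_cons hn hG hA hH hI hv1 hv2 w2A hbA hw2v1 hw2 hb.1 hb.2.1 (Ne.symm hb.2.2.2)
        (by simpa using h12) (fun h => hb.2.2.1 (stab_rel_left hH r1 h))
        (cc_one hn hG hA hH hI hy (fun h => hη (stab_rel_left hH r2 h)))
  · by_cases hη : η = w2
    · subst hη
      obtain ⟨a, haA, ha⟩ := pick (A := A) {v1, v2, w1, w2}
        (lt_of_le_of_lt Finset.card_le_four (by omega))
      simp only [Finset.mem_insert, Finset.mem_singleton, not_or] at ha
      refine cc_cons hn hG hA hH hI hv1 hv2 haA w1A ha.1 ha.2.1 hw1 hw1v2 ha.2.2.1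
        (by simpa using h12) (fun h => hξ (stab_rel_right hH r1 h))
        (cc_one hn hG hA hH hI hy (fun h => ha.2.2.2 (stab_rel_right hH r2 h)))
    · refine cc_cons hn hG hA hH hI hv1 hv2 w2A w1A hw2v1 hw2 hw1 hw1v2 (Ne.symm hw12)
        (by simpa using h12) (fun h => hξ (stab_rel_right hH r1 h))
        (cc_one hn hG hA hH hI hy (fun h => hη (stab_rel_left hH r2 h)))

end

/-- a list of representatives of the orbits -/
theorem reps {A : Finset α} {H : Subgroup (Equiv.Perm α)} {u v : α}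
    (hu : u ∈ A) (hv : v ∈ A) (huv : ¬ R H u v) :
    ∃ ms : List α, (u :: (ms ++ [v])).Pairwise (fun a b => ¬ R H a b) ∧
      (∀ a ∈ u :: (ms ++ [v]), a ∈ A) ∧ ∀ c ∈ A, ∃ w ∈ u :: (ms ++ [v]), R H w c := by
  have key : ∀ B : Finset α, B ⊆ A →
      ∃ ms : List α, (u :: (ms ++ [v])).Pairwise (fun a b => ¬ R H a b) ∧
      (∀ a ∈ u :: (ms ++ [v]), a ∈ A) ∧ ∀ c ∈ B, ∃ w ∈ u :: (ms ++ [v]), R H w c := by
    intro B
    induction B using Finset.induction_on with
    | empty =>
      intro _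
      refine ⟨[], by simpa using huv, ?_, by simp⟩
      intro a ha
      simp only [List.nil_append, List.mem_cons, List.not_mem_nil, or_false] at ha
      rcases ha with rfl | rfl
      · exact hu
      · exact hv
    | insert c B hc ih =>
      intro hB
      obtain ⟨ms, h1, h2, h3⟩ := ih (fun a ha => hB (Finset.mem_insert_of_mem ha))
      by_cases hcc : ∃ w ∈ u :: (ms ++ [v]), R H w c
      · refine ⟨ms, h1, h2, ?_⟩
        intro d hd
        rcases Finset.mem_insert.mp hd with rfl | hd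
        · exact hcc
        · exact h3 d hd
      · push Not at hcc
        refine ⟨c :: ms, ?_, ?_, ?_⟩
        · rw [List.pairwise_cons] at h1
          rw [List.cons_append, List.pairwise_cons, List.pairwise_cons]
          refine ⟨?_, ?_, h1.2⟩
          · intro a ha
            rcases List.mem_cons.mp ha with rfl | ha
            · exact hcc u (by simp)
            · exact h1.1 a ha
          · intro a ha hr
            exact hcc a (List.mem_cons_of_mem _ ha) hr.symm
        · intro a ha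
          simp only [List.mem_cons, List.cons_append] at ha
          rcases ha with rfl | rfl | ha
          · exact hu
          · exact hB (Finset.mem_insert_self _ _)
          · exact h2 a (List.mem_cons_of_mem _ ha)
        · intro d hd
          rcases Finset.mem_insert.mp hd with rfl | hd
          · exact ⟨d, by simp, R.refl H d⟩
          · obtain ⟨w, hw, hr⟩ := h3 d hd
            refine ⟨w, ?_, hr⟩
            simp only [List.mem_cons, List.cons_append] at hw ⊢
            tauto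
  exact key A (Finset.Subset.refl A)

end Pool.Agent.H37.Pan
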