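import Pool.Agent.H37.Pan.Defs

/-!
Strings over a finite alphabet as lists, prefix reversals, equivalence modulo a group of
relabelings, and lists of strings meeting every equivalence class exactly once.
-/

namespace Pool.Agent.H37.Pan

set_option linter.unusedSectionVars false

variable {α : Type} [DecidableEq α]

/-- prefix reversal on lists -/
def pr (k : ℕ) (l : List α) : List α := (l.take k).reverse ++ l.drop k

theorem pr_length (k : ℕ) (l : List α) : (pr k l).length = l.length := by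
  simp [pr]; omega

theorem pr_perm (k : ℕ) (l : List α) : (pr k l).Perm l := by
  unfold pr
  have h : (l.take k ++ l.drop k).Perm l := by rw [List.take_append_drop]
  exact ((List.reverse_perm _).append_right _).trans h

theorem pr_pr (k : ℕ) (l : List α) (hk : k ≤ l.length) : pr k (pr k l) = l := by
  unfold pr
  have h1 : (l.take k).reverse.length = k := by simp [hk]
  rw [List.take_append_of_le_length (by rw [h1]), List.take_of_length_le (by rw [h1]),
    List.drop_append_of_le_length (by rw [h1]), List.drop_of_length_le (by rw [h1])]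
  simp

theorem pr_full (l : List α) : pr l.length l = l.reverse := by
  simp [pr]

theorem pr_append (k : ℕ) (l m : List α) (hk : k ≤ l.length) : pr k (l ++ m) = pr k l ++ m := by
  unfold pr
  rw [List.take_append_of_le_length hk, List.drop_append_of_le_length hk, List.append_assoc]

theorem pr_map {β : Type} (f : α → β) (k : ℕ) (l : List α) : pr k (l.map f) = (pr k l).map f := by
  simp [pr]

/-- adjacency of strings -/
def AdjL (l l' : List α) : Prop := ∃ k, 2 ≤ k ∧ k ≤ l.length ∧ l' = pr k l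

theorem AdjL.symm {l l' : List α} (h : AdjL l l') : AdjL l' l := by
  obtain ⟨k, h2, hk, rfl⟩ := h
  exact ⟨k, h2, by rw [pr_length]; exact hk, (pr_pr k l hk).symm⟩

theorem AdjL.append {l l' : List α} (h : AdjL l l') (m : List α) : AdjL (l ++ m) (l' ++ m) := by
  obtain ⟨k, h2, hk, rfl⟩ := h
  exact ⟨k, h2, by simp; omega, (pr_append k l m hk).symm⟩

theorem AdjL.map {β : Type} {l l' : List α} (h : AdjL l l') (f : α → β) :
    AdjL (l.map f) (l'.map f) := by
  obtain ⟨k, h2, hk, rfl⟩ := h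
  exact ⟨k, h2, by simpa using hk, (pr_map f k l).symm⟩

theorem adjL_reverse {l : List α} (h : 2 ≤ l.length) : AdjL l l.reverse :=
  ⟨l.length, h, le_refl _, (pr_full l).symm⟩

/-- strings: arrangements of the alphabet `A` -/
def Str (A : Finset α) (l : List α) : Prop := l.Nodup ∧ ∀ a, a ∈ l ↔ a ∈ A

theorem Str.perm {A : Finset α} {l l' : List α} (h : Str A l) (p : l.Perm l') : Str A l' :=
  ⟨p.nodup_iff.mp h.1, fun a => by rw [← p.mem_iff]; exact h.2 a⟩

theorem Str.reverse {A : Finset α} {l : List α} (h : Str A l) : Str A l.reverse :=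
  h.perm (List.reverse_perm l).symm

theorem Str.length {A : Finset α} {l : List α} (h : Str A l) : l.length = A.card := by
  classical
  have : l.toFinset = A := by
    ext a; simp [h.2 a]
  rw [← this, List.toFinset_card_of_nodup h.1]

theorem Str.dropLast {A : Finset α} {l : List α} {v : α} (h : Str A (l ++ [v])) :
    Str (A.erase v) l := by
  have h1 := h.1
  rw [List.nodup_append] at h1
  refine ⟨h1.1, fun a => ?_⟩
  have h2 := h.2 a
  simp only [List.mem_append, List.mem_singleton] at h2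
  rw [Finset.mem_erase]
  constructor
  · intro ha
    exact ⟨fun e => h1.2.2 a ha v (by simp) e, h2.mp (Or.inl ha)⟩
  · rintro ⟨hne, ha⟩
    rcases h2.mpr ha with h3 | h3
    · exact h3
    · exact absurd h3 hne

theorem Str.snoc {A : Finset α} {l : List α} {v : α} (h : Str (A.erase v) l) (hv : v ∈ A) :
    Str A (l ++ [v]) := by
  refine ⟨?_, fun a => ?_⟩
  · rw [List.nodup_append]
    refine ⟨h.1, by simp, ?_⟩
    intro a ha b hb
    simp only [List.mem_singleton] at hb
    subst hb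
    have := (h.2 a).mp ha
    exact (Finset.mem_erase.mp this).1
  · simp only [List.mem_append, List.mem_singleton]
    rw [h.2 a, Finset.mem_erase]
    constructor
    · rintro (⟨_, h1⟩ | rfl)
      · exact h1
      · exact hv
    · intro ha
      by_cases e : a = v
      · exact Or.inr e
      · exact Or.inl ⟨e, ha⟩

theorem Str.mem_last {A : Finset α} {l : List α} {v : α} (h : Str A (l ++ [v])) : v ∈ A :=
  (h.2 v).mp (by simp)

/-- the group `H` preserves the alphabet `A` -/
def Inv (H : Subgroup (Equiv.Perm α)) (A : Finset α) : Prop :=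
  ∀ h ∈ H, ∀ a, a ∈ A → h a ∈ A

theorem Str.map {A : Finset α} {l : List α} (h : Str A l) {H : Subgroup (Equiv.Perm α)}
    (hH : Inv H A) {k : Equiv.Perm α} (hk : k ∈ H) : Str A (l.map k) := by
  refine ⟨h.1.map k.injective, fun a => ?_⟩
  rw [List.mem_map]
  constructor
  · rintro ⟨b, hb, rfl⟩
    exact hH k hk b ((h.2 b).mp hb)
  · intro ha
    refine ⟨k⁻¹ a, (h.2 _).mpr (hH _ (H.inv_mem hk) a ha), by simp⟩

/-- two strings are equivalent when they differ by a relabeling from `H` -/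
def Eqv (H : Subgroup (Equiv.Perm α)) (l l' : List α) : Prop := ∃ h ∈ H, l' = l.map h

theorem Eqv.refl (H : Subgroup (Equiv.Perm α)) (l : List α) : Eqv H l l :=
  ⟨1, H.one_mem, by simp⟩

theorem Eqv.symm {H : Subgroup (Equiv.Perm α)} {l l' : List α} (h : Eqv H l l') : Eqv H l' l := by
  obtain ⟨k, hk, rfl⟩ := h
  refine ⟨k⁻¹, H.inv_mem hk, ?_⟩
  rw [List.map_map]
  have : (⇑k⁻¹ ∘ ⇑k) = id := by funext a; simp
  rw [this]; simp

theorem Eqv.trans {H : Subgroup (Equiv.Perm α)} {l l' l'' : List α} (h : Eqv H l l')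
    (h' : Eqv H l' l'') : Eqv H l l'' := by
  obtain ⟨k, hk, rfl⟩ := h
  obtain ⟨k', hk', rfl⟩ := h'
  refine ⟨k' * k, H.mul_mem hk' hk, ?_⟩
  rw [List.map_map]; rfl

/-- a nonempty list of strings, consecutive ones adjacent, meeting each `H`-class in `O`
exactly once, starting in `x` and ending in `y` -/
structure Cov (H : Subgroup (Equiv.Perm α)) (O : List α → Prop) (P : List (List α)) : Prop where
  chain : P.IsChain AdjL
  mem : ∀ p ∈ P, O p
  cov : ∀ s, O s → ∃ p ∈ P, Eqv H s p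
  inj : P.Pairwise (fun p q => ¬ Eqv H p q)

def HP (H : Subgroup (Equiv.Perm α)) (O : List α → Prop) (x y : List α) : Prop :=
  ∃ P, Cov H O P ∧ P.head? = some x ∧ P.getLast? = some y

theorem HP.glue {H : Subgroup (Equiv.Perm α)} {O1 O2 : List α → Prop} {x y z w : List α}
    (h1 : HP H O1 x y) (h2 : HP H O2 z w) (ha : AdjL y z)
    (hd : ∀ s t, O1 s → O2 t → ¬ Eqv H s t) : HP H (fun s => O1 s ∨ O2 s) x w := by
  obtain ⟨P, cP, hx, hy⟩ := h1
  obtain ⟨Q, cQ, hz, hw⟩ := h2
  refine ⟨P ++ Q, ⟨?_, ?_, ?_, ?_⟩, ?_, ?_⟩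
  · refine cP.chain.append cQ.chain ?_
    intro a ha' b hb'
    rw [hy] at ha'
    rw [hz] at hb'
    simp only [Option.mem_def, Option.some.injEq] at ha' hb'
    subst ha'; subst hb'
    exact ha
  · intro p hp
    rw [List.mem_append] at hp
    rcases hp with hp | hp
    · exact Or.inl (cP.mem p hp)
    · exact Or.inr (cQ.mem p hp)
  · rintro s (hs | hs)
    · obtain ⟨p, hp, he⟩ := cP.cov s hs
      exact ⟨p, List.mem_append_left _ hp, he⟩
    · obtain ⟨p, hp, he⟩ := cQ.cov s hs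
      exact ⟨p, List.mem_append_right _ hp, he⟩
  · rw [List.pairwise_append]
    exact ⟨cP.inj, cQ.inj, fun a ha' b hb' => hd a b (cP.mem a ha') (cQ.mem b hb')⟩
  · rw [List.head?_append, hx]; rfl
  · rw [List.getLast?_append, hw]; rfl

theorem HP.congr {H : Subgroup (Equiv.Perm α)} {O1 O2 : List α → Prop} {x y : List α}
    (h1 : HP H O1 x y) (h : ∀ s, O1 s ↔ O2 s) : HP H O2 x y := by
  have : O1 = O2 := by funext s; exact propext (h s)
  rw [← this]; exact h1

theorem HP.congr_grp {H K : Subgroup (Equiv.Perm α)} {O : List α → Prop} {x y : List α}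
    (h1 : HP H O x y) (h : ∀ s t, O s → O t → (Eqv H s t ↔ Eqv K s t)) : HP K O x y := by
  obtain ⟨P, cP, hx, hy⟩ := h1
  refine ⟨P, ⟨cP.chain, cP.mem, ?_, ?_⟩, hx, hy⟩
  · intro s hs
    obtain ⟨p, hp, he⟩ := cP.cov s hs
    exact ⟨p, hp, (h s p hs (cP.mem p hp)).mp he⟩
  · have := cP.inj
    rw [List.pairwise_iff_getElem] at this ⊢
    intro i j hi hj hij e
    exact this i j hi hj hij ((h _ _ (cP.mem _ (List.getElem_mem hi))
      (cP.mem _ (List.getElem_mem hj))).mpr e)

theorem HP.reverse {H : Subgroup (Equiv.Perm α)} {O : List α → Prop} {x y : List α}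
    (h1 : HP H O x y) : HP H O y x := by
  obtain ⟨P, cP, hx, hy⟩ := h1
  refine ⟨P.reverse, ⟨?_, ?_, ?_, ?_⟩, ?_, ?_⟩
  · rw [List.isChain_reverse]
    exact cP.chain.imp (fun a b h => h.symm)
  · intro p hp
    exact cP.mem p (List.mem_reverse.mp hp)
  · intro s hs
    obtain ⟨p, hp, he⟩ := cP.cov s hs
    exact ⟨p, List.mem_reverse.mpr hp, he⟩
  · rw [List.pairwise_reverse]
    exact cP.inj.imp (fun h e => h e.symm)
  · rw [List.head?_reverse]; exact hy
  · rw [List.getLast?_reverse]; exact hx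

/-- applying a relabeling of the group -/
theorem HP.shift {H : Subgroup (Equiv.Perm α)} {O : List α → Prop} {x y : List α}
    (h1 : HP H O x y) {k : Equiv.Perm α} (hk : k ∈ H) (hO : ∀ s, O s → O (s.map k)) :
    HP H O (x.map k) (y.map k) := by
  obtain ⟨P, cP, hx, hy⟩ := h1
  have key : ∀ s : List α, Eqv H s (s.map k) := fun s => ⟨k, hk, rfl⟩
  refine ⟨P.map (List.map k), ⟨?_, ?_, ?_, ?_⟩, ?_, ?_⟩
  · exact List.isChain_map_of_isChain (List.map k) (fun a b h => AdjL.map h _) cP.chain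
  · intro p hp
    obtain ⟨q, hq, rfl⟩ := List.mem_map.mp hp
    exact hO q (cP.mem q hq)
  · intro s hs
    obtain ⟨p, hp, he⟩ := cP.cov s hs
    exact ⟨p.map k, List.mem_map.mpr ⟨p, hp, rfl⟩, he.trans (key p)⟩
  · rw [List.pairwise_map]
    exact cP.inj.imp (fun h e => h (((key _).trans e).trans (key _).symm))
  · rw [List.head?_map, hx]; rfl
  · rw [List.getLast?_map, hy]; rfl

/-- stabilizer of a symbol -/
def stab (H : Subgroup (Equiv.Perm α)) (v : α) : Subgroup (Equiv.Perm α) where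
  carrier := {h | h ∈ H ∧ h v = v}
  mul_mem' := by
    rintro a b ⟨ha, ha'⟩ ⟨hb, hb'⟩
    exact ⟨H.mul_mem ha hb, by rw [Equiv.Perm.mul_apply, hb', ha']⟩
  one_mem' := ⟨H.one_mem, rfl⟩
  inv_mem' := by
    rintro a ⟨ha, ha'⟩
    refine ⟨H.inv_mem ha, ?_⟩
    rw [Equiv.Perm.inv_eq_iff_eq]; exact ha'.symm

theorem mem_stab {H : Subgroup (Equiv.Perm α)} {v : α} {h : Equiv.Perm α} :
    h ∈ stab H v ↔ h ∈ H ∧ h v = v := Iff.rfl

/-- strings of the form `h (t v)` with `T t` -/
def LiftP (H : Subgroup (Equiv.Perm α)) (v : α) (T : List α → Prop) (s : List α) : Prop :=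
  ∃ h ∈ H, ∃ t, T t ∧ s = (t ++ [v]).map h

theorem HP.lift {H : Subgroup (Equiv.Perm α)} {v : α} {T : List α → Prop} {x y : List α}
    (h1 : HP (stab H v) T x y) : HP H (LiftP H v T) (x ++ [v]) (y ++ [v]) := by
  obtain ⟨P, cP, hx, hy⟩ := h1
  refine ⟨P.map (· ++ [v]), ⟨?_, ?_, ?_, ?_⟩, ?_, ?_⟩
  · exact List.isChain_map_of_isChain (· ++ [v]) (fun a b h => AdjL.append h _) cP.chain
  · intro p hp
    obtain ⟨q, hq, rfl⟩ := List.mem_map.mp hp
    exact ⟨1, H.one_mem, q, cP.mem q hq, by simp⟩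
  · rintro s ⟨h, hh, t, ht, rfl⟩
    obtain ⟨p, hp, k, hk, he⟩ := cP.cov t ht
    refine ⟨p ++ [v], List.mem_map.mpr ⟨p, hp, rfl⟩, ?_⟩
    have h1 : Eqv H (t ++ [v]) ((t ++ [v]).map h) := ⟨h, hh, rfl⟩
    have h2 : Eqv H (t ++ [v]) (p ++ [v]) := by
      refine ⟨k, hk.1, ?_⟩
      rw [List.map_append, ← he]
      simp [hk.2]
    exact h1.symm.trans h2
  · rw [List.pairwise_map]
    refine cP.inj.imp ?_
    intro a b hab e
    apply hab
    obtain ⟨k, hk, he⟩ := e
    rw [List.map_append] at he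
    have h3 := List.append_inj' he (by simp)
    refine ⟨k, ⟨hk, ?_⟩, h3.1⟩
    have h4 := h3.2
    simp only [List.map_cons, List.map_nil, List.cons.injEq, and_true] at h4
    exact h4.symm
  · rw [List.head?_map, hx]; rfl
  · rw [List.getLast?_map, hy]; rfl

theorem LiftP.sep {H : Subgroup (Equiv.Perm α)} {v : α} {T T' : List α → Prop}
    (hd : ∀ s t, T s → T' t → ¬ Eqv (stab H v) s t) :
    ∀ s t, LiftP H v T s → LiftP H v T' t → ¬ Eqv H s t := by
  rintro s t ⟨h, hh, a, ha, rfl⟩ ⟨h', hh', b, hb, rfl⟩ e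
  have h1 : Eqv H (a ++ [v]) ((a ++ [v]).map h) := ⟨h, hh, rfl⟩
  have h2 : Eqv H (b ++ [v]) ((b ++ [v]).map h') := ⟨h', hh', rfl⟩
  obtain ⟨k, hk, he⟩ := (h1.trans e).trans h2.symm
  rw [List.map_append] at he
  have h3 := List.append_inj' he (by simp)
  refine hd a b ha hb ⟨k, ⟨hk, ?_⟩, h3.1⟩
  have h4 := h3.2
  simp only [List.map_cons, List.map_nil, List.cons.injEq, and_true] at h4
  exact h4.symm

theorem LiftP.map {H : Subgroup (Equiv.Perm α)} {v : α} {T : List α → Prop} {k : Equiv.Perm α}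
    (hk : k ∈ H) : ∀ s, LiftP H v T s → LiftP H v T (s.map k) := by
  rintro s ⟨h, hh, t, ht, rfl⟩
  exact ⟨k * h, H.mul_mem hk hh, t, ht, by rw [List.map_map]; rfl⟩

/-- orbit relation on symbols -/
def R (H : Subgroup (Equiv.Perm α)) (a b : α) : Prop := ∃ h ∈ H, h a = b

theorem R.refl (H : Subgroup (Equiv.Perm α)) (a : α) : R H a a := ⟨1, H.one_mem, rfl⟩

theorem R.symm {H : Subgroup (Equiv.Perm α)} {a b : α} (h : R H a b) : R H b a := by
  obtain ⟨k, hk, rfl⟩ := h
  exact ⟨k⁻¹, H.inv_mem hk, by simp⟩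

theorem R.trans {H : Subgroup (Equiv.Perm α)} {a b c : α} (h : R H a b) (h' : R H b c) :
    R H a c := by
  obtain ⟨k, hk, rfl⟩ := h
  obtain ⟨k', hk', rfl⟩ := h'
  exact ⟨k' * k, H.mul_mem hk' hk, rfl⟩

theorem R.mono {H K : Subgroup (Equiv.Perm α)} (hKH : K ≤ H) {a b : α} (h : R K a b) :
    R H a b := by
  obtain ⟨k, hk, rfl⟩ := h
  exact ⟨k, hKH hk, rfl⟩

theorem stab_le (H : Subgroup (Equiv.Perm α)) (v : α) : stab H v ≤ H := fun _ h => h.1

/-- strings over `A` whose last symbol is in the orbit of a member of the list `vs` -/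
def PU (H : Subgroup (Equiv.Perm α)) (A : Finset α) (vs : List α) (s : List α) : Prop :=
  Str A s ∧ ∃ z ∈ vs, ∃ t w, s = t ++ [w] ∧ R H z w

theorem PU.sep {H : Subgroup (Equiv.Perm α)} {A : Finset α} {vs ws : List α}
    (hd : ∀ v ∈ vs, ∀ w ∈ ws, ¬ R H v w) :
    ∀ s t, PU H A vs s → PU H A ws t → ¬ Eqv H s t := by
  rintro s t ⟨_, z, hz, t1, w1, rfl, h1⟩ ⟨_, z', hz', t2, w2, rfl, h2⟩ ⟨k, hk, he⟩
  rw [List.map_append] at he
  have h3 := (List.append_inj' he (by simp)).2
  simp only [List.map_cons, List.map_nil, List.cons.injEq, and_true] at h3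
  exact hd z hz z' hz' ((h1.trans ⟨k, hk, h3.symm⟩).trans h2.symm)

theorem liftP_str {H : Subgroup (Equiv.Perm α)} {A : Finset α} (hH : Inv H A) {v : α}
    (hv : v ∈ A) (s : List α) : LiftP H v (Str (A.erase v)) s ↔ PU H A [v] s := by
  constructor
  · rintro ⟨h, hh, t, ht, rfl⟩
    refine ⟨(ht.snoc hv).map hH hh, v, by simp, t.map h, h v, by simp, h, hh, rfl⟩
  · rintro ⟨hs, z, hz, t, w, rfl, h, hh, hw⟩
    simp only [List.mem_singleton] at hz
    subst hz
    subst hw
    have h1 : Str A ((t ++ [h z]).map (h⁻¹ : Equiv.Perm α)) := hs.map hH (H.inv_mem hh)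
    have h2 : (t ++ [h z]).map (h⁻¹ : Equiv.Perm α) = t.map (h⁻¹ : Equiv.Perm α) ++ [z] := by
      simp
    rw [h2] at h1
    refine ⟨h, hh, t.map (h⁻¹ : Equiv.Perm α), h1.dropLast, ?_⟩
    simp [Function.comp_def]

end Pool.Agent.H37.Pan
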